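import Pool.Agent.H986R2.KSat.LD

open Finset Filter Topology

namespace Pool.Agent.H986R2.KSat

theorem log_bound {x : ℝ} (hx : 1000 ≤ x) : Real.log x + Real.log 4 + 1 ≤ 0.00932 * x := by
  have h1 : Real.log (x / 1024) ≤ x / 1024 - 1 := Real.log_le_sub_one_of_pos (by positivity)
  have h2 : Real.log x = Real.log (x / 1024) + Real.log 1024 := by
    rw [← Real.log_mul (by positivity) (by norm_num)]; congr 1; field_simp
  have h3 : Real.log 1024 = 10 * Real.log 2 := by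
    rw [show (1024 : ℝ) = 2 ^ 10 by norm_num, Real.log_pow]; norm_num
  have h4 : Real.log 4 = 2 * Real.log 2 := by
    rw [show (4 : ℝ) = 2 ^ 2 by norm_num, Real.log_pow]; norm_num
  have h5 := Real.log_two_lt_d9
  rw [h2, h3, h4]
  linarith

theorem exp_le_quad {x : ℝ} (h0 : 0 ≤ x) (h1 : x ≤ 1) : Real.exp x ≤ 1 + x + x ^ 2 := by
  have := Real.abs_exp_sub_one_sub_id_le (x := x) (by rw [abs_of_nonneg h0]; exact h1)
  have := (abs_le.1 this).2
  linarith

theorem three_pow_ge (y : ℕ) : Real.exp (1.09 * y) ≤ 3 ^ y := by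
  have h1 : Real.exp 1.09 ≤ 3 := by
    have e1 := Real.exp_one_lt_d9
    have e2 : Real.exp 0.09 ≤ 1 + 0.09 + 0.09 ^ 2 := exp_le_quad (by norm_num) (by norm_num)
    have e3 : Real.exp 1.09 = Real.exp 1 * Real.exp 0.09 := by
      rw [← Real.exp_add]; norm_num
    rw [e3]
    calc Real.exp 1 * Real.exp 0.09 ≤ 2.7182818286 * (1 + 0.09 + 0.09 ^ 2) := by
          gcongr
      _ ≤ 3 := by norm_num
  calc Real.exp (1.09 * y) = (Real.exp 1.09) ^ y := by rw [← Real.exp_nat_mul]; ring_nf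
    _ ≤ 3 ^ y := by gcongr

/-- the size of the exceptional sets -/
def zz (n k : ℕ) : ℕ := n / (10 * k) + 1

/-- the number of disjoint small structures allowed -/
def tt (n k i : ℕ) : ℕ := n / (1000 * i * k ^ 2)

theorem zz_lower (n k : ℕ) (hk : 1 ≤ k) : (n : ℝ) / (10 * k) ≤ zz n k := by
  have h : n < (zz n k) * (10 * k) := by
    unfold zz
    have := Nat.lt_div_mul_add (a := n) (b := 10 * k) (by omega)
    nlinarith
  rw [div_le_iff₀ (by positivity)]
  exact_mod_cast h.le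

theorem zz_upper (n k : ℕ) : (zz n k : ℝ) ≤ (n : ℝ) / (10 * k) + 1 := by
  unfold zz
  push_cast
  have := Nat.cast_div_le (α := ℝ) (m := n) (n := 10 * k)
  push_cast at this
  linarith

theorem tt_mul (n k i : ℕ) (hk : 1 ≤ k) : ((tt n k i * (i * k) : ℕ) : ℝ) ≤ n / (1000 * k) := by
  rw [le_div_iff₀ (by positivity)]
  have h : tt n k i * (1000 * i * k ^ 2) ≤ n := Nat.div_mul_le_self _ _
  have : tt n k i * (i * k) * (1000 * k) ≤ n := by nlinarith
  exact_mod_cast this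

theorem ball_zz (n k : ℕ) (hk : 100 ≤ k) (z : ℕ) (hz : (z : ℝ) ≤ (n : ℝ) / (10 * k) + 1) :
    (∑ j ∈ range (z + 1), (n.choose j : ℝ)) * 4 ^ z ≤
      Real.exp (0.00932 * n) * (40 * k) := by
  have hk0 : (0 : ℝ) < k := by
    have : 0 < k := by omega
    exact_mod_cast this
  have hk100 : (100 : ℝ) ≤ k := by exact_mod_cast hk
  have h1 := ball_le n z (1 / (10 * k)) (by positivity) (by
    rw [div_le_one (by positivity)]; linarith)
  have h2 : (1 + 1 / (10 * (k : ℝ))) ^ n ≤ Real.exp (n / (10 * k)) := by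
    have := Real.add_one_le_exp (1 / (10 * (k : ℝ)))
    calc (1 + 1 / (10 * (k : ℝ))) ^ n ≤ (Real.exp (1 / (10 * k))) ^ n := by
          gcongr; linarith
      _ = _ := by rw [← Real.exp_nat_mul]; congr 1; ring
  have h3 : (∑ j ∈ range (z + 1), (n.choose j : ℝ)) * 4 ^ z
      ≤ Real.exp (n / (10 * k)) * (40 * k) ^ z := by
    calc (∑ j ∈ range (z + 1), (n.choose j : ℝ)) * 4 ^ z
        ≤ ((1 + 1 / (10 * (k : ℝ))) ^ n / (1 / (10 * k)) ^ z) * 4 ^ z := by gcongr
      _ = (1 + 1 / (10 * (k : ℝ))) ^ n * (40 * k) ^ z := by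
          rw [one_div_pow, div_div_eq_mul_div, div_one]
          rw [mul_assoc, ← mul_pow]; congr 2; ring
      _ ≤ _ := by gcongr
  refine le_trans h3 ?_
  have h4 : ((40 : ℝ) * k) ^ z = Real.exp (z * (Real.log (10 * k) + Real.log 4)) := by
    rw [← Real.log_mul (by positivity) (by norm_num)]
    rw [← Real.log_pow, Real.exp_log (by positivity)]
    congr 1; ring
  have h5 : (z : ℝ) * (Real.log (10 * k) + Real.log 4)
      ≤ ((n : ℝ) / (10 * k) + 1) * (Real.log (10 * k) + Real.log 4) := by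
    have : 0 ≤ Real.log (10 * k) + Real.log 4 := by
      have a := Real.log_nonneg (x := 10 * (k : ℝ)) (by linarith)
      have b := Real.log_nonneg (x := (4 : ℝ)) (by norm_num)
      linarith
    gcongr
  have h6 := log_bound (x := 10 * (k : ℝ)) (by linarith)
  have h7 : (n : ℝ) / (10 * k) * (Real.log (10 * k) + Real.log 4 + 1) ≤ 0.00932 * n := by
    calc (n : ℝ) / (10 * k) * (Real.log (10 * k) + Real.log 4 + 1)
        ≤ (n : ℝ) / (10 * k) * (0.00932 * (10 * k)) := by gcongr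
      _ = _ := by field_simp
  calc Real.exp (n / (10 * k)) * (40 * k) ^ z
      = Real.exp (n / (10 * k) + z * (Real.log (10 * k) + Real.log 4)) := by
        rw [h4, ← Real.exp_add]
    _ ≤ Real.exp (0.00932 * n + (Real.log (10 * k) + Real.log 4)) := by
        apply Real.exp_le_exp.2
        linarith
    _ = Real.exp (0.00932 * n) * (40 * k) := by
        rw [Real.exp_add, ← Real.log_mul (by positivity) (by norm_num),
          Real.exp_log (by positivity)]
        congr 1; ring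

theorem ball_zz' (n k : ℕ) (hk : 100 ≤ k) (z : ℕ) (hz : (z : ℝ) ≤ (n : ℝ) / (10 * k) + 1) :
    (∑ j ∈ range (z + 1), (n.choose j : ℝ)) ≤ Real.exp (0.00932 * n) * (40 * k) := by
  refine le_trans ?_ (ball_zz n k hk z hz)
  have h1 : (1 : ℝ) ≤ 4 ^ z := one_le_pow₀ (by norm_num)
  have h2 : 0 ≤ ∑ j ∈ range (z + 1), (n.choose j : ℝ) := by positivity
  nlinarith

/-- `C(n-1,k-1) = (k/n) C(n,k)`. -/
theorem choose_ratio (n k : ℕ) (hk : 1 ≤ k) (hn : 1 ≤ n) :
    (n : ℝ) * ((n - 1).choose (k - 1) : ℝ) = k * (n.choose k : ℝ) := by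
  have := Nat.add_one_mul_choose_eq (n - 1) (k - 1)
  rw [Nat.sub_add_cancel hn, Nat.sub_add_cancel hk] at this
  have h : (n * (n - 1).choose (k - 1) : ℕ) = k * n.choose k := by rw [this]; ring
  exact_mod_cast h

theorem choose_R1 (n k : ℕ) (hk : 1 ≤ k) (hn : 1000 * (k + k ^ 2) ≤ n) :
    0.899 * ((n - 1).choose (k - 1) : ℝ) ≤ ((n - zz n k).choose (k - 1) : ℝ) := by
  have hn0 : 0 < n := by nlinarith
  have hnr : (0 : ℝ) < n := by exact_mod_cast hn0
  have hkr : (1 : ℝ) ≤ k := by exact_mod_cast hk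
  have hz := zz_upper n k
  have hnk : (1000 : ℝ) * (k + k ^ 2) ≤ n := by exact_mod_cast hn
  have hzk : k * ((zz n k : ℝ) + k) ≤ 0.101 * n := by
    have : k * ((zz n k : ℝ) + k) ≤ k * ((n : ℝ) / (10 * k) + 1 + k) := by gcongr
    have e : (k : ℝ) * ((n : ℝ) / (10 * k) + 1 + k) = n / 10 + k + k ^ 2 := by
      field_simp
    rw [e] at this
    linarith
  have hzn : (zz n k : ℝ) + k ≤ n := by nlinarith
  have hznat : zz n k + k ≤ n := by exact_mod_cast hzn
  have h1 := Nat.pow_le_choose (α := ℝ) (k - 1) (n - zz n k)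
  have h2 := Nat.choose_le_pow_div (α := ℝ) (k - 1) (n - 1)
  have hc : ((n - zz n k + 1 - (k - 1) : ℕ) : ℝ) = (n : ℝ) - zz n k + 2 - k := by
    rw [Nat.cast_sub (by omega)]
    push_cast
    rw [Nat.cast_sub (by omega), Nat.cast_sub (by omega)]
    push_cast; ring
  rw [hc] at h1
  have h3 : ((n : ℝ) * (1 + -(((zz n k : ℝ) + k) / n))) ^ (k - 1)
      ≤ ((n : ℝ) - zz n k + 2 - k) ^ (k - 1) := by
    apply pow_le_pow_left₀
    · apply mul_nonneg hnr.le
      have : ((zz n k : ℝ) + k) / n ≤ 1 := by rw [div_le_one hnr]; exact hzn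
      linarith
    · have : (n : ℝ) * (1 + -(((zz n k : ℝ) + k) / n)) = n - (zz n k + k) := by
        field_simp; ring
      rw [this]; linarith
  have h4 : (0.899 : ℝ) ≤ (1 + -(((zz n k : ℝ) + k) / n)) ^ (k - 1) := by
    have hb := one_add_mul_le_pow (a := -(((zz n k : ℝ) + k) / n)) (by
      have : ((zz n k : ℝ) + k) / n ≤ 1 := by rw [div_le_one hnr]; exact hzn
      linarith) (k - 1)
    refine le_trans ?_ hb
    have hk1 : ((k - 1 : ℕ) : ℝ) ≤ k := by
      exact_mod_cast Nat.sub_le k 1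
    have h5 : ((k - 1 : ℕ) : ℝ) * (((zz n k : ℝ) + k) / n) ≤ 0.101 := by
      calc ((k - 1 : ℕ) : ℝ) * (((zz n k : ℝ) + k) / n)
          ≤ (k : ℝ) * (((zz n k : ℝ) + k) / n) := by gcongr
        _ = k * ((zz n k : ℝ) + k) / n := by ring
        _ ≤ 0.101 := by rw [div_le_iff₀ hnr]; exact hzk
    linarith
  calc 0.899 * ((n - 1).choose (k - 1) : ℝ)
      ≤ 0.899 * (((n - 1 : ℕ) : ℝ) ^ (k - 1) / (k - 1).factorial) := by gcongr
    _ ≤ 0.899 * ((n : ℝ) ^ (k - 1) / (k - 1).factorial) := by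
        have : ((n - 1 : ℕ) : ℝ) ≤ n := by exact_mod_cast Nat.sub_le n 1
        gcongr
    _ = ((n : ℝ) ^ (k - 1) * 0.899) / (k - 1).factorial := by ring
    _ ≤ ((n : ℝ) ^ (k - 1) * (1 + -(((zz n k : ℝ) + k) / n)) ^ (k - 1)) / (k - 1).factorial := by
        gcongr
    _ = ((n : ℝ) * (1 + -(((zz n k : ℝ) + k) / n))) ^ (k - 1) / (k - 1).factorial := by
        rw [mul_pow]
    _ ≤ ((n : ℝ) - zz n k + 2 - k) ^ (k - 1) / (k - 1).factorial := by gcongr
    _ ≤ _ := h1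

theorem choose_R2 (n k : ℕ) (hk : 1 ≤ k) (hn : 1000 * (2 * k + k ^ 2) ≤ n) :
    ((n : ℝ) + zz n k) ^ k / k.factorial ≤ 1.1113 * (n.choose k : ℝ) := by
  have hkr : (1 : ℝ) ≤ k := by exact_mod_cast hk
  have hnk : (1000 : ℝ) * (2 * k + k ^ 2) ≤ n := by exact_mod_cast hn
  have hkn : k < n := by nlinarith
  have hknr : (k : ℝ) < n := by exact_mod_cast hkn
  have hz := zz_upper n k
  have h1 := Nat.pow_le_choose (α := ℝ) k n
  have hc : ((n + 1 - k : ℕ) : ℝ) = (n : ℝ) + 1 - k := by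
    rw [Nat.cast_sub (by omega)]; push_cast; ring
  rw [hc] at h1
  have hd : (0 : ℝ) < (n : ℝ) - k := by linarith
  have h2 : (n : ℝ) + zz n k ≤ ((n : ℝ) - k) * Real.exp (((zz n k : ℝ) + k) / (n - k)) := by
    have h3 := Real.add_one_le_exp (((zz n k : ℝ) + k) / (n - k))
    calc (n : ℝ) + zz n k = ((n : ℝ) - k) * (((zz n k : ℝ) + k) / (n - k) + 1) := by
          field_simp; ring
      _ ≤ _ := by gcongr
  have h4 : k * (((zz n k : ℝ) + k) / (n - k)) ≤ 0.101 := by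
    rw [← mul_div_assoc, div_le_iff₀ hd]
    have : k * ((zz n k : ℝ) + k) ≤ k * ((n : ℝ) / (10 * k) + 1 + k) := by gcongr
    have e : (k : ℝ) * ((n : ℝ) / (10 * k) + 1 + k) = n / 10 + k + k ^ 2 := by
      field_simp
    rw [e] at this
    nlinarith
  have h5 : Real.exp (k * (((zz n k : ℝ) + k) / (n - k))) ≤ 1.1113 := by
    have h6 : Real.exp (k * (((zz n k : ℝ) + k) / (n - k))) ≤ Real.exp 0.101 :=
      Real.exp_le_exp.2 h4
    have h7 := exp_le_quad (x := 0.101) (by norm_num) (by norm_num)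
    refine le_trans h6 (le_trans h7 ?_)
    norm_num
  calc ((n : ℝ) + zz n k) ^ k / k.factorial
      ≤ (((n : ℝ) - k) * Real.exp (((zz n k : ℝ) + k) / (n - k))) ^ k / k.factorial := by gcongr
    _ = (((n : ℝ) - k) ^ k / k.factorial) * Real.exp (k * (((zz n k : ℝ) + k) / (n - k))) := by
        rw [mul_pow, ← Real.exp_nat_mul]; ring
    _ ≤ (((n : ℝ) + 1 - k) ^ k / k.factorial) * 1.1113 := by
        have e1 : ((n : ℝ) - k) ^ k / k.factorial ≤ ((n : ℝ) + 1 - k) ^ k / k.factorial := by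
          have : ((n : ℝ) - k) ^ k ≤ ((n : ℝ) + 1 - k) ^ k :=
            pow_le_pow_left₀ hd.le (by linarith) k
          gcongr
        have e2 : 0 ≤ ((n : ℝ) - k) ^ k / k.factorial := by positivity
        exact mul_le_mul e1 h5 (by positivity) (le_trans e2 e1)
    _ ≤ _ := by linarith

theorem big_choose (k : ℕ) (hk : 3 ≤ k) : ∀ᶠ n : ℕ in atTop,
    (n : ℝ) ^ 3 / (8 * k.factorial) ≤ (n.choose k : ℝ) := by
  filter_upwards [eventually_ge_atTop (2 * k)] with n hn
  have h1 := Nat.pow_le_choose (α := ℝ) k n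
  refine le_trans ?_ h1
  have hc : ((n + 1 - k : ℕ) : ℝ) = (n : ℝ) + 1 - k := by
    rw [Nat.cast_sub (by omega)]; push_cast; ring
  rw [hc]
  have hnk : (2 : ℝ) * k ≤ n := by exact_mod_cast hn
  have hk3 : (3 : ℝ) ≤ k := by exact_mod_cast hk
  have h2 : (n : ℝ) / 2 ≤ (n : ℝ) + 1 - k := by linarith
  have h3 : ((n : ℝ) / 2) ^ 3 ≤ ((n : ℝ) / 2) ^ k :=
    pow_le_pow_right₀ (by linarith) hk
  calc (n : ℝ) ^ 3 / (8 * k.factorial) = ((n : ℝ) / 2) ^ 3 / k.factorial := by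
        field_simp; norm_num
    _ ≤ ((n : ℝ) / 2) ^ k / k.factorial := by gcongr
    _ ≤ _ := by gcongr

end Pool.Agent.H986R2.KSat
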