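import Pool.Agent.H986R2.KSat.Lex

open Finset

namespace Pool.Agent.H986R2.KSat

theorem probSat_nonneg (k n M : ℕ) : 0 ≤ probSat k n M := by
  unfold probSat; positivity

theorem probSat_le_one (k n M : ℕ) : probSat k n M ≤ 1 := by
  classical
  rw [probSat_eq]
  apply div_le_one_of_le₀ _ (by positivity)
  rw [← card_formulas]
  exact_mod_cast card_filter_le _ _

open Classical in
theorem sat_step (k n M : ℕ) :
    ((formulas n k (M + 1)).filter (fun F => Satisfiable F)).card * (M + 1)
      ≤ ((formulas n k M).filter (fun F => Satisfiable F)).card * (2 ^ k * n.choose k - M) := by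
  calc ((formulas n k (M + 1)).filter (fun F => Satisfiable F)).card * (M + 1)
      = ∑ F ∈ (formulas n k (M + 1)).filter (fun F => Satisfiable F), F.card := by
        rw [← smul_eq_mul, ← sum_const]
        apply sum_congr rfl
        intro F hF
        rw [mem_filter, mem_formulas] at hF
        exact hF.1.2.symm
    _ = (((formulas n k (M + 1)).filter (fun F => Satisfiable F)).sigma (fun F => F)).card := by
        rw [card_sigma]
    _ ≤ (((formulas n k M).filter (fun F => Satisfiable F)).sigma
          (fun F => clauses n k \ F)).card := by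
        apply card_le_card_of_injOn (fun p => ⟨p.1.erase p.2, p.2⟩)
        · rintro ⟨F, c⟩ hp
          simp only [coe_sigma, Set.mem_sigma_iff, mem_coe, mem_filter, mem_formulas,
            mem_sdiff] at hp ⊢
          obtain ⟨⟨⟨hFc, hFM⟩, A, hA⟩, hc⟩ := hp
          refine ⟨⟨⟨(erase_subset _ _).trans hFc, ?_⟩, A, fun c' hc' => hA c' (mem_of_mem_erase hc')⟩,
            hFc hc, notMem_erase _ _⟩
          rw [card_erase_of_mem hc, hFM]; rfl
        · rintro ⟨F, c⟩ hp ⟨F', c'⟩ hp' heq
          simp only [coe_sigma, Set.mem_sigma_iff, mem_coe] at hp hp'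
          simp only [Sigma.mk.injEq, heq_eq_eq] at heq
          obtain ⟨h1, rfl⟩ := heq
          have e1 := insert_erase hp.2
          have e2 := insert_erase hp'.2
          have : F = F' := by rw [← e1, ← e2, h1]
          rw [this]
    _ = ∑ F ∈ (formulas n k M).filter (fun F => Satisfiable F), (clauses n k \ F).card := by
        rw [card_sigma]
    _ = ∑ F ∈ (formulas n k M).filter (fun F => Satisfiable F), (2 ^ k * n.choose k - M) := by
        apply sum_congr rfl
        intro F hF
        rw [mem_filter, mem_formulas] at hF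
        rw [card_sdiff_of_subset hF.1.1, card_clauses, hF.1.2]
    _ = _ := by rw [sum_const, smul_eq_mul]

theorem probSat_succ_le (k n M : ℕ) : probSat k n (M + 1) ≤ probSat k n M := by
  classical
  rw [probSat_eq, probSat_eq]
  set N := 2 ^ k * n.choose k with hN
  by_cases hM : M + 1 ≤ N
  · have h1 : (0 : ℝ) < N.choose (M + 1) := by exact_mod_cast Nat.choose_pos hM
    have h2 : (0 : ℝ) < N.choose M := by exact_mod_cast Nat.choose_pos (by omega)
    rw [div_le_div_iff₀ h1 h2]
    have h3 := sat_step k n M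
    rw [← hN] at h3
    have h4 := Nat.choose_succ_right_eq N M
    set a := ((formulas n k (M + 1)).filter (fun F => Satisfiable F)).card
    set b := ((formulas n k M).filter (fun F => Satisfiable F)).card
    have h5 : (a * N.choose M) * (M + 1) ≤ (b * N.choose (M + 1)) * (M + 1) := by
      calc (a * N.choose M) * (M + 1) = (a * (M + 1)) * N.choose M := by ring
        _ ≤ (b * (N - M)) * N.choose M := Nat.mul_le_mul_right _ h3
        _ = b * (N.choose M * (N - M)) := by ring
        _ = b * (N.choose (M + 1) * (M + 1)) := by rw [h4]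
        _ = _ := by ring
    exact_mod_cast Nat.le_of_mul_le_mul_right h5 (by omega)
  · have : N.choose (M + 1) = 0 := Nat.choose_eq_zero_of_lt (by omega)
    rw [this]
    simp only [Nat.cast_zero, div_zero]
    positivity

theorem probSat_anti (k n : ℕ) : Antitone (fun M => probSat k n M) :=
  antitone_nat_of_succ_le (probSat_succ_le k n)

/-- ratio of binomial coefficients -/
theorem choose_ratio_le (N' N M : ℕ) (h : N' ≤ N) :
    (N'.choose M : ℝ) * (N : ℝ) ^ M ≤ N.choose M * (N' : ℝ) ^ M := by
  induction M with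
  | zero => simp
  | succ M ih =>
    by_cases hM : N' ≤ M
    · have : N'.choose (M + 1) = 0 := Nat.choose_eq_zero_of_lt (by omega)
      rw [this]
      simp only [Nat.cast_zero, zero_mul]
      positivity
    · push Not at hM
      have h1 := Nat.choose_succ_right_eq N' M
      have h2 := Nat.choose_succ_right_eq N M
      have h1' : (N'.choose (M + 1) : ℝ) * (M + 1) = N'.choose M * ((N' : ℝ) - M) := by
        rw [← Nat.cast_sub hM.le]; exact_mod_cast h1
      have h2' : (N.choose (M + 1) : ℝ) * (M + 1) = N.choose M * ((N : ℝ) - M) := by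
        rw [← Nat.cast_sub (hM.le.trans h)]; exact_mod_cast h2
      have hMr : (M : ℝ) ≤ N' := by exact_mod_cast hM.le
      have hr : (N' : ℝ) ≤ N := by exact_mod_cast h
      have h3 : ((N' : ℝ) - M) * N ≤ ((N : ℝ) - M) * N' := by nlinarith [(Nat.cast_nonneg M : (0 : ℝ) ≤ M)]
      have h4 : ((N'.choose (M + 1) : ℝ) * (N : ℝ) ^ (M + 1)) * (M + 1)
          ≤ (N.choose (M + 1) * (N' : ℝ) ^ (M + 1)) * (M + 1) := by
        calc ((N'.choose (M + 1) : ℝ) * (N : ℝ) ^ (M + 1)) * (M + 1)
            = ((N'.choose (M + 1) : ℝ) * (M + 1)) * ((N : ℝ) ^ M * N) := by rw [pow_succ]; ring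
          _ = (N'.choose M * (N : ℝ) ^ M) * (((N' : ℝ) - M) * N) := by rw [h1']; ring
          _ ≤ (N.choose M * (N' : ℝ) ^ M) * (((N : ℝ) - M) * N') := by
              apply mul_le_mul ih h3
              · apply mul_nonneg (by linarith) (by positivity)
              · positivity
          _ = (N.choose M * ((N : ℝ) - M)) * ((N' : ℝ) ^ M * N') := by ring
          _ = _ := by rw [← h2', pow_succ]; ring
      exact le_of_mul_le_mul_right h4 (by positivity)

/-- first moment ratio -/
theorem choose_first (k n M : ℕ) (hC : 0 < n.choose k) :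
    (((2 ^ k - 1) * n.choose k).choose M : ℝ)
      ≤ Real.exp (-(M / 2 ^ k)) * ((2 ^ k * n.choose k).choose M : ℝ) := by
  have h := choose_ratio_le ((2 ^ k - 1) * n.choose k) (2 ^ k * n.choose k) M
    (Nat.mul_le_mul_right _ (Nat.sub_le _ _))
  have h2k : (0 : ℝ) < 2 ^ k := by positivity
  have hC' : (0 : ℝ) < n.choose k := by exact_mod_cast hC
  have hN : (0 : ℝ) < 2 ^ k * n.choose k := by positivity
  have e1 : (((2 ^ k - 1) * n.choose k : ℕ) : ℝ) = (2 ^ k * n.choose k : ℝ) * (1 - 1 / 2 ^ k) := by
    have : 1 ≤ 2 ^ k := Nat.one_le_two_pow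
    push_cast [Nat.cast_sub this]
    field_simp
  have e2 : ((2 ^ k * n.choose k : ℕ) : ℝ) = 2 ^ k * n.choose k := by push_cast; ring
  rw [e1, e2] at h
  have h3 : (((2 ^ k - 1) * n.choose k).choose M : ℝ)
      ≤ ((2 ^ k * n.choose k).choose M : ℝ) * (1 - 1 / 2 ^ k) ^ M := by
    have hp : (0 : ℝ) < (2 ^ k * (n.choose k : ℝ)) ^ M := by positivity
    have : (((2 ^ k - 1) * n.choose k).choose M : ℝ) * (2 ^ k * (n.choose k : ℝ)) ^ M
      ≤ (((2 ^ k * n.choose k).choose M : ℝ) * (1 - 1 / 2 ^ k) ^ M) *
        (2 ^ k * (n.choose k : ℝ)) ^ M := by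
      refine h.trans (le_of_eq ?_)
      rw [mul_pow (2 ^ k * (n.choose k : ℝ)) (1 - 1 / 2 ^ k)]
      ring
    exact le_of_mul_le_mul_right this hp
  refine h3.trans ?_
  rw [mul_comm]
  apply mul_le_mul_of_nonneg_right _ (by positivity)
  have h4 : (0 : ℝ) ≤ 1 - 1 / 2 ^ k := by
    rw [sub_nonneg, div_le_one h2k]
    exact one_le_pow₀ (by norm_num)
  calc (1 - 1 / 2 ^ k : ℝ) ^ M ≤ (Real.exp (-(1 / 2 ^ k))) ^ M := by
        gcongr
        have := Real.add_one_le_exp (-(1 / 2 ^ k : ℝ))
        linarith
    _ = Real.exp (-(M / 2 ^ k)) := by rw [← Real.exp_nat_mul]; congr 1; ring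

open Classical in
theorem sum_sat (n k M : ℕ) :
    ∑ F ∈ formulas n k M, (univ.filter (fun A : Fin n → Bool => SatF A F)).card
      = 2 ^ n * ((2 ^ k - 1) * n.choose k).choose M := by
  have h := sum_swap n k M (fun _ _ => True)
  simp only [and_true, filter_true] at h
  rw [h]
  rw [sum_congr rfl (fun A _ => by rw [card_powersetCard, card_satClauses])]
  rw [sum_const, card_univ, Fintype.card_fun, Fintype.card_bool, Fintype.card_fin, smul_eq_mul]

theorem two_pow_eq (n : ℕ) : (2 : ℝ) ^ n = Real.exp (Real.log 2 * n) := by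
  rw [mul_comm, Real.exp_nat_mul, Real.exp_log (by norm_num)]

open Classical in
theorem X_le {n : ℕ} (i : ℕ) (F : Finset (Cl n)) :
    X i F ≤ (univ.filter (fun A : Fin n → Bool => SatF A F)).card := by
  rw [X_eq]
  apply card_le_card
  intro A hA
  rw [mem_filter] at hA ⊢
  exact ⟨hA.1, hA.2.1⟩

theorem expX_le (k i n M : ℕ) (hC : 0 < n.choose k) :
    expX k i n M ≤ Real.exp (Real.log 2 * n - M / 2 ^ k) := by
  classical
  unfold expX
  rw [card_formulas]
  apply div_le_of_le_mul₀ (by positivity) (Real.exp_pos _).le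
  have h1 : (∑ F ∈ formulas n k M, (X i F : ℝ))
      ≤ ((2 ^ n * ((2 ^ k - 1) * n.choose k).choose M : ℕ) : ℝ) := by
    rw [← sum_sat]
    push_cast
    apply sum_le_sum
    intro F _
    have := X_le i F
    exact_mod_cast this
  refine h1.trans ?_
  push_cast
  rw [sub_eq_add_neg, Real.exp_add, two_pow_eq, mul_assoc]
  have := choose_first k n M hC
  gcongr

theorem probSat_le (k n M : ℕ) (hC : 0 < n.choose k) :
    probSat k n M ≤ Real.exp (Real.log 2 * n - M / 2 ^ k) := by
  classical
  rw [probSat_eq]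
  apply div_le_of_le_mul₀ (by positivity) (Real.exp_pos _).le
  have h1 : (((formulas n k M).filter (fun F => Satisfiable F)).card : ℝ)
      ≤ ((2 ^ n * ((2 ^ k - 1) * n.choose k).choose M : ℕ) : ℝ) := by
    rw [← sum_sat, card_filter]
    push_cast
    apply sum_le_sum
    intro F _
    split_ifs with h
    · obtain ⟨A, hA⟩ := h
      have : 0 < (univ.filter (fun A : Fin n → Bool => SatF A F)).card :=
        card_pos.2 ⟨A, by rw [mem_filter]; exact ⟨mem_univ _, hA⟩⟩
      exact_mod_cast this
    · positivity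
  refine h1.trans ?_
  push_cast
  rw [sub_eq_add_neg, Real.exp_add, two_pow_eq, mul_assoc]
  have := choose_first k n M hC
  gcongr

theorem IMax_anti {n : ℕ} {i j : ℕ} (hij : i ≤ j) {F : Finset (Cl n)} {A : Fin n → Bool}
    (h : IMax j F A) : IMax i F A :=
  ⟨h.1, fun B hB hc => h.2 B hB (hc.trans hij)⟩

theorem X_anti {n : ℕ} {i j : ℕ} (hij : i ≤ j) (F : Finset (Cl n)) : X j F ≤ X i F := by
  classical
  rw [X_eq, X_eq]
  apply card_le_card
  intro A hA
  rw [mem_filter] at hA ⊢
  exact ⟨hA.1, IMax_anti hij hA.2⟩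

theorem expX_anti (k n M : ℕ) {i j : ℕ} (hij : i ≤ j) : expX k j n M ≤ expX k i n M := by
  unfold expX
  apply div_le_div_of_nonneg_right _ (by positivity)
  apply sum_le_sum
  intro F _
  exact_mod_cast X_anti hij F

end Pool.Agent.H986R2.KSat
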