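import Pool.Agent.H986R2.KSat.Count

open Finset

namespace Pool.Agent.H986R2.KSat

/-- A small dense structure: `s ≤ i` distinct variables and as many distinct clauses, the `j`-th
clause containing the `j`-th variable and another one of these variables. -/
def IsObs {n : ℕ} (i : ℕ) (T : Finset (Cl n)) : Prop :=
  ∃ s : ℕ, 1 ≤ s ∧ s ≤ i ∧ ∃ x : Fin s → Fin n, ∃ c : Fin s → Cl n,
    Function.Injective x ∧ Function.Injective c ∧ T = univ.image c ∧
    ∀ j, x j ∈ (c j).1 ∧ ∃ j', j' ≠ j ∧ x j' ∈ (c j).1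

/-- number of clauses supporting `x` whose other variables avoid `Z`. -/
def supp {n : ℕ} (F : Finset (Cl n)) (A : Fin n → Bool) (x : Fin n) (Z : Finset (Fin n)) : ℕ :=
  (F.filter (fun c => tl A c = {x} ∧ Disjoint (c.1.erase x) Z)).card

def B1 {n : ℕ} (F : Finset (Cl n)) (A : Fin n → Bool) (z h : ℕ) : Prop :=
  ∃ H Z : Finset (Fin n), H ⊆ Z ∧ Z.card = z ∧ H.card ≤ h ∧ ∀ x ∈ Z \ H, supp F A x Z ≤ 1

def B2 {n : ℕ} (F : Finset (Cl n)) (i t0 : ℕ) : Prop :=
  ∃ D : Finset (Finset (Cl n)), D.card = t0 ∧ (∀ T ∈ D, IsObs i T ∧ T ⊆ F) ∧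
    (D : Set (Finset (Cl n))).PairwiseDisjoint id

theorem IsObs.nonempty {n i : ℕ} {T : Finset (Cl n)} (h : IsObs i T) : T.Nonempty := by
  obtain ⟨s, hs, _, x, c, _, _, rfl, _⟩ := h
  exact ⟨c ⟨0, hs⟩, mem_image_of_mem _ (mem_univ _)⟩

theorem IsObs.card_le {n i : ℕ} {T : Finset (Cl n)} (h : IsObs i T) : T.card ≤ i := by
  obtain ⟨s, _, hs, x, c, _, _, rfl, _⟩ := h
  refine le_trans card_image_le ?_
  simpa using hs

theorem exists_H {n k i t0 : ℕ} {F : Finset (Cl n)} (hF : ∀ c ∈ F, c.1.card = k)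
    (h2 : ¬ B2 F i t0) :
    ∃ H : Finset (Fin n), H.card ≤ t0 * (i * k) ∧
      ∀ T, IsObs i T → T ⊆ F → ∃ c ∈ T, c.1 ⊆ H := by
  classical
  let fam : Finset (Finset (Finset (Cl n))) :=
    ((F.powerset.filter (fun T => IsObs i T)).powerset).filter
      (fun D => (D : Set (Finset (Cl n))).PairwiseDisjoint id)
  have hne : fam.Nonempty := ⟨∅, by simp [fam]⟩
  obtain ⟨D, hD, hmax⟩ := exists_max_image fam (fun D => D.card) hne
  have hD' : (∀ T ∈ D, IsObs i T ∧ T ⊆ F) ∧ (D : Set (Finset (Cl n))).PairwiseDisjoint id := by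
    simp only [fam, mem_filter, mem_powerset] at hD
    refine ⟨fun T hT => ?_, hD.2⟩
    have := hD.1 hT
    simp only [mem_filter, mem_powerset] at this
    exact ⟨this.2, this.1⟩
  have hcard : D.card < t0 := by
    by_contra hcon
    push Not at hcon
    obtain ⟨D', hD'sub, hD'card⟩ := exists_subset_card_eq hcon
    apply h2
    exact ⟨D', hD'card, fun T hT => hD'.1 T (hD'sub hT),
      hD'.2.subset (by exact_mod_cast hD'sub)⟩
  refine ⟨D.biUnion (fun T => T.biUnion (fun c => c.1)), ?_, ?_⟩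
  · refine le_trans card_biUnion_le ?_
    have : ∀ T ∈ D, (T.biUnion (fun c => c.1)).card ≤ i * k := by
      intro T hT
      refine le_trans card_biUnion_le ?_
      calc ∑ c ∈ T, c.1.card = ∑ c ∈ T, k := sum_congr rfl (fun c hc => hF c ((hD'.1 T hT).2 hc))
        _ = T.card * k := by simp
        _ ≤ i * k := Nat.mul_le_mul_right _ (hD'.1 T hT).1.card_le
    refine le_trans (sum_le_sum this) ?_
    simp only [sum_const, smul_eq_mul]
    exact Nat.mul_le_mul_right _ hcard.le
  · intro T hT hTF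
    by_contra hcon
    push Not at hcon
    have hdis : ∀ T' ∈ D, Disjoint T T' := by
      intro T' hT'
      rw [Finset.disjoint_left]
      intro c hc hc'
      apply hcon c hc
      intro v hv
      exact mem_biUnion.2 ⟨T', hT', mem_biUnion.2 ⟨c, hc', hv⟩⟩
    have hTD : T ∉ D := by
      intro hTD
      have := hdis T hTD
      rw [disjoint_self] at this
      exact hT.nonempty.ne_empty this
    have hins : insert T D ∈ fam := by
      simp only [fam, mem_filter, mem_powerset]
      refine ⟨?_, ?_⟩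
      · intro T' hT'
        simp only [mem_filter, mem_powerset]
        rcases mem_insert.1 hT' with rfl | h
        · exact ⟨hTF, hT⟩
        · exact ⟨(hD'.1 T' h).2, (hD'.1 T' h).1⟩
      · rw [coe_insert]
        apply hD'.2.insert
        intro T' hT' _
        exact hdis T' hT'
    have := hmax _ hins
    rw [card_insert_of_notMem hTD] at this
    omega

theorem supp_insert {n : ℕ} (F : Finset (Cl n)) (A : Fin n → Bool) (x : Fin n)
    (Z : Finset (Fin n)) : supp F A x (insert x Z) = supp F A x Z := by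
  unfold supp
  congr 1
  apply filter_congr
  intro c _
  apply and_congr_right
  intro _
  rw [Finset.disjoint_left, Finset.disjoint_left]
  constructor
  · intro h v hv hvZ
    exact h hv (mem_insert_of_mem hvZ)
  · intro h v hv hvZ
    rcases mem_insert.1 hvZ with rfl | h'
    · exact (mem_erase.1 hv).1 rfl
    · exact h hv h'

theorem supp_mono {n : ℕ} (F : Finset (Cl n)) (A : Fin n → Bool) (x : Fin n)
    {Z Z' : Finset (Fin n)} (h : Z ⊆ Z') : supp F A x Z' ≤ supp F A x Z := by
  unfold supp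
  apply card_le_card
  intro c hc
  simp only [mem_filter] at hc ⊢
  exact ⟨hc.1, hc.2.1, disjoint_of_subset_right h hc.2.2⟩

theorem exists_W {n z h : ℕ} {F : Finset (Cl n)} {A : Fin n → Bool} (H : Finset (Fin n))
    (hH : H.card ≤ h) (hhz : h ≤ z) (h1 : ¬ B1 F A z h) :
    ∃ W : Finset (Fin n), H ⊆ W ∧ W.card < z ∧ ∀ x, x ∉ W → 2 ≤ supp F A x W := by
  classical
  let fam : Finset (Finset (Fin n)) :=
    univ.filter (fun Z => H ⊆ Z ∧ Z.card ≤ z ∧ ∀ x ∈ Z \ H, supp F A x Z ≤ 1)
  have hne : fam.Nonempty := ⟨H, by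
    simp only [fam, mem_filter, mem_univ, true_and, sdiff_self, subset_refl]
    exact ⟨by omega, fun x hx => absurd hx (notMem_empty x)⟩⟩
  obtain ⟨Z, hZ, hmax⟩ := exists_max_image fam (fun D => D.card) hne
  simp only [fam, mem_filter, mem_univ, true_and] at hZ
  have hlt : Z.card < z := by
    rcases lt_or_eq_of_le hZ.2.1 with h | h
    · exact h
    · exact absurd ⟨H, Z, hZ.1, h, hH, hZ.2.2⟩ h1
  refine ⟨Z, hZ.1, hlt, ?_⟩
  intro x hx
  by_contra hcon
  have hins : insert x Z ∈ fam := by
    simp only [fam, mem_filter, mem_univ, true_and]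
    refine ⟨hZ.1.trans (subset_insert _ _), ?_, ?_⟩
    · rw [card_insert_of_notMem hx]; omega
    · intro y hy
      rw [mem_sdiff, mem_insert] at hy
      rcases hy with ⟨rfl | hy, hyH⟩
      · rw [supp_insert]; omega
      · exact le_trans (supp_mono F A y (subset_insert _ _)) (hZ.2.2 y (mem_sdiff.2 ⟨hy, hyH⟩))
  have := hmax _ hins
  rw [card_insert_of_notMem hx] at this
  omega

/-- If `tl A c = {x}`, and `B` satisfies `c` but differs from `A` at `x`, then `B` differs from `A`
at another variable of `c`. -/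
theorem other_var {n : ℕ} {A B : Fin n → Bool} {c : Cl n} {x : Fin n} (hc : tl A c = {x})
    (hB : Sat B c) (hx : B x ≠ A x) : ∃ y ∈ c.1, y ≠ x ∧ B y ≠ A y := by
  obtain ⟨v, hv, hv2⟩ := hB
  have hxc : x ∈ tl A c := by rw [hc]; simp
  rw [mem_tl] at hxc
  refine ⟨v, hv, ?_, ?_⟩
  · rintro rfl
    apply hx
    by_cases h : v ∈ c.2
    · rw [hv2.2 h, hxc.2.2 h]
    · have h1 : B v = false := by
        by_contra h'; exact h (hv2.1 (by simpa using h'))
      have h2 : A v = false := by
        by_contra h'; exact h (hxc.2.1 (by simpa using h'))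
      rw [h1, h2]
  · intro h
    have : v ∈ tl A c := by
      rw [mem_tl]; exact ⟨hv, by rw [← h]; exact hv2⟩
    rw [hc, mem_singleton] at this
    subst this
    exact hx h

/-- A clause satisfied by `A` and violated by `B`: all its true literals are flipped. -/
theorem tl_subset_diff {n : ℕ} {A B : Fin n → Bool} {c : Cl n}
    (hB : ¬ Sat B c) : ∀ v ∈ tl A c, B v ≠ A v := by
  intro v hv h
  apply hB
  rw [mem_tl] at hv
  exact ⟨v, hv.1, by rw [h]; exact hv.2⟩

/-- The set where `B` and `A` differ lies in `W`. -/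
theorem diff_subset {n i : ℕ} {F F' : Finset (Cl n)} {A B : Fin n → Bool} {W : Finset (Fin n)}
    (hFF : F ⊆ F')
    (hit : ∀ T, IsObs i T → T ⊆ F' → ∃ c ∈ T, c.1 ⊆ W)
    (hsup : ∀ x, x ∉ W → ∃ c ∈ F, tl A c = {x} ∧ Disjoint c.1 W)
    (hB : SatF B F) (hcard : (univ.filter (fun v => B v ≠ A v)).card ≤ i) :
    ∀ v, B v ≠ A v → v ∈ W := by
  classical
  by_contra hcon
  push Not at hcon
  obtain ⟨v0, hv0, hv0W⟩ := hcon
  set S : Finset (Fin n) := univ.filter (fun v => B v ≠ A v ∧ v ∉ W) with hS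
  have hSne : S.Nonempty := ⟨v0, by simp [hS, hv0, hv0W]⟩
  have hScard : S.card ≤ i := by
    refine le_trans (card_le_card ?_) hcard
    intro v hv
    simp only [hS, mem_filter, mem_univ, true_and] at hv ⊢
    exact hv.1
  have hch : ∀ x : Fin n, ∃ c : Cl n, x ∈ S → (c ∈ F ∧ tl A c = {x} ∧ Disjoint c.1 W) := by
    intro x
    by_cases hx : x ∈ S
    · have : x ∉ W := by
        simp only [hS, mem_filter, mem_univ, true_and] at hx; exact hx.2
      obtain ⟨c, hc⟩ := hsup x this
      exact ⟨c, fun _ => ⟨hc.1, hc.2.1, hc.2.2⟩⟩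
    · exact ⟨(∅, ∅), fun h => absurd h hx⟩
  choose f hf using hch
  let e := S.equivFin.symm
  have hobs : IsObs i ((univ : Finset (Fin S.card)).image (fun j => f (e j))) := by
    refine ⟨S.card, hSne.card_pos, hScard, fun j => (e j : Fin n), fun j => f (e j), ?_, ?_, rfl, ?_⟩
    · intro a b hab
      exact e.injective (Subtype.ext hab)
    · intro a b hab
      simp only at hab
      have ha := (hf (e a) (e a).2).2.1
      have hb := (hf (e b) (e b).2).2.1
      rw [hab, hb] at ha
      have : ((e b : Fin n)) = e a := by simpa using ha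
      exact e.injective (Subtype.ext this.symm)
    · intro j
      obtain ⟨h1, h2, h3⟩ := hf (e j) (e j).2
      have hxc : (e j : Fin n) ∈ (f (e j)).1 := by
        apply tl_subset A
        rw [h2]; simp
      refine ⟨hxc, ?_⟩
      have hxS : B (e j) ≠ A (e j) := by
        have := (e j).2
        simp only [hS, mem_filter, mem_univ, true_and] at this
        exact this.1
      obtain ⟨y, hy1, hy2, hy3⟩ := other_var h2 (hB _ h1) hxS
      have hyW : y ∉ W := fun hyW => (Finset.disjoint_left.1 h3) hy1 hyW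
      have hyS : y ∈ S := by simp [hS, hy3, hyW]
      refine ⟨e.symm ⟨y, hyS⟩, ?_, ?_⟩
      · intro h
        apply hy2
        have := congrArg e h
        rw [Equiv.apply_symm_apply] at this
        exact congrArg Subtype.val this
      · show ((e (e.symm ⟨y, hyS⟩) : Fin n)) ∈ (f (e j)).1
        rw [Equiv.apply_symm_apply]; exact hy1
  obtain ⟨c, hc, hcW⟩ := hit _ hobs (by
    intro c hc
    simp only [mem_image, mem_univ, true_and] at hc
    obtain ⟨j, rfl⟩ := hc
    exact hFF (hf (e j) (e j).2).1)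
  simp only [mem_image, mem_univ, true_and] at hc
  obtain ⟨j, rfl⟩ := hc
  obtain ⟨h1, h2, h3⟩ := hf (e j) (e j).2
  have hxc : (e j : Fin n) ∈ (f (e j)).1 := by
    apply tl_subset A
    rw [h2]; simp
  exact (Finset.disjoint_left.1 h3) hxc (hcW hxc)

end Pool.Agent.H986R2.KSat
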