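import Mathlib

open Finset

namespace Pool.Agent.H986R2.KSat

/-- Elementary symmetric functions are at most those of sampling with repetition. -/
theorem esymm_le {α : Type*} [DecidableEq α] (Ω : Finset α) (a : α → ℝ)
    (ha : ∀ x ∈ Ω, 0 ≤ a x) (M : ℕ) :
    ∑ F ∈ Ω.powersetCard M, ∏ c ∈ F, a c ≤ (∑ c ∈ Ω, a c) ^ M / M.factorial := by
  induction Ω using Finset.induction_on generalizing M with
  | empty =>
    cases M with
    | zero => simp
    | succ M =>
      rw [Finset.powersetCard_eq_empty.2 (by simp)]
      simp
  | insert x s hx ih =>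
    have hs : ∀ y ∈ s, 0 ≤ a y := fun y hy => ha y (mem_insert_of_mem hy)
    have hax : 0 ≤ a x := ha x (mem_insert_self x s)
    have hS : 0 ≤ ∑ c ∈ s, a c := sum_nonneg hs
    cases M with
    | zero => simp
    | succ M =>
      rw [powersetCard_succ_insert hx, sum_union]
      · rw [sum_image]
        · have h1 : ∑ F ∈ powersetCard M s, ∏ c ∈ insert x F, a c
              = a x * ∑ F ∈ powersetCard M s, ∏ c ∈ F, a c := by
            rw [mul_sum]
            apply sum_congr rfl
            intro F hF
            rw [prod_insert]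
            intro hxF
            exact hx ((mem_powersetCard.1 hF).1 hxF)
          rw [h1, sum_insert hx]
          have e1 := ih hs (M + 1)
          have e2 := ih hs M
          set S := ∑ c ∈ s, a c with hSdef
          have hf : (0 : ℝ) < ((M + 1).factorial : ℝ) := by positivity
          have hbin : S ^ (M + 1) + (M + 1) * a x * S ^ M ≤ (a x + S) ^ (M + 1) := by
            have key : ∀ m : ℕ, S ^ (m + 1) + (m + 1) * a x * S ^ m ≤ (a x + S) ^ (m + 1) := by
              intro m
              induction m with
              | zero => simp; linarith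
              | succ m ihm =>
                have hp : (a x + S) ^ (m + 1 + 1) = (a x + S) * (a x + S) ^ (m + 1) := by ring
                rw [hp]
                have h3 : (a x + S) * (S ^ (m + 1) + (m + 1) * a x * S ^ m)
                    ≤ (a x + S) * (a x + S) ^ (m + 1) :=
                  mul_le_mul_of_nonneg_left ihm (by linarith)
                refine le_trans ?_ h3
                have h4 : 0 ≤ (m + 1 : ℝ) * a x * a x * S ^ m := by positivity
                push_cast
                ring_nf
                ring_nf at h4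
                nlinarith [h4]
            simpa using key M
          calc _ ≤ S ^ (M + 1) / (M + 1).factorial + a x * (S ^ M / M.factorial) := by
                gcongr
            _ = (S ^ (M + 1) + (M + 1) * a x * S ^ M) / (M + 1).factorial := by
                rw [Nat.factorial_succ]; push_cast
                field_simp
            _ ≤ _ := by gcongr
        · intro F hF G hG h
          have hF' : x ∉ F := fun hxF => hx ((mem_powersetCard.1 hF).1 hxF)
          have hG' : x ∉ G := fun hxF => hx ((mem_powersetCard.1 hG).1 hxF)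
          have := congrArg (fun T => T.erase x) h
          simpa [erase_insert hF', erase_insert hG'] using this
      · rw [disjoint_left]
        intro F hF hF2
        obtain ⟨G, hG, rfl⟩ := mem_image.1 hF2
        exact hx ((mem_powersetCard.1 hF).1 (mem_insert_self x G))

/-- `choose` is almost `N^M / M!` when `M^2` is small. -/
theorem choose_lower (N M : ℕ) (h : 2 * M ^ 2 ≤ N) :
    (N : ℝ) ^ M / (2 * M.factorial) ≤ (N.choose M : ℝ) := by
  rcases Nat.eq_zero_or_pos M with rfl | hM
  · simp; norm_num
  have hNpos : 0 < N := by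
    have : 0 < 2 * M ^ 2 := by positivity
    omega
  have hMN : M ≤ N := by nlinarith
  have h1 := Nat.pow_le_choose (α := ℝ) M N
  refine le_trans ?_ h1
  have hcast : ((N + 1 - M : ℕ) : ℝ) = (N : ℝ) + 1 - M := by
    rw [Nat.cast_sub (by omega)]; push_cast; ring
  rw [hcast]
  have hN : (0 : ℝ) < N := by exact_mod_cast hNpos
  have hb : (N : ℝ) ^ M / 2 ≤ ((N : ℝ) + 1 - M) ^ M := by
    have h2 : (N : ℝ) * (1 + (-(M : ℝ) / N)) ≤ (N : ℝ) + 1 - M := by
      field_simp; linarith
    have hMr : (M : ℝ) ≤ N := by exact_mod_cast hMN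
    have h3 : (0 : ℝ) ≤ 1 + (-(M : ℝ) / N) := by
      rw [neg_div, ← sub_eq_add_neg, sub_nonneg, div_le_one hN]; exact hMr
    have h4 : (1 : ℝ) / 2 ≤ (1 + (-(M : ℝ) / N)) ^ M := by
      have hber := one_add_mul_le_pow (a := (-(M : ℝ) / N)) (by
        have : (M : ℝ) / N ≤ 1 := by rw [div_le_one hN]; exact hMr
        rw [neg_div]; linarith) M
      refine le_trans ?_ hber
      have hh : (2 : ℝ) * (M : ℝ) ^ 2 ≤ N := by exact_mod_cast h
      have : (M : ℝ) * (-(M : ℝ) / N) = -((M : ℝ) ^ 2 / N) := by ring
      rw [this]
      have : (M : ℝ) ^ 2 / N ≤ 1 / 2 := by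
        rw [div_le_div_iff₀ hN (by norm_num)]; linarith
      linarith
    calc (N : ℝ) ^ M / 2 = (N : ℝ) ^ M * (1 / 2) := by ring
      _ ≤ (N : ℝ) ^ M * (1 + (-(M : ℝ) / N)) ^ M := by gcongr
      _ = ((N : ℝ) * (1 + (-(M : ℝ) / N))) ^ M := by rw [mul_pow]
      _ ≤ _ := by
        apply pow_le_pow_left₀ _ h2
        positivity
  rw [div_le_div_iff₀ (by positivity) (by positivity)]
  calc (N : ℝ) ^ M * M.factorial = ((N : ℝ) ^ M / 2) * (2 * M.factorial) := by ring
    _ ≤ _ := by gcongr

/-- weighted count. -/
theorem weight_sum_le {α : Type*} [DecidableEq α] (Ω : Finset α) (p : α → Prop) [DecidablePred p]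
    (M : ℕ) (t : ℝ) (ht : 0 ≤ t) :
    ∑ F ∈ Ω.powersetCard M, t ^ (F.filter p).card
      ≤ ((Ω.card : ℝ) + (t - 1) * (Ω.filter p).card) ^ M / M.factorial := by
  have h := esymm_le Ω (fun c => if p c then t else 1)
    (fun x _ => by split_ifs <;> linarith) M
  have e1 : ∀ F : Finset α, ∏ c ∈ F, (if p c then t else (1 : ℝ)) = t ^ (F.filter p).card := by
    intro F
    rw [prod_ite]; simp
  have e2 : ∑ c ∈ Ω, (if p c then t else (1 : ℝ)) = (Ω.card : ℝ) + (t - 1) * (Ω.filter p).card := by
    rw [sum_ite]
    simp only [sum_const, nsmul_eq_mul, mul_one]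
    have : ((Ω.filter p).card : ℝ) + (Ω.filter (fun x => ¬ p x)).card = Ω.card := by
      exact_mod_cast card_filter_add_card_filter_not (s := Ω) p
    linarith
  simp only [e1, e2] at h
  exact h

/-- Exponential bound for the sum. -/
theorem weight_sum_le_exp {α : Type*} [DecidableEq α] (Ω : Finset α) (p : α → Prop)
    [DecidablePred p] (M : ℕ) (t : ℝ) (ht : 0 ≤ t) (hM : 2 * M ^ 2 ≤ Ω.card) (hpos : 0 < Ω.card) :
    ∑ F ∈ Ω.powersetCard M, t ^ (F.filter p).card
      ≤ 2 * (Ω.card.choose M : ℝ) *
        Real.exp ((t - 1) * (M * ((Ω.filter p).card / Ω.card : ℝ))) := by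
  have h1 := weight_sum_le Ω p M t ht
  have h2 := choose_lower Ω.card M hM
  have hN : (0 : ℝ) < Ω.card := by exact_mod_cast hpos
  have hu : ((Ω.filter p).card : ℝ) ≤ Ω.card := by
    exact_mod_cast card_filter_le Ω p
  have h3 : ((Ω.card : ℝ) + (t - 1) * (Ω.filter p).card) ^ M
      ≤ (Ω.card : ℝ) ^ M * Real.exp ((t - 1) * (M * ((Ω.filter p).card / Ω.card : ℝ))) := by
    have e : ((Ω.card : ℝ) + (t - 1) * (Ω.filter p).card)
        = Ω.card * (1 + (t - 1) * ((Ω.filter p).card / Ω.card)) := by
      field_simp
    have e0 : (0 : ℝ) ≤ 1 + (t - 1) * ((Ω.filter p).card / Ω.card) := by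
      have h5 : ((Ω.filter p).card / Ω.card : ℝ) ≤ 1 := by rw [div_le_one hN]; exact hu
      have h6 : (0 : ℝ) ≤ ((Ω.filter p).card / Ω.card : ℝ) := by positivity
      nlinarith
    rw [e, mul_pow]
    have h4 : (1 + (t - 1) * ((Ω.filter p).card / Ω.card)) ^ M
        ≤ Real.exp ((t - 1) * (M * ((Ω.filter p).card / Ω.card : ℝ))) := by
      have h7 : 1 + (t - 1) * ((Ω.filter p).card / Ω.card : ℝ)
          ≤ Real.exp ((t - 1) * ((Ω.filter p).card / Ω.card : ℝ)) := by
        have := Real.add_one_le_exp ((t - 1) * ((Ω.filter p).card / Ω.card : ℝ))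
        linarith
      calc _ ≤ (Real.exp ((t - 1) * ((Ω.filter p).card / Ω.card : ℝ))) ^ M := by gcongr
        _ = _ := by rw [← Real.exp_nat_mul]; ring_nf
    gcongr
  calc _ ≤ _ := h1
    _ ≤ ((Ω.card : ℝ) ^ M * Real.exp ((t - 1) * (M * ((Ω.filter p).card / Ω.card : ℝ))))
        / M.factorial := by gcongr
    _ = (2 * ((Ω.card : ℝ) ^ M / (2 * M.factorial))) *
        Real.exp ((t - 1) * (M * ((Ω.filter p).card / Ω.card : ℝ))) := by
        field_simp
    _ ≤ _ := by gcongr

/-- Upper tail. -/
theorem upper_tail {α : Type*} [DecidableEq α] (Ω : Finset α) (p : α → Prop)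
    [DecidablePred p] (M : ℕ) (y : ℕ) (t : ℝ) (ht : 1 ≤ t) (hM : 2 * M ^ 2 ≤ Ω.card)
    (hpos : 0 < Ω.card) :
    (((Ω.powersetCard M).filter (fun F => y ≤ (F.filter p).card)).card : ℝ)
      ≤ 2 * (Ω.card.choose M : ℝ) *
        Real.exp ((t - 1) * (M * ((Ω.filter p).card / Ω.card : ℝ))) / t ^ y := by
  have h := weight_sum_le_exp Ω p M t (by linarith) hM hpos
  rw [le_div_iff₀ (by positivity)]
  refine le_trans ?_ h
  calc (((Ω.powersetCard M).filter (fun F => y ≤ (F.filter p).card)).card : ℝ) * t ^ y
      = ∑ F ∈ (Ω.powersetCard M).filter (fun F => y ≤ (F.filter p).card), t ^ y := by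
        simp
    _ ≤ ∑ F ∈ (Ω.powersetCard M).filter (fun F => y ≤ (F.filter p).card),
          t ^ (F.filter p).card := by
        apply sum_le_sum
        intro F hF
        exact pow_le_pow_right₀ ht (mem_filter.1 hF).2
    _ ≤ _ := by
        apply sum_le_sum_of_subset_of_nonneg (filter_subset _ _)
        intro F _ _
        positivity

/-- Lower tail. -/
theorem lower_tail {α : Type*} [DecidableEq α] (Ω : Finset α) (p : α → Prop)
    [DecidablePred p] (M : ℕ) (y : ℕ) (t : ℝ) (ht0 : 0 < t) (ht : t ≤ 1)
    (hM : 2 * M ^ 2 ≤ Ω.card) (hpos : 0 < Ω.card) :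
    (((Ω.powersetCard M).filter (fun F => (F.filter p).card ≤ y)).card : ℝ)
      ≤ 2 * (Ω.card.choose M : ℝ) *
        Real.exp ((t - 1) * (M * ((Ω.filter p).card / Ω.card : ℝ))) / t ^ y := by
  have h := weight_sum_le_exp Ω p M t (by linarith) hM hpos
  rw [le_div_iff₀ (by positivity)]
  refine le_trans ?_ h
  calc (((Ω.powersetCard M).filter (fun F => (F.filter p).card ≤ y)).card : ℝ) * t ^ y
      = ∑ F ∈ (Ω.powersetCard M).filter (fun F => (F.filter p).card ≤ y), t ^ y := by
        simp
    _ ≤ ∑ F ∈ (Ω.powersetCard M).filter (fun F => (F.filter p).card ≤ y),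
          t ^ (F.filter p).card := by
        apply sum_le_sum
        intro F hF
        exact pow_le_pow_of_le_one ht0.le ht (mem_filter.1 hF).2
    _ ≤ _ := by
        apply sum_le_sum_of_subset_of_nonneg (filter_subset _ _)
        intro F _ _
        positivity

/-- Number of small subsets. -/
theorem ball_le (n z : ℕ) (r : ℝ) (hr0 : 0 < r) (hr1 : r ≤ 1) :
    ∑ j ∈ range (z + 1), (n.choose j : ℝ) ≤ (1 + r) ^ n / r ^ z := by
  rw [le_div_iff₀ (by positivity), sum_mul]
  have h1 : (1 + r) ^ n = ∑ j ∈ range (n + 1), (n.choose j : ℝ) * r ^ j := by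
    rw [add_comm, add_pow]
    apply sum_congr rfl
    intro j _; simp; ring
  rw [h1]
  have h2 : ∑ j ∈ range (z + 1), (n.choose j : ℝ) * r ^ z
      ≤ ∑ j ∈ range (z + 1), (n.choose j : ℝ) * r ^ j := by
    apply sum_le_sum
    intro j hj
    have hj' : j ≤ z := by simpa [Nat.lt_succ_iff] using hj
    have : r ^ z ≤ r ^ j := pow_le_pow_of_le_one hr0.le hr1 hj'
    gcongr
  refine le_trans h2 ?_
  rcases le_total z n with h | h
  · apply sum_le_sum_of_subset_of_nonneg
    · intro j hj
      simp only [mem_range] at *
      omega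
    · intros; positivity
  · have : ∑ j ∈ range (z + 1), (n.choose j : ℝ) * r ^ j
        = ∑ j ∈ range (n + 1), (n.choose j : ℝ) * r ^ j := by
      symm
      apply sum_subset
      · intro j hj
        simp only [mem_range] at *
        omega
      · intro j _ hj
        simp only [mem_range, not_lt] at hj
        rw [Nat.choose_eq_zero_of_lt (by omega)]; simp
    exact this.le

theorem choose_le_ball (n z : ℕ) (r : ℝ) (hr0 : 0 < r) (hr1 : r ≤ 1) :
    (n.choose z : ℝ) ≤ (1 + r) ^ n / r ^ z := by
  refine le_trans ?_ (ball_le n z r hr0 hr1)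
  apply single_le_sum (f := fun j => (n.choose j : ℝ)) (s := range (z + 1))
  · intros; positivity
  · simp

/-- Supersets of a given set. -/
theorem card_superset_le {α : Type*} [DecidableEq α] (Ω T : Finset α) (M : ℕ)
    (hpos : 0 < Ω.card) :
    (((Ω.powersetCard M).filter (fun F => T ⊆ F)).card : ℝ)
      ≤ (Ω.card.choose M : ℝ) * ((M : ℝ) / Ω.card) ^ T.card := by
  induction T using Finset.induction_on generalizing Ω M with
  | empty => simp
  | insert x T hx ih =>
    by_cases hxΩ : x ∈ Ω
    · cases M with
      | zero =>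
        have : (powersetCard 0 Ω).filter (fun F => insert x T ⊆ F) = ∅ := by
          ext F; simp only [powersetCard_zero, mem_filter, mem_singleton, notMem_empty, iff_false,
            not_and]
          rintro rfl h
          exact absurd (h (mem_insert_self x T)) (notMem_empty x)
        rw [this]; simp
      | succ M =>
        have hcard : (((Ω.powersetCard (M + 1)).filter (fun F => insert x T ⊆ F)).card)
            ≤ (((Ω.erase x).powersetCard M).filter (fun F => T ⊆ F)).card := by
          apply card_le_card_of_injOn (fun F => F.erase x)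
          · intro F hF
            simp only [coe_filter, mem_powersetCard, Set.mem_ofPred_eq] at hF ⊢
            obtain ⟨⟨h1, h2⟩, h3⟩ := hF
            have hxF : x ∈ F := h3 (mem_insert_self x T)
            refine ⟨⟨?_, ?_⟩, ?_⟩
            · exact erase_subset_erase x h1
            · rw [card_erase_of_mem hxF, h2]; rfl
            · intro y hy
              have hyx : y ≠ x := fun h => hx (h ▸ hy)
              exact mem_erase.2 ⟨hyx, h3 (mem_insert_of_mem hy)⟩
          · intro F hF G hG h
            simp only [coe_filter, mem_powersetCard, Set.mem_ofPred_eq] at hF hG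
            have hxF : x ∈ F := hF.2 (mem_insert_self x T)
            have hxG : x ∈ G := hG.2 (mem_insert_self x T)
            have h' : insert x (F.erase x) = insert x (G.erase x) := by
              simp only at h; rw [h]
            rwa [insert_erase hxF, insert_erase hxG] at h'
        have hec : (Ω.erase x).card = Ω.card - 1 := card_erase_of_mem hxΩ
        rw [card_insert_of_notMem hx]
        rcases Nat.eq_zero_or_pos (Ω.erase x).card with h0 | hpos'
        · have he : Ω.erase x = ∅ := card_eq_zero.1 h0
          have hΩ1 : Ω.card = 1 := by omega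
          rw [hΩ1]
          have : ((((Ω.erase x).powersetCard M).filter (fun F => T ⊆ F)).card : ℝ) ≤
              (Nat.choose 0 M : ℝ) := by
            have : (((Ω.erase x).powersetCard M).filter (fun F => T ⊆ F)).card
                ≤ ((Ω.erase x).powersetCard M).card := card_filter_le _ _
            rw [card_powersetCard, h0] at this
            exact_mod_cast this
          calc _ ≤ ((((Ω.erase x).powersetCard M).filter (fun F => T ⊆ F)).card : ℝ) := by
                exact_mod_cast hcard
            _ ≤ _ := this
            _ ≤ _ := by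
              cases M with
              | zero => simp
              | succ M =>
                rw [Nat.choose_eq_zero_of_lt (by omega)]
                simp only [Nat.cast_zero]
                positivity
        · have h := ih (Ω.erase x) M hpos'
          calc _ ≤ ((((Ω.erase x).powersetCard M).filter (fun F => T ⊆ F)).card : ℝ) := by
                exact_mod_cast hcard
            _ ≤ _ := h
            _ ≤ _ := ?_
          rw [hec]
          have hN : (0 : ℝ) < Ω.card := by exact_mod_cast hpos
          have hsub : ((Ω.card - 1 : ℕ) : ℝ) = Ω.card - 1 := by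
            rw [Nat.cast_sub (by omega)]; simp
          have hΩ1 : (1 : ℝ) < Ω.card := by
            have : 1 < Ω.card := by omega
            exact_mod_cast this
          have hch : ((Ω.card - 1).choose M : ℝ) = (Ω.card.choose (M + 1) : ℝ) *
              ((M + 1 : ℕ) / Ω.card : ℝ) := by
            have := Nat.add_one_mul_choose_eq (Ω.card - 1) M
            have h5 : Ω.card - 1 + 1 = Ω.card := by omega
            rw [h5] at this
            have h6 : (Ω.card : ℝ) * ((Ω.card - 1).choose M : ℝ)
                = (Ω.card.choose (M + 1) : ℝ) * (M + 1 : ℕ) := by exact_mod_cast this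
            field_simp
            linarith
          rw [hch]
          by_cases hMle : M ≤ Ω.card - 1
          · have h7 : (M : ℝ) / ((Ω.card - 1 : ℕ) : ℝ) ≤ ((M + 1 : ℕ) : ℝ) / Ω.card := by
              rw [hsub, div_le_div_iff₀ (by linarith) hN]
              have : (M : ℝ) ≤ Ω.card - 1 := by
                rw [← hsub]; exact_mod_cast hMle
              push_cast
              nlinarith
            have h8 : ((M : ℝ) / ((Ω.card - 1 : ℕ) : ℝ)) ^ T.card
                ≤ (((M + 1 : ℕ) : ℝ) / Ω.card) ^ T.card := by
              gcongr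
            calc _ ≤ (Ω.card.choose (M + 1) : ℝ) * ((M + 1 : ℕ) / Ω.card : ℝ) *
                  (((M + 1 : ℕ) : ℝ) / Ω.card) ^ T.card := by gcongr
              _ = _ := by rw [pow_succ]; ring
          · have : Ω.card.choose (M + 1) = 0 := Nat.choose_eq_zero_of_lt (by omega)
            rw [this]; simp
    · have : (powersetCard M Ω).filter (fun F => insert x T ⊆ F) = ∅ := by
        ext F
        simp only [mem_filter, mem_powersetCard, notMem_empty, iff_false, not_and, and_imp]
        intro h1 _ h2
        exact hxΩ (h1 (h2 (mem_insert_self x T)))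
      rw [this]; simp; positivity

end Pool.Agent.H986R2.KSat
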