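import Pool.Agent.H986R2.KSat.Defs
import Pool.Agent.H986R2.KSat.Tools

open Finset

namespace Pool.Agent.H986R2.KSat

/-- The set of variables of `c` whose literal is true under `A`. -/
def tl {n : ℕ} (A : Fin n → Bool) (c : Cl n) : Finset (Fin n) :=
  c.1.filter (fun v => (A v = true ↔ v ∈ c.2))

theorem mem_tl {n : ℕ} {A : Fin n → Bool} {c : Cl n} {v : Fin n} :
    v ∈ tl A c ↔ v ∈ c.1 ∧ (A v = true ↔ v ∈ c.2) := by
  simp [tl]

theorem tl_subset {n : ℕ} (A : Fin n → Bool) (c : Cl n) : tl A c ⊆ c.1 := filter_subset _ _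

theorem sat_iff {n : ℕ} {A : Fin n → Bool} {c : Cl n} : Sat A c ↔ (tl A c).Nonempty := by
  constructor
  · rintro ⟨v, hv, h⟩
    exact ⟨v, mem_tl.2 ⟨hv, h⟩⟩
  · rintro ⟨v, hv⟩
    exact ⟨v, (mem_tl.1 hv).1, (mem_tl.1 hv).2⟩

theorem mem_clauses {n k : ℕ} {c : Cl n} : c ∈ clauses n k ↔ c.1.card = k ∧ c.2 ⊆ c.1 := by
  simp [clauses]

theorem tl_tl {n : ℕ} (A : Fin n → Bool) (c : Cl n) (h : c.2 ⊆ c.1) :
    tl A (c.1, tl A c) = c.2 := by
  ext v
  simp only [mem_tl]
  constructor
  · rintro ⟨h1, h2⟩
    by_cases hA : A v = true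
    · have := h2.1 hA
      exact this.2.1 hA
    · by_contra hv
      exact hA (h2.2 ⟨h1, by tauto⟩)
  · intro hv
    have h1 := h hv
    exact ⟨h1, fun hA => ⟨h1, fun _ => hv, fun _ => hA⟩, fun h3 => h3.2.2 hv⟩

theorem card_clauses_tl {n k : ℕ} (A : Fin n → Bool) (p : Cl n → Prop) [DecidablePred p] :
    ((clauses n k).filter (fun c => p (c.1, tl A c))).card = ((clauses n k).filter p).card := by
  apply card_nbij' (fun c => (c.1, tl A c)) (fun c => (c.1, tl A c))
  · intro c hc
    simp only [coe_filter, Set.mem_ofPred_eq, mem_clauses] at hc ⊢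
    exact ⟨⟨hc.1.1, tl_subset A c⟩, hc.2⟩
  · intro c hc
    simp only [coe_filter, Set.mem_ofPred_eq, mem_clauses] at hc ⊢
    refine ⟨⟨hc.1.1, tl_subset A c⟩, ?_⟩
    rw [tl_tl A c hc.1.2]
    exact hc.2
  · intro c hc
    simp only [coe_filter, Set.mem_ofPred_eq, mem_clauses] at hc
    simp only
    rw [tl_tl A c hc.1.2]
  · intro c hc
    simp only [coe_filter, Set.mem_ofPred_eq, mem_clauses] at hc
    simp only
    rw [tl_tl A c hc.1.2]

theorem card_clauses_filter {n k : ℕ} (p : Cl n → Prop) [DecidablePred p] :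
    ((clauses n k).filter p).card
      = ∑ K ∈ powersetCard k (univ : Finset (Fin n)),
          (K.powerset.filter (fun P => p (K, P))).card := by
  rw [card_eq_sum_card_fiberwise (f := fun c : Cl n => c.1)
    (t := powersetCard k (univ : Finset (Fin n)))]
  · apply sum_congr rfl
    intro K hK
    rw [mem_powersetCard] at hK
    apply card_nbij' (fun c => c.2) (fun P => (K, P))
    · intro c hc
      simp only [coe_filter, Set.mem_ofPred_eq, mem_filter, mem_clauses] at hc
      obtain ⟨⟨⟨h1, h2⟩, h3⟩, h4⟩ := hc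
      simp only [coe_filter, Set.mem_ofPred_eq, mem_powerset]
      subst h4
      exact ⟨h2, h3⟩
    · intro P hP
      simp only [coe_filter, Set.mem_ofPred_eq, mem_powerset] at hP
      simp only [coe_filter, Set.mem_ofPred_eq, mem_filter, mem_clauses]
      exact ⟨⟨⟨hK.2, hP.1⟩, hP.2⟩, trivial⟩
    · intro c hc
      simp only [coe_filter, Set.mem_ofPred_eq, mem_filter, mem_clauses] at hc
      ext1
      · exact hc.2.symm
      · rfl
    · intro P hP
      rfl
  · intro c hc
    simp only [coe_filter, Set.mem_ofPred_eq, mem_clauses] at hc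
    simp only [mem_coe, mem_powersetCard]
    exact ⟨subset_univ _, hc.1.1⟩

theorem card_clauses (n k : ℕ) : (clauses n k).card = 2 ^ k * n.choose k := by
  have h := card_clauses_filter (n := n) (k := k) (fun _ => True)
  simp only [filter_true] at h
  rw [h]
  rw [sum_congr rfl (g := fun _ => 2 ^ k)]
  · simp [card_powersetCard]; ring
  · intro K hK
    rw [mem_powersetCard] at hK
    simp [card_powerset, hK.2]

/-- The clauses satisfied by `A`. -/
def satClauses (n k : ℕ) (A : Fin n → Bool) : Finset (Cl n) :=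
  (clauses n k).filter (fun c => (tl A c).Nonempty)

theorem mem_satClauses {n k : ℕ} {A : Fin n → Bool} {c : Cl n} :
    c ∈ satClauses n k A ↔ c ∈ clauses n k ∧ (tl A c).Nonempty := by
  simp [satClauses]

theorem card_satClauses {n k : ℕ} (A : Fin n → Bool) :
    (satClauses n k A).card = (2 ^ k - 1) * n.choose k := by
  unfold satClauses
  rw [card_clauses_tl A (fun c => c.2.Nonempty), card_clauses_filter]
  rw [sum_congr rfl (g := fun _ => 2 ^ k - 1)]
  · simp [card_powersetCard]; ring
  · intro K hK
    rw [mem_powersetCard] at hK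
    have : (K.powerset.filter (fun P => P.Nonempty)) = K.powerset.erase ∅ := by
      ext P
      simp [nonempty_iff_ne_empty, and_comm]
    rw [this, card_erase_of_mem (by simp), card_powerset, hK.2]

/-- clauses filtered by a predicate on their variable set. -/
theorem card_clauses_var {n k : ℕ} (q : Finset (Fin n) → Prop) [DecidablePred q] :
    ((clauses n k).filter (fun c => q c.1)).card
      = 2 ^ k * ((powersetCard k (univ : Finset (Fin n))).filter q).card := by
  rw [card_clauses_filter, card_filter, mul_sum]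
  apply sum_congr rfl
  intro K hK
  rw [mem_powersetCard] at hK
  by_cases h : q K
  · simp [h, card_powerset, hK.2]
  · simp [h]

theorem card_sets_avoid {n k : ℕ} (Z : Finset (Fin n)) :
    ((powersetCard k (univ : Finset (Fin n))).filter (fun K => Disjoint K Z)).card
      = (n - Z.card).choose k := by
  have : (powersetCard k (univ : Finset (Fin n))).filter (fun K => Disjoint K Z)
      = powersetCard k (univ \ Z) := by
    ext K
    simp only [mem_filter, mem_powersetCard, subset_univ, true_and]
    rw [subset_sdiff]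
    simp [and_comm]
  rw [this, card_powersetCard, card_sdiff_of_subset (subset_univ _)]
  simp

theorem card_sets_mem {n k : ℕ} (x : Fin n) (hk : 1 ≤ k) :
    ((powersetCard k (univ : Finset (Fin n))).filter (fun K => x ∈ K)).card
      = (n - 1).choose (k - 1) := by
  have h : ((powersetCard k (univ : Finset (Fin n))).filter (fun K => x ∈ K)).card
      = (powersetCard (k - 1) ((univ : Finset (Fin n)).erase x)).card := by
    apply card_nbij' (fun K => K.erase x) (fun K => insert x K)
    · intro K hK
      simp only [coe_filter, Set.mem_ofPred_eq, mem_powersetCard, mem_coe] at hK ⊢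
      refine ⟨?_, ?_⟩
      · intro y hy
        rw [mem_erase] at hy
        simp [hy.1]
      · rw [card_erase_of_mem hK.2, hK.1.2]
    · intro K hK
      simp only [coe_filter, Set.mem_ofPred_eq, mem_powersetCard, mem_coe] at hK ⊢
      have hx : x ∉ K := fun h => by simpa using hK.1 h
      refine ⟨⟨subset_univ _, ?_⟩, mem_insert_self _ _⟩
      rw [card_insert_of_notMem hx, hK.2]; omega
    · intro K hK
      simp only [coe_filter, Set.mem_ofPred_eq] at hK
      exact insert_erase hK.2
    · intro K hK
      simp only [mem_coe, mem_powersetCard] at hK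
      have hx : x ∉ K := fun h => by simpa using hK.1 h
      exact erase_insert hx
  rw [h, card_powersetCard, card_erase_of_mem (mem_univ x)]
  simp

theorem card_sets_mem2 {n k : ℕ} (x y : Fin n) (hxy : x ≠ y) (hk : 2 ≤ k) :
    ((powersetCard k (univ : Finset (Fin n))).filter (fun K => x ∈ K ∧ y ∈ K)).card
      ≤ (n - 2).choose (k - 2) := by
  have h : ((powersetCard k (univ : Finset (Fin n))).filter (fun K => x ∈ K ∧ y ∈ K)).card
      ≤ (powersetCard (k - 2) (((univ : Finset (Fin n)).erase x).erase y)).card := by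
    apply card_le_card_of_injOn (fun K => (K.erase x).erase y)
    · intro K hK
      simp only [coe_filter, Set.mem_ofPred_eq, mem_powersetCard, mem_coe] at hK ⊢
      refine ⟨?_, ?_⟩
      · intro z hz
        rw [mem_erase, mem_erase] at hz
        simp [hz.1, hz.2.1]
      · rw [card_erase_of_mem (mem_erase.2 ⟨hxy.symm, hK.2.2⟩), card_erase_of_mem hK.2.1, hK.1.2]
        omega
    · intro K hK L hL h
      simp only [coe_filter, Set.mem_ofPred_eq, mem_powersetCard] at hK hL
      simp only at h
      have h1 : insert x (insert y ((K.erase x).erase y))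
          = insert x (insert y ((L.erase x).erase y)) := by rw [h]
      rwa [insert_erase (mem_erase.2 ⟨hxy.symm, hK.2.2⟩), insert_erase hK.2.1,
        insert_erase (mem_erase.2 ⟨hxy.symm, hL.2.2⟩), insert_erase hL.2.1] at h1
  refine le_trans h ?_
  rw [card_powersetCard, card_erase_of_mem (mem_erase.2 ⟨hxy.symm, mem_univ y⟩),
    card_erase_of_mem (mem_univ x)]
  simp only [card_univ, Fintype.card_fin]
  rw [Nat.sub_sub]

/-- Lower bound for the number of unit-type clauses at `Z \ H` avoiding `Z`. -/
theorem card_unit_avoid_ge {n k : ℕ} (Z H : Finset (Fin n)) (hHZ : H ⊆ Z) (hk : 1 ≤ k) :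
    (Z.card - H.card) * (n - Z.card).choose (k - 1)
      ≤ ((clauses n k).filter (fun c => ∃ x ∈ Z \ H, c.2 = {x} ∧ Disjoint (c.1.erase x) Z)).card := by
  have h : ((Z \ H) ×ˢ powersetCard (k - 1) (univ \ Z)).card
      ≤ ((clauses n k).filter
          (fun c => ∃ x ∈ Z \ H, c.2 = {x} ∧ Disjoint (c.1.erase x) Z)).card := by
    apply card_le_card_of_injOn (fun p => ((insert p.1 p.2, {p.1}) : Cl n))
    · rintro ⟨x, K⟩ h
      simp only [coe_product, Set.mem_prod, mem_coe, mem_powersetCard] at h
      obtain ⟨hx, hK1, hK2⟩ := h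
      have hxZ : x ∈ Z := (mem_sdiff.1 hx).1
      have hxK : x ∉ K := fun h => (mem_sdiff.1 (hK1 h)).2 hxZ
      simp only [coe_filter, Set.mem_ofPred_eq, mem_clauses]
      refine ⟨⟨?_, ?_⟩, x, hx, rfl, ?_⟩
      · rw [card_insert_of_notMem hxK, hK2]; omega
      · simp
      · rw [erase_insert hxK]
        exact disjoint_of_subset_left hK1 sdiff_disjoint
    · rintro ⟨x, K⟩ h ⟨y, L⟩ h' he
      simp only [coe_product, Set.mem_prod, mem_coe, mem_powersetCard] at h h'
      simp only [Prod.mk.injEq, singleton_inj] at he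
      obtain ⟨he1, rfl⟩ := he
      have hxZ : x ∈ Z := (mem_sdiff.1 h.1).1
      have hxK : x ∉ K := fun hh => (mem_sdiff.1 (h.2.1 hh)).2 hxZ
      have hxL : x ∉ L := fun hh => (mem_sdiff.1 (h'.2.1 hh)).2 hxZ
      have := congrArg (fun T => T.erase x) he1
      simp only [erase_insert hxK, erase_insert hxL] at this
      rw [this]
  rw [card_product, card_powersetCard, card_sdiff_of_subset hHZ,
    card_sdiff_of_subset (subset_univ _)] at h
  simpa using h

/-- Upper bound for the number of unit-type clauses at `Q`. -/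
theorem card_unit_le {n k : ℕ} (Q : Finset (Fin n)) (hk : 1 ≤ k) :
    ((clauses n k).filter (fun c => ∃ x ∈ Q, c.2 = {x})).card
      ≤ Q.card * (n - 1).choose (k - 1) := by
  have h1 : (clauses n k).filter (fun c => ∃ x ∈ Q, c.2 = {x})
      ⊆ Q.biUnion (fun x => (clauses n k).filter (fun c => c.2 = {x})) := by
    intro c hc
    simp only [mem_filter, mem_biUnion] at hc ⊢
    obtain ⟨h1, x, hx, h2⟩ := hc
    exact ⟨x, hx, h1, h2⟩
  refine le_trans (card_le_card h1) (le_trans card_biUnion_le ?_)
  rw [← smul_eq_mul, ← sum_const]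
  apply sum_le_sum
  intro x _
  rw [← card_sets_mem x hk]
  apply card_le_card_of_injOn (fun c => c.1)
  · intro c hc
    simp only [coe_filter, Set.mem_ofPred_eq, mem_clauses, mem_powersetCard] at hc ⊢
    refine ⟨⟨subset_univ _, hc.1.1⟩, ?_⟩
    apply hc.1.2
    rw [hc.2]; simp
  · intro c hc d hd h
    simp only [coe_filter, Set.mem_ofPred_eq] at hc hd
    ext1
    · exact h
    · rw [hc.2, hd.2]

/-- Number of pairs (variable set, nonempty subset of `Z`). -/
theorem card_inside_le {n k : ℕ} (Z : Finset (Fin n)) :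
    (((clauses n k).filter (fun c => c.2.Nonempty ∧ c.2 ⊆ Z)).card : ℝ)
      ≤ ((n : ℝ) + Z.card) ^ k / k.factorial - n.choose k := by
  rw [card_clauses_filter]
  have h1 : ∀ K ∈ powersetCard k (univ : Finset (Fin n)),
      ((K.powerset.filter (fun P => P.Nonempty ∧ P ⊆ Z)).card : ℝ)
        = (2 : ℝ) ^ (K.filter (fun v => v ∈ Z)).card - 1 := by
    intro K hK
    have : (K.powerset.filter (fun P => P.Nonempty ∧ P ⊆ Z))
        = ((K.filter (fun v => v ∈ Z)).powerset).erase ∅ := by
      ext P
      simp only [mem_filter, mem_powerset, mem_erase, ne_eq, subset_iff]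
      rw [nonempty_iff_ne_empty]
      constructor
      · rintro ⟨h1, h2, h3⟩
        exact ⟨h2, fun x hx => ⟨h1 hx, h3 hx⟩⟩
      · rintro ⟨h1, h2⟩
        exact ⟨fun x hx => (h2 hx).1, h1, fun x hx => (h2 hx).2⟩
    rw [this, card_erase_of_mem (by simp), card_powerset]
    rw [Nat.cast_sub (Nat.one_le_two_pow)]
    push_cast; ring
  push_cast
  rw [sum_congr rfl h1, sum_sub_distrib]
  have h2 := weight_sum_le (univ : Finset (Fin n)) (fun v => v ∈ Z) k 2 (by norm_num)
  have h3 : ((univ : Finset (Fin n)).filter (fun v => v ∈ Z)) = Z := by ext; simp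
  rw [h3] at h2
  have h4 : ∑ _K ∈ powersetCard k (univ : Finset (Fin n)), (1 : ℝ) = n.choose k := by
    simp [card_powersetCard]
  rw [h4]
  have h5 : ((univ : Finset (Fin n)).card : ℝ) + (2 - 1) * Z.card = (n : ℝ) + Z.card := by
    simp; ring
  rw [h5] at h2
  linarith

end Pool.Agent.H986R2.KSat
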