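import Mathlib

open Finset Filter Topology

namespace Pool.Agent.H986R2.KSat

/-- A clause on the variables `v_0, …, v_{n-1}` (indexed by `Fin n`) is a pair `(K, P)`:
`K` is the set of its variables, `P` the set of those variables of `K` that occur positively
(the variables in `K \ P` occur negated). -/
abbrev Cl (n : ℕ) := Finset (Fin n) × Finset (Fin n)

/-- The `k`-clauses on `n` variables: disjunctions of `k` literals on `k` distinct variables. -/
def clauses (n k : ℕ) : Finset (Cl n) :=
  univ.filter (fun c => c.1.card = k ∧ c.2 ⊆ c.1)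

/-- The truth assignment `A` satisfies the clause `c`: some variable `v` of `c` has the truth value
required by its literal (true if `v` occurs positively, false if it occurs negated). -/
def Sat {n : ℕ} (A : Fin n → Bool) (c : Cl n) : Prop :=
  ∃ v ∈ c.1, (A v = true ↔ v ∈ c.2)

/-- The truth assignment `A` satisfies every clause of the formula `F`. -/
def SatF {n : ℕ} (A : Fin n → Bool) (F : Finset (Cl n)) : Prop :=
  ∀ c ∈ F, Sat A c

/-- The formula `F` is satisfiable. -/
def Satisfiable {n : ℕ} (F : Finset (Cl n)) : Prop :=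
  ∃ A : Fin n → Bool, SatF A F

/-- The lexicographic order on truth assignments: `LexGT A B` says `A > B`, i.e. for some `r` the two
agree on all variables before `v_r`, and `A v_r = T`, `B v_r = F`. -/
def LexGT {n : ℕ} (A B : Fin n → Bool) : Prop :=
  ∃ r : Fin n, (∀ j : Fin n, j < r → A j = B j) ∧ A r = true ∧ B r = false

/-- `A` is an `i`-maximal satisfying assignment of `F`: it satisfies `F`, and no satisfying
assignment `B > A` of `F` differs from `A` in at most `i` variables. -/
def IMax {n : ℕ} (i : ℕ) (F : Finset (Cl n)) (A : Fin n → Bool) : Prop :=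
  SatF A F ∧ ∀ B : Fin n → Bool, SatF B F →
    {v : Fin n | B v ≠ A v}.ncard ≤ i → ¬ LexGT B A

/-- `X_i(F)`: the number of `i`-maximal satisfying assignments of `F`. -/
noncomputable def X {n : ℕ} (i : ℕ) (F : Finset (Cl n)) : ℕ :=
  {A : Fin n → Bool | IMax i F A}.ncard

/-- The set of all formulas with exactly `M` distinct `k`-clauses on `n` variables. -/
def formulas (n k M : ℕ) : Finset (Finset (Cl n)) :=
  (clauses n k).powersetCard M

/-- The probability that a uniformly random set of `M` distinct `k`-clauses is satisfiable. -/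
noncomputable def probSat (k n M : ℕ) : ℝ :=
  ({F : Finset (Cl n) | F ∈ formulas n k M ∧ Satisfiable F}.ncard : ℝ) / (formulas n k M).card

/-- The expectation of `X_i(F)` for a uniformly random set `F` of `M` distinct `k`-clauses. -/
noncomputable def expX (k i n M : ℕ) : ℝ :=
  (∑ F ∈ formulas n k M, (X i F : ℝ)) / (formulas n k M).card

/-- The satisfiability threshold `d_k = sup {d : F_{n, M = dn} is a.s. satisfiable}`. -/
noncomputable def dSat (k : ℕ) : ℝ :=
  sSup {d : ℝ | 0 < d ∧ Tendsto (fun n : ℕ => probSat k n ⌊d * n⌋₊) atTop (𝓝 1)}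

/-- `E[X_i(F_{n, M = dn})]` is exponentially large in `n`. -/
def ExpLarge (k i : ℕ) (d : ℝ) : Prop :=
  ∃ c : ℝ, 0 < c ∧ ∀ᶠ n : ℕ in atTop, Real.exp (c * n) ≤ expX k i n ⌊d * n⌋₊

/-- `E[X_i(F_{n, M = dn})]` is exponentially small in `n`. -/
def ExpSmall (k i : ℕ) (d : ℝ) : Prop :=
  ∃ c : ℝ, 0 < c ∧ ∀ᶠ n : ℕ in atTop, expX k i n ⌊d * n⌋₊ ≤ Real.exp (-(c * n))

/-- `d_k^{(i)}`: the supremum of the densities `d` at which `E[X_i(F_{n, M = dn})]` is
exponentially large. -/
noncomputable def dCrit (k i : ℕ) : ℝ :=
  sSup {d : ℝ | 0 < d ∧ ExpLarge k i d}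

/-- `t` separates the range of densities where `E[X_i]` is exponentially large from the range where
it is exponentially small. -/
def IsCriticalDensity (k i : ℕ) (t : ℝ) : Prop :=
  0 < t ∧ (∀ d : ℝ, 0 < d → d < t → ExpLarge k i d) ∧ (∀ d : ℝ, t < d → ExpSmall k i d)

end Pool.Agent.H986R2.KSat
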