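import Pool.Agent.H986R2.KSat.Lex

open Finset

namespace Pool.Agent.H986R2.KSat

/-- Greedy count of good subsets. -/
theorem greedy {α : Type*} [DecidableEq α] (G : Finset α) (P : Finset α → Prop) [DecidablePred P]
    (a l : ℕ) (h0 : P ∅)
    (h : ∀ R, R ⊆ G → P R → R.card < l → a ≤ ((G \ R).filter (fun c => P (insert c R))).card) :
    ∀ j ≤ l, (a : ℝ) ^ j / j.factorial ≤ ((G.powersetCard j).filter P).card := by
  intro j
  induction j with
  | zero =>
    intro _
    have : (G.powersetCard 0).filter P = {∅} := by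
      rw [powersetCard_zero, filter_singleton, if_pos h0]
    rw [this]
    simp
  | succ j ih =>
    intro hj
    have h1 := ih (by omega)
    have h2 : ((G.powersetCard j).filter P).card * a
        ≤ ((G.powersetCard (j + 1)).filter P).card * (j + 1) := by
      calc ((G.powersetCard j).filter P).card * a
          = ∑ R ∈ (G.powersetCard j).filter P, a := by rw [sum_const, smul_eq_mul]
        _ ≤ ∑ R ∈ (G.powersetCard j).filter P, ((G \ R).filter (fun c => P (insert c R))).card := by
            apply sum_le_sum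
            intro R hR
            rw [mem_filter, mem_powersetCard] at hR
            exact h R hR.1.1 hR.2 (by omega)
        _ = (((G.powersetCard j).filter P).sigma
              (fun R => (G \ R).filter (fun c => P (insert c R)))).card := by
            rw [card_sigma]
        _ ≤ (((G.powersetCard (j + 1)).filter P).sigma (fun R' => R')).card := by
            apply card_le_card_of_injOn (fun p => ⟨insert p.2 p.1, p.2⟩)
            · rintro ⟨R, c⟩ hp
              simp only [coe_sigma, Set.mem_sigma_iff, mem_coe, mem_filter, mem_powersetCard,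
                mem_sdiff] at hp ⊢
              obtain ⟨⟨⟨hRG, hRj⟩, hPR⟩, ⟨hcG, hcR⟩, hP⟩ := hp
              refine ⟨⟨⟨insert_subset hcG hRG, ?_⟩, hP⟩, mem_insert_self _ _⟩
              rw [card_insert_of_notMem hcR, hRj]
            · rintro ⟨R, c⟩ hp ⟨R', c'⟩ hp' heq
              simp only [coe_sigma, Set.mem_sigma_iff, mem_coe, mem_filter, mem_powersetCard,
                mem_sdiff] at hp hp'
              simp only [Sigma.mk.injEq, heq_eq_eq] at heq
              obtain ⟨h1, rfl⟩ := heq
              have e1 : R = (insert c R).erase c := (erase_insert hp.2.1.2).symm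
              have e2 : R' = (insert c R').erase c := (erase_insert hp'.2.1.2).symm
              have : R = R' := by rw [e1, e2, h1]
              rw [this]
        _ = ∑ R' ∈ (G.powersetCard (j + 1)).filter P, R'.card := by rw [card_sigma]
        _ = ∑ R' ∈ (G.powersetCard (j + 1)).filter P, (j + 1) := by
            apply sum_congr rfl
            intro R hR
            rw [mem_filter, mem_powersetCard] at hR
            exact hR.1.2
        _ = _ := by rw [sum_const, smul_eq_mul]
    have h2' : (((G.powersetCard j).filter P).card : ℝ) * a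
        ≤ ((G.powersetCard (j + 1)).filter P).card * (j + 1) := by exact_mod_cast h2
    have hj1 : (0 : ℝ) < j + 1 := by positivity
    rw [Nat.factorial_succ, pow_succ]
    push_cast
    have hf : (0 : ℝ) < j.factorial := by exact_mod_cast Nat.factorial_pos j
    calc (a : ℝ) ^ j * a / ((j + 1) * j.factorial) = ((a : ℝ) ^ j / j.factorial) * a / (j + 1) := by
          field_simp
      _ ≤ ((G.powersetCard j).filter P).card * a / (j + 1) := by gcongr
      _ ≤ _ := by
          rw [div_le_iff₀ hj1]
          exact h2'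

/-- the unit clauses of `R` support distinct variables -/
def Indep {n : ℕ} (A : Fin n → Bool) (R : Finset (Cl n)) : Prop :=
  ∀ c ∈ R, ∀ c' ∈ R, ∀ x, tl A c = {x} → tl A c' = {x} → c = c'

theorem card_supported_le {n : ℕ} (A : Fin n → Bool) (R : Finset (Cl n)) :
    (univ.filter (fun x => ∃ c ∈ R, tl A c = {x})).card ≤ R.card := by
  classical
  have hsub : univ.filter (fun x => ∃ c ∈ R, tl A c = {x})
      ⊆ R.biUnion (fun c => if (tl A c).card ≤ 1 then tl A c else ∅) := by
    intro x hx
    rw [mem_filter] at hx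
    obtain ⟨-, c, hc, hcx⟩ := hx
    rw [mem_biUnion]
    refine ⟨c, hc, ?_⟩
    rw [hcx]
    simp
  refine (card_le_card hsub).trans ?_
  refine (card_biUnion_le_card_mul _ _ 1 ?_).trans (by simp)
  intro c _
  split_ifs with h
  · exact h
  · simp

/-- the number of admissible extensions -/
theorem extension_count {n k i l : ℕ} {F : Finset (Cl n)} {A : Fin n → Bool} (G R : Finset (Cl n))
    (hG : G ⊆ F) (hR : Indep A R) (hRl : R.card ≤ l) (hbad : ¬ BadF k i l F A) :
    G.card - R.card - n / 5 ≤ by classical exact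
      ((G \ R).filter (fun c => Indep A (insert c R))).card := by
  classical
  set Q := univ.filter (fun x => ∃ c ∈ R, tl A c = {x}) with hQ
  have hQl : Q.card ≤ l := (card_supported_le A R).trans hRl
  have hB4 : ¬ B4 F A l (n / 5) := by
    intro h; apply hbad; unfold BadF; right; right; right; exact h
  have hlt : (F.filter (fun c => ∃ x ∈ Q, tl A c = {x})).card < n / 5 := by
    by_contra hcon
    exact hB4 ⟨Q, hQl, not_lt.1 hcon⟩
  have hsub : G ⊆ R ∪ (F.filter (fun c => ∃ x ∈ Q, tl A c = {x}) ∪
      (G \ R).filter (fun c => Indep A (insert c R))) := by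
    intro c hc
    rw [mem_union, mem_union]
    by_cases hcR : c ∈ R
    · exact Or.inl hcR
    right
    by_cases hI : Indep A (insert c R)
    · right
      rw [mem_filter, mem_sdiff]
      exact ⟨⟨hc, hcR⟩, hI⟩
    · left
      rw [mem_filter]
      refine ⟨hG hc, ?_⟩
      unfold Indep at hI
      push Not at hI
      obtain ⟨c1, hc1, c2, hc2, x, h1, h2, hne⟩ := hI
      rw [mem_insert] at hc1 hc2
      rcases hc1 with rfl | hc1 <;> rcases hc2 with rfl | hc2
      · exact absurd rfl hne
      · exact ⟨x, by rw [hQ, mem_filter]; exact ⟨mem_univ _, c2, hc2, h2⟩, h1⟩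
      · exact ⟨x, by rw [hQ, mem_filter]; exact ⟨mem_univ _, c1, hc1, h1⟩, h2⟩
      · exact absurd (hR c1 hc1 c2 hc2 x h1 h2) hne
  have h1 := (card_le_card hsub).trans (card_union_le _ _)
  have h2 := card_union_le (F.filter (fun c => ∃ x ∈ Q, tl A c = {x}))
    ((G \ R).filter (fun c => Indep A (insert c R)))
  omega

/-- Removing an admissible set keeps the maximal assignment `i`-maximal. -/
theorem imax_remove {n i : ℕ} {F' R : Finset (Cl n)} {A : Fin n → Bool} {W : Finset (Fin n)}
    (hA : SatF A F') (hmax : ∀ B : Fin n → Bool, SatF B F' → ¬ LexGT B A)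
    (hsupp : ∀ x, x ∉ W → 2 ≤ supp F' A x W)
    (hhit : ∀ T, IsObs i T → T ⊆ F' → ∃ c ∈ T, c.1 ⊆ W)
    (hI : Indep A R) (hRW : ∀ c ∈ R, ¬ tl A c ⊆ W) : by classical exact IMax i (F' \ R) A := by
  classical
  refine ⟨fun c hc => hA c (mem_sdiff.1 hc).1, ?_⟩
  intro B hB hcard hlt
  rw [diff_ncard] at hcard
  have hdiff := diff_subset (i := i) (F := F' \ R) (F' := F') (A := A) (B := B) (W := W)
    sdiff_subset hhit ?_ hB hcard
  · refine hmax B ?_ hlt
    intro c hc
    by_cases hcR : c ∈ R
    · have h1 := hRW c hcR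
      rw [Finset.not_subset] at h1
      obtain ⟨v, hv, hvW⟩ := h1
      rw [mem_tl] at hv
      refine ⟨v, hv.1, ?_⟩
      have : B v = A v := by
        by_contra hne
        exact hvW (hdiff v hne)
      rw [this]
      exact hv.2
    · exact hB c (mem_sdiff.2 ⟨hc, hcR⟩)
  · intro x hx
    have h2 := hsupp x hx
    unfold supp at h2
    obtain ⟨c1, hc1, c2, hc2, hne⟩ := one_lt_card.1 (lt_of_lt_of_le (by norm_num) h2)
    rw [mem_filter] at hc1 hc2
    have hdis : ∀ c : Cl n, Disjoint (c.1.erase x) W → Disjoint c.1 W := by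
      intro c hc
      rw [Finset.disjoint_left] at hc ⊢
      intro a ha haW
      by_cases hax : a = x
      · exact hx (hax ▸ haW)
      · exact hc (mem_erase.2 ⟨hax, ha⟩) haW
    by_cases h : c1 ∈ R
    · refine ⟨c2, mem_sdiff.2 ⟨hc2.1, fun h' => hne (hI c1 h c2 h' x hc1.2.1 hc2.2.1)⟩, hc2.2.1,
        hdis c2 hc2.2.2⟩
    · exact ⟨c1, mem_sdiff.2 ⟨hc1.1, h⟩, hc1.2.1, hdis c1 hc1.2.2⟩

open Classical in
/-- Many ways to remove `l` clauses keeping the assignment `i`-maximal. -/
theorem many_removals {n k i l : ℕ} {F' : Finset (Cl n)} {A : Fin n → Bool} (hk : 1 ≤ k)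
    (hF : F' ⊆ clauses n k) (hA : SatF A F') (hmax : ∀ B : Fin n → Bool, SatF B F' → ¬ LexGT B A)
    (hbad : ¬ BadF k i l F' A) :
    ((F'.card - 2 * (n / 5) - l : ℕ) : ℝ) ^ l / l.factorial ≤
      ((F'.powersetCard l).filter (fun R => IMax i (F' \ R) A)).card := by
  obtain ⟨W, hWz, hsupp, hhit⟩ := good_W hk hF hbad
  set G : Finset (Cl n) := F'.filter (fun c => ¬ tl A c ⊆ W) with hG
  have hB3 : ¬ B3 F' A (zz n k) (n / 5) := by
    intro h; apply hbad; unfold BadF; right; right; left; exact h
  have hlt : (F'.filter (fun c => tl A c ⊆ W)).card < n / 5 := by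
    by_contra hcon
    exact hB3 ⟨W, hWz.le, not_lt.1 hcon⟩
  have hGcard : F'.card - n / 5 ≤ G.card := by
    have h2 := card_filter_add_card_filter_not (s := F') (fun c => tl A c ⊆ W)
    rw [← hG] at h2
    omega
  have hgr := greedy G (Indep A) (F'.card - 2 * (n / 5) - l) l (by
    intro c hc; simp at hc) (by
    intro R hRG hR hRl
    have := extension_count (k := k) (i := i) (l := l) G R (filter_subset _ _) hR hRl.le hbad
    have h3 : F'.card - 2 * (n / 5) - l ≤ G.card - R.card - n / 5 := by omega
    exact h3.trans (by convert this)) l le_rfl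
  refine hgr.trans ?_
  have hsub : (G.powersetCard l).filter (Indep A) ⊆
      (F'.powersetCard l).filter (fun R => IMax i (F' \ R) A) := by
    intro R hR
    rw [mem_filter, mem_powersetCard] at hR ⊢
    refine ⟨⟨hR.1.1.trans (filter_subset _ _), hR.1.2⟩, ?_⟩
    have := imax_remove (i := i) (F' := F') (R := R) hA hmax hsupp hhit hR.2
      (fun c hc => (mem_filter.1 (hR.1.1 hc)).2)
    convert this
  exact_mod_cast card_le_card hsub

end Pool.Agent.H986R2.KSat
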