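import Pool.Agent.H986R2.KSat.Count

open Finset

namespace Pool.Agent.H986R2.KSat

/-- variables that do not occur in `F` -/
def iso {n : ℕ} (F : Finset (Cl n)) : Finset (Fin n) :=
  univ.filter (fun x => ∀ c ∈ F, x ∉ c.1)

/-- variables that occur in exactly one clause of `F` -/
def deg1 {n : ℕ} (F : Finset (Cl n)) : Finset (Fin n) :=
  univ.filter (fun x => (F.filter (fun c => x ∈ c.1)).card = 1)

open Classical in
/-- satisfiable formulas with many isolated variables and few variables of degree one -/
noncomputable def goodSat (n k M I D : ℕ) : Finset (Finset (Cl n)) :=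
  (formulas n k M).filter (fun F => Satisfiable F ∧ I ≤ (iso F).card ∧ (deg1 F).card ≤ D)

theorem mem_formulas {n k M : ℕ} {F : Finset (Cl n)} :
    F ∈ formulas n k M ↔ F ⊆ clauses n k ∧ F.card = M := by
  simp [formulas, mem_powersetCard]

theorem mem_iso {n : ℕ} {F : Finset (Cl n)} {x : Fin n} : x ∈ iso F ↔ ∀ c ∈ F, x ∉ c.1 := by
  simp [iso]

theorem mem_deg1 {n : ℕ} {F : Finset (Cl n)} {x : Fin n} :
    x ∈ deg1 F ↔ (F.filter (fun c => x ∈ c.1)).card = 1 := by
  simp [deg1]

theorem notMem_of_iso {n : ℕ} {F : Finset (Cl n)} {x : Fin n} {c : Cl n} (hx : x ∈ iso F)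
    (hc : x ∈ c.1) : c ∉ F := fun h => mem_iso.1 hx c h hc

theorem filter_insert_iso {n : ℕ} {F : Finset (Cl n)} {x : Fin n} {c : Cl n} (hx : x ∈ iso F)
    (hc : x ∈ c.1) : (insert c F).filter (fun c => x ∈ c.1) = {c} := by
  ext d
  simp only [mem_filter, mem_insert, mem_singleton]
  constructor
  · rintro ⟨rfl | hd, h2⟩
    · rfl
    · exact absurd h2 (mem_iso.1 hx d hd)
  · rintro rfl
    exact ⟨Or.inl rfl, hc⟩

theorem sat_insert_iso {n : ℕ} {F : Finset (Cl n)} {x : Fin n} {c : Cl n} (hx : x ∈ iso F)
    (hc : x ∈ c.1) (h : Satisfiable F) : Satisfiable (insert c F) := by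
  classical
  obtain ⟨A, hA⟩ := h
  refine ⟨Function.update A x (decide (x ∈ c.2)), ?_⟩
  intro d hd
  rcases mem_insert.1 hd with rfl | hd
  · exact ⟨x, hc, by simp⟩
  · obtain ⟨v, hv, h2⟩ := hA d hd
    have hvx : v ≠ x := by
      rintro rfl
      exact mem_iso.1 hx d hd hv
    exact ⟨v, hv, by rw [Function.update_of_ne hvx]; exact h2⟩

/-- Adding a clause through an isolated variable. -/
theorem one_step (n k M I D : ℕ) (hk : 1 ≤ k) :
    (goodSat n k M I D).card * (I * (2 ^ k * (n - 1).choose (k - 1)))
      ≤ (goodSat n k (M + 1) (I - k) (D + k)).card * (D + k) := by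
  classical
  set S := (goodSat n k M I D).sigma (fun F => (iso F).sigma
    (fun x => (clauses n k).filter (fun c => x ∈ c.1))) with hS
  set T := (goodSat n k (M + 1) (I - k) (D + k)).sigma (fun F => deg1 F) with hT
  have hST : S.card ≤ T.card := by
    apply card_le_card_of_injOn (fun p => (⟨insert p.2.2 p.1, p.2.1⟩ :
      Σ _ : Finset (Cl n), Fin n))
    · rintro ⟨F, x, c⟩ h
      simp only [hS, coe_sigma, Set.mem_sigma_iff, mem_coe, mem_filter] at h
      obtain ⟨hF, hx, hc, hxc⟩ := h
      simp only [goodSat, mem_filter, mem_formulas] at hF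
      obtain ⟨⟨hF1, hF2⟩, hF3, hF4, hF5⟩ := hF
      simp only [hT, coe_sigma, Set.mem_sigma_iff, mem_coe, goodSat, mem_filter, mem_formulas]
      refine ⟨⟨⟨?_, ?_⟩, sat_insert_iso hx hxc hF3, ?_, ?_⟩, ?_⟩
      · exact insert_subset hc hF1
      · rw [card_insert_of_notMem (notMem_of_iso hx hxc), hF2]
      · have h1 : iso F \ c.1 ⊆ iso (insert c F) := by
          intro v hv
          rw [mem_sdiff] at hv
          rw [mem_iso]
          intro d hd
          rcases mem_insert.1 hd with rfl | hd
          · exact hv.2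
          · exact mem_iso.1 hv.1 d hd
        have h2 := card_le_card h1
        have h3 := le_card_sdiff c.1 (iso F)
        rw [(mem_clauses.1 hc).1] at h3
        omega
      · have h1 : deg1 (insert c F) ⊆ deg1 F ∪ c.1 := by
          intro v hv
          rw [mem_union]
          by_cases hvc : v ∈ c.1
          · exact Or.inr hvc
          · left
            rw [mem_deg1] at hv ⊢
            rwa [filter_insert, if_neg hvc] at hv
        have h2 := card_le_card h1
        have h3 := card_union_le (deg1 F) c.1
        rw [(mem_clauses.1 hc).1] at h3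
        omega
      · rw [mem_deg1, filter_insert_iso hx hxc]; simp
    · rintro ⟨F, x, c⟩ h ⟨F', x', c'⟩ h' he
      simp only [hS, coe_sigma, Set.mem_sigma_iff, mem_coe, mem_filter] at h h'
      obtain ⟨hF, hx, hc, hxc⟩ := h
      obtain ⟨hF', hx', hc', hxc'⟩ := h'
      simp only [Sigma.mk.injEq, heq_eq_eq] at he
      obtain ⟨he1, rfl⟩ := he
      have e1 := filter_insert_iso hx hxc
      have e2 := filter_insert_iso hx' hxc'
      rw [he1, e2] at e1
      have hcc : c' = c := by simpa using e1
      subst hcc
      have e3 := congrArg (fun G => G.erase c') he1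
      simp only [erase_insert (notMem_of_iso hx hxc), erase_insert (notMem_of_iso hx' hxc')] at e3
      subst e3
      rfl
  have hScard : (goodSat n k M I D).card * (I * (2 ^ k * (n - 1).choose (k - 1))) ≤ S.card := by
    rw [hS, card_sigma, ← smul_eq_mul, ← sum_const]
    apply sum_le_sum
    intro F hF
    simp only [goodSat, mem_filter] at hF
    rw [card_sigma]
    calc I * (2 ^ k * (n - 1).choose (k - 1))
        ≤ (iso F).card * (2 ^ k * (n - 1).choose (k - 1)) := Nat.mul_le_mul_right _ hF.2.2.1
      _ = ∑ x ∈ iso F, 2 ^ k * (n - 1).choose (k - 1) := by simp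
      _ ≤ _ := by
        apply sum_le_sum
        intro x _
        rw [card_clauses_var (n := n) (k := k) (fun K => x ∈ K), card_sets_mem x hk]
  have hTcard : T.card ≤ (goodSat n k (M + 1) (I - k) (D + k)).card * (D + k) := by
    rw [hT, card_sigma, ← smul_eq_mul, ← sum_const]
    apply sum_le_sum
    intro F hF
    simp only [goodSat, mem_filter] at hF
    exact hF.2.2.2
  omega

/-- Iterated version. -/
theorem many_steps (n k M I D q : ℕ) (hk : 1 ≤ k) :
    ((goodSat n k M I D).card : ℝ) *
        (((I : ℝ) - k * q) * (2 ^ k * (n - 1).choose (k - 1)) / (D + k * q)) ^ q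
      ≤ (goodSat n k (M + q) (I - k * q) (D + k * q)).card ∨ (I : ℝ) < k * q ∨ D + k * q = 0 := by
  by_cases hI : (I : ℝ) < k * q
  · exact Or.inr (Or.inl hI)
  by_cases hD : D + k * q = 0
  · exact Or.inr (Or.inr hD)
  left
  push Not at hI
  have hDpos : (0 : ℝ) < (D : ℝ) + k * q := by
    have : 0 < D + k * q := Nat.pos_of_ne_zero hD
    exact_mod_cast this
  set a : ℝ := ((I : ℝ) - k * q) * (2 ^ k * (n - 1).choose (k - 1)) / (D + k * q) with ha
  have ha0 : 0 ≤ a := by
    rw [ha]
    apply div_nonneg _ hDpos.le
    apply mul_nonneg (by linarith)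
    positivity
  have key : ∀ j : ℕ, j ≤ q → ((goodSat n k M I D).card : ℝ) * a ^ j
      ≤ (goodSat n k (M + j) (I - k * j) (D + k * j)).card := by
    intro j
    induction j with
    | zero => intro _; simp
    | succ j ih =>
      intro hj
      have h1 := ih (by omega)
      have h2 := one_step n k (M + j) (I - k * j) (D + k * j) hk
      have hIk : k * j ≤ I := by
        have : (k * j : ℝ) ≤ I := by
          refine le_trans ?_ hI
          have : (j : ℝ) ≤ q := by exact_mod_cast (by omega : j ≤ q)
          gcongr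
        exact_mod_cast this
      have h2' : ((goodSat n k (M + j) (I - k * j) (D + k * j)).card : ℝ) *
          (((I : ℝ) - k * j) * (2 ^ k * (n - 1).choose (k - 1)))
          ≤ (goodSat n k (M + j + 1) (I - k * j - k) (D + k * j + k)).card *
            ((D : ℝ) + k * j + k) := by
        have := h2
        have e : ((I - k * j : ℕ) : ℝ) = (I : ℝ) - k * j := by
          rw [Nat.cast_sub hIk]; push_cast; ring
        rw [← e]
        exact_mod_cast this
      have e1 : M + (j + 1) = M + j + 1 := by ring
      have e2 : I - k * (j + 1) = I - k * j - k := by rw [mul_add, mul_one, Nat.sub_sub]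
      have e3 : D + k * (j + 1) = D + k * j + k := by ring
      rw [e1, e2, e3]
      set x : ℝ := ((goodSat n k (M + j) (I - k * j) (D + k * j)).card : ℝ) with hx
      set y : ℝ := ((goodSat n k (M + j + 1) (I - k * j - k) (D + k * j + k)).card : ℝ) with hy
      have hjq : ((j : ℝ) + 1) ≤ q := by exact_mod_cast hj
      have hk0 : (0 : ℝ) ≤ k := by positivity
      have hB : (0 : ℝ) ≤ 2 ^ k * (n - 1).choose (k - 1) := by positivity
      have hx0 : 0 ≤ x := by rw [hx]; positivity
      have hy0 : 0 ≤ y := by rw [hy]; positivity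
      have h3 : x * a ≤ y := by
        rw [ha, ← mul_div_assoc, div_le_iff₀ hDpos]
        calc x * (((I : ℝ) - k * q) * (2 ^ k * (n - 1).choose (k - 1)))
            ≤ x * (((I : ℝ) - k * j) * (2 ^ k * (n - 1).choose (k - 1))) := by
              gcongr; linarith
          _ ≤ y * ((D : ℝ) + k * j + k) := h2'
          _ ≤ y * (D + k * q) := by
              apply mul_le_mul_of_nonneg_left _ hy0
              have := mul_le_mul_of_nonneg_left hjq hk0
              linarith
      calc ((goodSat n k M I D).card : ℝ) * a ^ (j + 1)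
          = (((goodSat n k M I D).card : ℝ) * a ^ j) * a := by ring
        _ ≤ x * a := by gcongr
        _ ≤ y := h3
  exact key q le_rfl

/-- log-concavity in a form suitable for the variance of the number of isolated variables -/
theorem choose_mul_choose_le (a b c : ℕ) (hab : a ≤ b) (hbc' : b ≤ c) (h1 : a * c ≤ b * b)
    (h2 : 2 * b ≤ a + c) (M : ℕ) :
    a.choose M * c.choose M ≤ b.choose M * b.choose M := by
  induction M with
  | zero => simp
  | succ M ih =>
    by_cases ha : a ≤ M
    · rw [Nat.choose_eq_zero_of_lt (by omega : a < M + 1)]; simp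
    push Not at ha
    have e1 := Nat.choose_succ_right_eq a M
    have e2 := Nat.choose_succ_right_eq b M
    have e3 := Nat.choose_succ_right_eq c M
    have hbc : M < b ∧ M < c := by omega
    obtain ⟨hb, hc⟩ := hbc
    have hkey : (a - M) * (c - M) ≤ (b - M) * (b - M) := by
      zify [ha.le, hb.le, hc.le]
      have h1' : (a : ℤ) * c ≤ b * b := by exact_mod_cast h1
      have h2' : 2 * (b : ℤ) ≤ a + c := by exact_mod_cast h2
      have hM : (0 : ℤ) ≤ M := by positivity
      nlinarith
    have hpos : 0 < (M + 1) * (M + 1) := by positivity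
    apply Nat.le_of_mul_le_mul_right _ hpos
    calc a.choose (M + 1) * c.choose (M + 1) * ((M + 1) * (M + 1))
        = (a.choose (M + 1) * (M + 1)) * (c.choose (M + 1) * (M + 1)) := by ring
      _ = (a.choose M * (a - M)) * (c.choose M * (c - M)) := by rw [e1, e3]
      _ = (a.choose M * c.choose M) * ((a - M) * (c - M)) := by ring
      _ ≤ (b.choose M * b.choose M) * ((b - M) * (b - M)) := Nat.mul_le_mul ih hkey
      _ = (b.choose M * (b - M)) * (b.choose M * (b - M)) := by ring
      _ = (b.choose (M + 1) * (M + 1)) * (b.choose (M + 1) * (M + 1)) := by rw [e2]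
      _ = _ := by ring

/-- Sum of the numbers of isolated variables. -/
theorem sum_iso (n k M : ℕ) :
    ∑ F ∈ formulas n k M, (iso F).card = n * (2 ^ k * (n - 1).choose k).choose M := by
  classical
  have h1 : ∀ F : Finset (Cl n), (iso F).card
      = ∑ x : Fin n, if (∀ c ∈ F, x ∉ c.1) then 1 else 0 := by
    intro F
    rw [iso, card_filter]
  simp only [h1]
  rw [sum_comm]
  have h2 : ∀ x : Fin n, ∑ F ∈ formulas n k M, (if (∀ c ∈ F, x ∉ c.1) then 1 else 0)
      = (2 ^ k * (n - 1).choose k).choose M := by
    intro x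
    rw [← card_filter]
    have : (formulas n k M).filter (fun F => ∀ c ∈ F, x ∉ c.1)
        = powersetCard M ((clauses n k).filter (fun c => x ∉ c.1)) := by
      ext F
      simp only [mem_filter, mem_formulas, mem_powersetCard]
      constructor
      · rintro ⟨⟨h1, h2⟩, h3⟩
        exact ⟨fun c hc => mem_filter.2 ⟨h1 hc, h3 c hc⟩, h2⟩
      · rintro ⟨h1, h2⟩
        exact ⟨⟨fun c hc => (mem_filter.1 (h1 hc)).1, h2⟩, fun c hc => (mem_filter.1 (h1 hc)).2⟩
    rw [this, card_powersetCard]
    congr 1
    rw [card_clauses_var (n := n) (k := k) (fun K => x ∉ K)]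
    congr 1
    have := card_sets_avoid (n := n) (k := k) {x}
    simp only [card_singleton] at this
    rw [← this]
    congr 1
    apply filter_congr
    intro K _
    simp
  simp only [h2]
  simp

/-- Sum of the squares of the numbers of isolated variables. -/
theorem sum_iso_sq (n k M : ℕ) :
    ∑ F ∈ formulas n k M, (iso F).card ^ 2
      ≤ n * (2 ^ k * (n - 1).choose k).choose M
        + n * n * (2 ^ k * (n - 2).choose k).choose M := by
  classical
  have h1 : ∀ F : Finset (Cl n), (iso F).card ^ 2
      = ∑ p : Fin n × Fin n, if ((∀ c ∈ F, p.1 ∉ c.1) ∧ (∀ c ∈ F, p.2 ∉ c.1)) then 1 else 0 := by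
    intro F
    rw [← card_filter, sq]
    have : univ.filter (fun p : Fin n × Fin n => (∀ c ∈ F, p.1 ∉ c.1) ∧ (∀ c ∈ F, p.2 ∉ c.1))
        = iso F ×ˢ iso F := by
      ext p
      simp [mem_iso]
    rw [this, card_product]
  simp only [h1]
  rw [sum_comm]
  have h2 : ∀ p : Fin n × Fin n, ∑ F ∈ formulas n k M,
      (if ((∀ c ∈ F, p.1 ∉ c.1) ∧ (∀ c ∈ F, p.2 ∉ c.1)) then 1 else 0)
      ≤ if p.1 = p.2 then (2 ^ k * (n - 1).choose k).choose M
        else (2 ^ k * (n - 2).choose k).choose M := by
    rintro ⟨x, y⟩
    rw [← card_filter]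
    have : (formulas n k M).filter (fun F => (∀ c ∈ F, x ∉ c.1) ∧ (∀ c ∈ F, y ∉ c.1))
        = powersetCard M ((clauses n k).filter (fun c => Disjoint c.1 {x, y})) := by
      ext F
      simp only [mem_filter, mem_formulas, mem_powersetCard]
      constructor
      · rintro ⟨⟨h1, h2⟩, h3, h4⟩
        exact ⟨fun c hc => mem_filter.2 ⟨h1 hc, by simp [h3 c hc, h4 c hc]⟩, h2⟩
      · rintro ⟨h1, h2⟩
        refine ⟨⟨fun c hc => (mem_filter.1 (h1 hc)).1, h2⟩, fun c hc => ?_, fun c hc => ?_⟩
        · have := (mem_filter.1 (h1 hc)).2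
          simp at this; tauto
        · have := (mem_filter.1 (h1 hc)).2
          simp at this; tauto
    simp only
    rw [this, card_powersetCard, card_clauses_var (n := n) (k := k) (fun K => Disjoint K {x, y}),
      card_sets_avoid]
    by_cases hxy : x = y
    · subst hxy
      simp
    · rw [if_neg hxy, card_pair hxy]
  refine le_trans (sum_le_sum (fun p _ => h2 p)) ?_
  rw [Fintype.sum_prod_type]
  simp only
  have h3 : ∀ x : Fin n, ∑ y : Fin n, (if x = y then (2 ^ k * (n - 1).choose k).choose M
        else (2 ^ k * (n - 2).choose k).choose M)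
      ≤ (2 ^ k * (n - 1).choose k).choose M + n * (2 ^ k * (n - 2).choose k).choose M := by
    intro x
    have : ∀ y : Fin n, (if x = y then (2 ^ k * (n - 1).choose k).choose M
        else (2 ^ k * (n - 2).choose k).choose M)
        ≤ (if x = y then (2 ^ k * (n - 1).choose k).choose M else 0)
          + (2 ^ k * (n - 2).choose k).choose M := by
      intro y
      split_ifs <;> simp
    refine le_trans (sum_le_sum (fun y _ => this y)) ?_
    rw [sum_add_distrib]
    simp
  refine le_trans (sum_le_sum (fun x _ => h3 x)) ?_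
  simp only [sum_const, card_univ, Fintype.card_fin, smul_eq_mul]
  ring_nf
  exact le_refl _

/-- Sum of the numbers of variables of degree one. -/
theorem sum_deg1 (n k M : ℕ) (hk : 1 ≤ k) (hM : 1 ≤ M) :
    ∑ F ∈ formulas n k M, (deg1 F).card
      ≤ n * ((2 ^ k * (n - 1).choose (k - 1)) * (2 ^ k * (n - 1).choose k).choose (M - 1)) := by
  classical
  have h1 : ∀ F : Finset (Cl n), (deg1 F).card
      = ∑ x : Fin n, if ((F.filter (fun c => x ∈ c.1)).card = 1) then 1 else 0 := by
    intro F
    rw [deg1, card_filter]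
  simp only [h1]
  rw [sum_comm]
  have h2 : ∀ x : Fin n, ∑ F ∈ formulas n k M,
      (if ((F.filter (fun c => x ∈ c.1)).card = 1) then 1 else 0)
      ≤ (2 ^ k * (n - 1).choose (k - 1)) * (2 ^ k * (n - 1).choose k).choose (M - 1) := by
    intro x
    rw [← card_filter]
    have hle : ((formulas n k M).filter (fun F => (F.filter (fun c => x ∈ c.1)).card = 1)).card
        ≤ (((clauses n k).filter (fun c => x ∈ c.1)).powersetCard 1 ×ˢ
            powersetCard (M - 1) ((clauses n k).filter (fun c => x ∉ c.1))).card := by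
      apply card_le_card_of_injOn (fun F => (F.filter (fun c => x ∈ c.1),
        F.filter (fun c => x ∉ c.1)))
      · intro F hF
        simp only [coe_filter, Set.mem_ofPred_eq, mem_formulas] at hF
        obtain ⟨⟨hF1, hF2⟩, hF3⟩ := hF
        simp only [coe_product, Set.mem_prod, mem_coe, mem_powersetCard]
        refine ⟨⟨filter_subset_filter _ hF1, hF3⟩, filter_subset_filter _ hF1, ?_⟩
        have := card_filter_add_card_filter_not (s := F) (fun c => x ∈ c.1)
        omega
      · intro F _ G _ h
        simp only [Prod.mk.injEq] at h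
        rw [← filter_union_filter_not_eq (fun c : Cl n => x ∈ c.1) F,
          ← filter_union_filter_not_eq (fun c : Cl n => x ∈ c.1) G, h.1, h.2]
    refine le_trans hle ?_
    rw [card_product, card_powersetCard, card_powersetCard, Nat.choose_one_right,
      card_clauses_var (n := n) (k := k) (fun K => x ∈ K), card_sets_mem x hk,
      card_clauses_var (n := n) (k := k) (fun K => x ∉ K)]
    have := card_sets_avoid (n := n) (k := k) {x}
    simp only [card_singleton, disjoint_singleton_right] at this
    rw [this]
  refine le_trans (sum_le_sum (fun x _ => h2 x)) ?_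
  simp

end Pool.Agent.H986R2.KSat
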