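import Pool.Agent.H986R2.KSat.Core

open Finset

namespace Pool.Agent.H986R2.KSat

def B3 {n : ℕ} (F : Finset (Cl n)) (A : Fin n → Bool) (z y : ℕ) : Prop :=
  ∃ Z : Finset (Fin n), Z.card ≤ z ∧ y ≤ (F.filter (fun c => tl A c ⊆ Z)).card

def B4 {n : ℕ} (F : Finset (Cl n)) (A : Fin n → Bool) (l y : ℕ) : Prop :=
  ∃ Q : Finset (Fin n), Q.card ≤ l ∧ y ≤ (F.filter (fun c => ∃ x ∈ Q, tl A c = {x})).card

theorem card_satClauses_filter {n k : ℕ} (A : Fin n → Bool) (p : Cl n → Prop) [DecidablePred p] :
    ((satClauses n k A).filter (fun c => p (c.1, tl A c))).card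
      = ((clauses n k).filter (fun c => c.2.Nonempty ∧ p c)).card := by
  rw [← card_clauses_tl A (fun c => c.2.Nonempty ∧ p c)]
  congr 1
  ext c
  simp only [satClauses, mem_filter]
  tauto

theorem card_small_sets (n z : ℕ) :
    ((univ.filter (fun Z : Finset (Fin n) => Z.card ≤ z)).card : ℝ)
      = ∑ j ∈ range (z + 1), (n.choose j : ℝ) := by
  have h : (univ.filter (fun Z : Finset (Fin n) => Z.card ≤ z))
      = (range (z + 1)).biUnion (fun j => powersetCard j (univ : Finset (Fin n))) := by
    ext Z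
    simp only [mem_filter, mem_univ, true_and, mem_biUnion, mem_range, mem_powersetCard,
      subset_univ]
    constructor
    · intro h; exact ⟨_, by omega, rfl⟩
    · rintro ⟨j, hj, h⟩; omega
  rw [h, card_biUnion]
  · simp [card_powersetCard]
  · intro a _ b _ hab
    simp only [Function.onFun]
    rw [Finset.disjoint_left]
    intro Z hZ hZ'
    rw [mem_powersetCard] at hZ hZ'
    exact hab (hZ.2.symm.trans hZ'.2)

open Classical in
theorem card_B1 {n k : ℕ} (A : Fin n → Bool) (M z h : ℕ) (hk : 1 ≤ k) (hhz : h ≤ z)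
    (hM : 2 * M ^ 2 ≤ (2 ^ k - 1) * n.choose k) (hpos : 0 < (2 ^ k - 1) * n.choose k) :
    ((((satClauses n k A).powersetCard M).filter (fun F => B1 F A z h)).card : ℝ)
      ≤ (n.choose z : ℝ) * 4 ^ z * 2 * (((2 ^ k - 1) * n.choose k).choose M : ℝ) *
        Real.exp (-(1 / 2) * (M * (((z : ℝ) - h) * (n - z).choose (k - 1) /
          ((2 ^ k - 1) * n.choose k : ℕ)))) := by
  set Ω := satClauses n k A with hΩ
  have hΩc : Ω.card = (2 ^ k - 1) * n.choose k := card_satClauses A
  set b : ℝ := 2 * (((2 ^ k - 1) * n.choose k).choose M : ℝ) *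
        Real.exp (-(1 / 2) * (M * (((z : ℝ) - h) * (n - z).choose (k - 1) /
          ((2 ^ k - 1) * n.choose k : ℕ)))) * 2 ^ z with hb
  have key : ∀ Z H : Finset (Fin n), H ⊆ Z → Z.card = z → H.card ≤ h →
      (((Ω.powersetCard M).filter (fun F => ∀ x ∈ Z \ H, supp F A x Z ≤ 1)).card : ℝ) ≤ b := by
    intro Z H hHZ hZ hH
    have e1 : ((Ω.powersetCard M).filter (fun F => ∀ x ∈ Z \ H, supp F A x Z ≤ 1)).card
        ≤ ((Ω.powersetCard M).filter (fun F => (F.filter
          (fun c => ∃ x ∈ Z \ H, tl A c = {x} ∧ Disjoint (c.1.erase x) Z)).card ≤ z)).card := by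
      apply card_le_card
      intro F hF
      simp only [mem_filter] at hF ⊢
      refine ⟨hF.1, ?_⟩
      have h1 : F.filter (fun c => ∃ x ∈ Z \ H, tl A c = {x} ∧ Disjoint (c.1.erase x) Z)
          ⊆ (Z \ H).biUnion (fun x => F.filter
            (fun c => tl A c = {x} ∧ Disjoint (c.1.erase x) Z)) := by
        intro c hc
        simp only [mem_filter, mem_biUnion] at hc ⊢
        obtain ⟨h1, x, hx, h2⟩ := hc
        exact ⟨x, hx, h1, h2⟩
      refine le_trans (card_le_card h1) (le_trans card_biUnion_le ?_)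
      calc ∑ x ∈ Z \ H, (F.filter
            (fun c => tl A c = {x} ∧ Disjoint (c.1.erase x) Z)).card
          ≤ ∑ x ∈ Z \ H, 1 := sum_le_sum (fun x hx => hF.2 x hx)
        _ = (Z \ H).card := by simp
        _ ≤ z := by rw [← hZ]; exact card_le_card sdiff_subset
    have e2 := lower_tail Ω
      (fun c => ∃ x ∈ Z \ H, tl A c = {x} ∧ Disjoint (c.1.erase x) Z) M z (1 / 2)
      (by norm_num) (by norm_num) (by rw [hΩc]; exact hM) (by rw [hΩc]; exact hpos)
    have e3 : (Ω.filter (fun c => ∃ x ∈ Z \ H, tl A c = {x} ∧ Disjoint (c.1.erase x) Z)).card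
        = ((clauses n k).filter (fun c => c.2.Nonempty ∧
          (∃ x ∈ Z \ H, c.2 = {x} ∧ Disjoint (c.1.erase x) Z))).card :=
      card_satClauses_filter A (fun c => ∃ x ∈ Z \ H, c.2 = {x} ∧ Disjoint (c.1.erase x) Z)
    have e4 : ((clauses n k).filter (fun c => c.2.Nonempty ∧
          (∃ x ∈ Z \ H, c.2 = {x} ∧ Disjoint (c.1.erase x) Z)))
        = (clauses n k).filter (fun c => ∃ x ∈ Z \ H, c.2 = {x} ∧ Disjoint (c.1.erase x) Z) := by
      apply filter_congr
      intro c _
      constructor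
      · exact fun h => h.2
      · rintro ⟨x, hx, h1, h2⟩
        exact ⟨by rw [h1]; simp, x, hx, h1, h2⟩
    have e5 := card_unit_avoid_ge (k := k) Z H hHZ hk
    rw [← e4, ← e3, hZ] at e5
    have e6 : ((z : ℝ) - h) * (n - z).choose (k - 1)
        ≤ (Ω.filter (fun c => ∃ x ∈ Z \ H, tl A c = {x} ∧ Disjoint (c.1.erase x) Z)).card := by
      have : ((z : ℝ) - h) ≤ ((z - H.card : ℕ) : ℝ) := by
        rw [Nat.cast_sub (by omega)]
        have : (H.card : ℝ) ≤ h := by exact_mod_cast hH
        linarith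
      calc ((z : ℝ) - h) * (n - z).choose (k - 1)
          ≤ ((z - H.card : ℕ) : ℝ) * (n - z).choose (k - 1) := by gcongr
        _ ≤ _ := by exact_mod_cast e5
    calc (((Ω.powersetCard M).filter (fun F => ∀ x ∈ Z \ H, supp F A x Z ≤ 1)).card : ℝ)
        ≤ _ := by exact_mod_cast e1
      _ ≤ _ := e2
      _ ≤ b := by
        rw [hb, hΩc]
        have : ((1 : ℝ) / 2) ^ z = 1 / 2 ^ z := by rw [one_div, inv_pow, one_div]
        rw [this, div_div_eq_mul_div, div_one]
        have hexp : Real.exp ((1 / 2 - 1) * (↑M * (((Ω.filter (fun c => ∃ x ∈ Z \ H,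
              tl A c = {x} ∧ Disjoint (c.1.erase x) Z)).card : ℝ) /
                (((2 ^ k - 1) * n.choose k : ℕ) : ℝ)))) ≤
            Real.exp (-(1 / 2) * (M * (((z : ℝ) - h) * (n - z).choose (k - 1) /
              ((2 ^ k - 1) * n.choose k : ℕ)))) := by
          apply Real.exp_le_exp.2
          have hd : (0 : ℝ) < (((2 ^ k - 1) * n.choose k : ℕ) : ℝ) := by exact_mod_cast hpos
          have h7 : (((z : ℝ) - h) * (n - z).choose (k - 1) /
            (((2 ^ k - 1) * n.choose k : ℕ) : ℝ)) ≤ ((Ω.filter (fun c => ∃ x ∈ Z \ H,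
              tl A c = {x} ∧ Disjoint (c.1.erase x) Z)).card : ℝ) /
                (((2 ^ k - 1) * n.choose k : ℕ) : ℝ) := by gcongr
          have h8 : (M : ℝ) * (((z : ℝ) - h) * (n - z).choose (k - 1) /
            (((2 ^ k - 1) * n.choose k : ℕ) : ℝ)) ≤ (M : ℝ) * (((Ω.filter (fun c => ∃ x ∈ Z \ H,
              tl A c = {x} ∧ Disjoint (c.1.erase x) Z)).card : ℝ) /
                (((2 ^ k - 1) * n.choose k : ℕ) : ℝ)) := by gcongr
          linarith
        gcongr
  -- union bound
  have hsub : (Ω.powersetCard M).filter (fun F => B1 F A z h)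
      ⊆ (powersetCard z (univ : Finset (Fin n))).biUnion (fun Z =>
          (Z.powerset.filter (fun H => H.card ≤ h)).biUnion (fun H =>
            (Ω.powersetCard M).filter (fun F => ∀ x ∈ Z \ H, supp F A x Z ≤ 1))) := by
    intro F hF
    simp only [mem_filter] at hF
    obtain ⟨hF1, H, Z, hHZ, hZ, hH, hall⟩ := hF
    simp only [mem_biUnion, mem_filter, mem_powersetCard, mem_powerset]
    exact ⟨Z, ⟨subset_univ _, hZ⟩, H, ⟨hHZ, hH⟩, by simpa [mem_powersetCard] using hF1, hall⟩
  have hbnn : 0 ≤ b := by rw [hb]; positivity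
  calc ((((satClauses n k A).powersetCard M).filter (fun F => B1 F A z h)).card : ℝ)
      ≤ (((powersetCard z (univ : Finset (Fin n))).biUnion (fun Z =>
          (Z.powerset.filter (fun H => H.card ≤ h)).biUnion (fun H =>
            (Ω.powersetCard M).filter (fun F => ∀ x ∈ Z \ H, supp F A x Z ≤ 1)))).card : ℝ) := by
        exact_mod_cast card_le_card hsub
    _ ≤ ∑ Z ∈ powersetCard z (univ : Finset (Fin n)),
          (((Z.powerset.filter (fun H => H.card ≤ h)).biUnion (fun H =>
            (Ω.powersetCard M).filter (fun F => ∀ x ∈ Z \ H, supp F A x Z ≤ 1))).card : ℝ) := by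
        exact_mod_cast card_biUnion_le
    _ ≤ ∑ Z ∈ powersetCard z (univ : Finset (Fin n)),
          ∑ H ∈ Z.powerset.filter (fun H => H.card ≤ h),
            (((Ω.powersetCard M).filter (fun F => ∀ x ∈ Z \ H, supp F A x Z ≤ 1)).card : ℝ) := by
        apply sum_le_sum
        intro Z _
        exact_mod_cast card_biUnion_le
    _ ≤ ∑ Z ∈ powersetCard z (univ : Finset (Fin n)),
          ∑ H ∈ Z.powerset.filter (fun H => H.card ≤ h), b := by
        apply sum_le_sum
        intro Z hZ
        apply sum_le_sum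
        intro H hH
        rw [mem_powersetCard] at hZ
        rw [mem_filter, mem_powerset] at hH
        exact key Z H hH.1 hZ.2 hH.2
    _ ≤ ∑ Z ∈ powersetCard z (univ : Finset (Fin n)), 2 ^ z * b := by
        apply sum_le_sum
        intro Z hZ
        rw [mem_powersetCard] at hZ
        rw [sum_const, nsmul_eq_mul]
        have : ((Z.powerset.filter (fun H => H.card ≤ h)).card : ℝ) ≤ 2 ^ z := by
          have h1 : (Z.powerset.filter (fun H => H.card ≤ h)).card ≤ Z.powerset.card :=
            card_filter_le _ _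
          rw [card_powerset, hZ.2] at h1
          exact_mod_cast h1
        gcongr
    _ = (n.choose z : ℝ) * (2 ^ z * b) := by
        rw [sum_const, nsmul_eq_mul, card_powersetCard]; simp
    _ = _ := by
        rw [hb]
        have : (4 : ℝ) ^ z = 2 ^ z * 2 ^ z := by rw [← mul_pow]; norm_num
        rw [this]; ring

open Classical in
theorem card_B3 {n k : ℕ} (A : Fin n → Bool) (M z y : ℕ)
    (hM : 2 * M ^ 2 ≤ (2 ^ k - 1) * n.choose k) (hpos : 0 < (2 ^ k - 1) * n.choose k) :
    ((((satClauses n k A).powersetCard M).filter (fun F => B3 F A z y)).card : ℝ)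
      ≤ (∑ j ∈ range (z + 1), (n.choose j : ℝ)) * (2 * (((2 ^ k - 1) * n.choose k).choose M : ℝ) *
        Real.exp (2 * (M * ((((n : ℝ) + z) ^ k / k.factorial - n.choose k) /
          ((2 ^ k - 1) * n.choose k : ℕ)))) / 3 ^ y) := by
  set Ω := satClauses n k A with hΩ
  have hΩc : Ω.card = (2 ^ k - 1) * n.choose k := card_satClauses A
  set b : ℝ := 2 * (((2 ^ k - 1) * n.choose k).choose M : ℝ) *
        Real.exp (2 * (M * ((((n : ℝ) + z) ^ k / k.factorial - n.choose k) /
          ((2 ^ k - 1) * n.choose k : ℕ)))) / 3 ^ y with hb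
  have key : ∀ Z : Finset (Fin n), Z.card ≤ z →
      (((Ω.powersetCard M).filter (fun F => y ≤ (F.filter (fun c => tl A c ⊆ Z)).card)).card : ℝ)
        ≤ b := by
    intro Z hZ
    have e2 := upper_tail Ω (fun c => tl A c ⊆ Z) M y 3
      (by norm_num) (by rw [hΩc]; exact hM) (by rw [hΩc]; exact hpos)
    have e3 : (Ω.filter (fun c => tl A c ⊆ Z)).card
        = ((clauses n k).filter (fun c => c.2.Nonempty ∧ c.2 ⊆ Z)).card :=
      card_satClauses_filter A (fun c => c.2 ⊆ Z)
    have e4 := card_inside_le (k := k) Z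
    refine le_trans e2 ?_
    rw [hb, e3, hΩc]
    have e5 : ((3 : ℝ) - 1) = 2 := by norm_num
    rw [e5]
    have e6 : ((n : ℝ) + Z.card) ^ k / k.factorial - n.choose k
        ≤ ((n : ℝ) + z) ^ k / k.factorial - n.choose k := by
      have : (Z.card : ℝ) ≤ z := by exact_mod_cast hZ
      gcongr
    gcongr
    exact le_trans e4 e6
  have hbnn : 0 ≤ b := by rw [hb]; positivity
  have hsub : (Ω.powersetCard M).filter (fun F => B3 F A z y)
      ⊆ (univ.filter (fun Z : Finset (Fin n) => Z.card ≤ z)).biUnion (fun Z =>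
            (Ω.powersetCard M).filter (fun F => y ≤ (F.filter (fun c => tl A c ⊆ Z)).card)) := by
    intro F hF
    simp only [mem_filter] at hF
    obtain ⟨hF1, Z, hZ, hall⟩ := hF
    simp only [mem_biUnion, mem_filter, mem_univ, true_and]
    exact ⟨Z, hZ, hF1, hall⟩
  calc ((((satClauses n k A).powersetCard M).filter (fun F => B3 F A z y)).card : ℝ)
      ≤ (((univ.filter (fun Z : Finset (Fin n) => Z.card ≤ z)).biUnion (fun Z =>
            (Ω.powersetCard M).filter
              (fun F => y ≤ (F.filter (fun c => tl A c ⊆ Z)).card))).card : ℝ) := by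
        exact_mod_cast card_le_card hsub
    _ ≤ ∑ Z ∈ univ.filter (fun Z : Finset (Fin n) => Z.card ≤ z),
          (((Ω.powersetCard M).filter
            (fun F => y ≤ (F.filter (fun c => tl A c ⊆ Z)).card)).card : ℝ) := by
        exact_mod_cast card_biUnion_le
    _ ≤ ∑ Z ∈ univ.filter (fun Z : Finset (Fin n) => Z.card ≤ z), b := by
        apply sum_le_sum
        intro Z hZ
        rw [mem_filter] at hZ
        exact key Z hZ.2
    _ = _ := by
        rw [sum_const, nsmul_eq_mul, card_small_sets]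

open Classical in
theorem card_B4 {n k : ℕ} (A : Fin n → Bool) (M l y : ℕ) (hk : 1 ≤ k)
    (hM : 2 * M ^ 2 ≤ (2 ^ k - 1) * n.choose k) (hpos : 0 < (2 ^ k - 1) * n.choose k) :
    ((((satClauses n k A).powersetCard M).filter (fun F => B4 F A l y)).card : ℝ)
      ≤ (∑ j ∈ range (l + 1), (n.choose j : ℝ)) * (2 * (((2 ^ k - 1) * n.choose k).choose M : ℝ) *
        Real.exp (2 * (M * (((l : ℝ) * (n - 1).choose (k - 1)) /
          ((2 ^ k - 1) * n.choose k : ℕ)))) / 3 ^ y) := by
  set Ω := satClauses n k A with hΩ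
  have hΩc : Ω.card = (2 ^ k - 1) * n.choose k := card_satClauses A
  set b : ℝ := 2 * (((2 ^ k - 1) * n.choose k).choose M : ℝ) *
        Real.exp (2 * (M * (((l : ℝ) * (n - 1).choose (k - 1)) /
          ((2 ^ k - 1) * n.choose k : ℕ)))) / 3 ^ y with hb
  have key : ∀ Z : Finset (Fin n), Z.card ≤ l →
      (((Ω.powersetCard M).filter
        (fun F => y ≤ (F.filter (fun c => ∃ x ∈ Z, tl A c = {x})).card)).card : ℝ) ≤ b := by
    intro Z hZ
    have e2 := upper_tail Ω (fun c => ∃ x ∈ Z, tl A c = {x}) M y 3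
      (by norm_num) (by rw [hΩc]; exact hM) (by rw [hΩc]; exact hpos)
    have e3 : (Ω.filter (fun c => ∃ x ∈ Z, tl A c = {x})).card
        = ((clauses n k).filter (fun c => c.2.Nonempty ∧ ∃ x ∈ Z, c.2 = {x})).card :=
      card_satClauses_filter A (fun c => ∃ x ∈ Z, c.2 = {x})
    have e3' : ((clauses n k).filter (fun c => c.2.Nonempty ∧ ∃ x ∈ Z, c.2 = {x})).card
        ≤ ((clauses n k).filter (fun c => ∃ x ∈ Z, c.2 = {x})).card := by
      apply card_le_card
      intro c hc
      simp only [mem_filter] at hc ⊢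
      exact ⟨hc.1, hc.2.2⟩
    have e4 := card_unit_le (k := k) Z hk
    refine le_trans e2 ?_
    rw [hb, e3, hΩc]
    have e5 : ((3 : ℝ) - 1) = 2 := by norm_num
    rw [e5]
    have e6 : (((clauses n k).filter (fun c => c.2.Nonempty ∧ ∃ x ∈ Z, c.2 = {x})).card : ℝ)
        ≤ (l : ℝ) * (n - 1).choose (k - 1) := by
      have h1 : ((clauses n k).filter (fun c => c.2.Nonempty ∧ ∃ x ∈ Z, c.2 = {x})).card
        ≤ l * (n - 1).choose (k - 1) :=
        le_trans e3' (le_trans e4 (Nat.mul_le_mul_right _ hZ))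
      exact_mod_cast h1
    gcongr
  have hbnn : 0 ≤ b := by rw [hb]; positivity
  have hsub : (Ω.powersetCard M).filter (fun F => B4 F A l y)
      ⊆ (univ.filter (fun Z : Finset (Fin n) => Z.card ≤ l)).biUnion (fun Z =>
            (Ω.powersetCard M).filter
              (fun F => y ≤ (F.filter (fun c => ∃ x ∈ Z, tl A c = {x})).card)) := by
    intro F hF
    simp only [mem_filter] at hF
    obtain ⟨hF1, Z, hZ, hall⟩ := hF
    simp only [mem_biUnion, mem_filter, mem_univ, true_and]
    exact ⟨Z, hZ, hF1, hall⟩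
  calc ((((satClauses n k A).powersetCard M).filter (fun F => B4 F A l y)).card : ℝ)
      ≤ (((univ.filter (fun Z : Finset (Fin n) => Z.card ≤ l)).biUnion (fun Z =>
            (Ω.powersetCard M).filter
              (fun F => y ≤ (F.filter (fun c => ∃ x ∈ Z, tl A c = {x})).card))).card : ℝ) := by
        exact_mod_cast card_le_card hsub
    _ ≤ ∑ Z ∈ univ.filter (fun Z : Finset (Fin n) => Z.card ≤ l),
          (((Ω.powersetCard M).filter
            (fun F => y ≤ (F.filter (fun c => ∃ x ∈ Z, tl A c = {x})).card)).card : ℝ) := by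
        exact_mod_cast card_biUnion_le
    _ ≤ ∑ Z ∈ univ.filter (fun Z : Finset (Fin n) => Z.card ≤ l), b := by
        apply sum_le_sum
        intro Z hZ
        rw [mem_filter] at hZ
        exact key Z hZ.2
    _ = _ := by
        rw [sum_const, nsmul_eq_mul, card_small_sets]

theorem sum_biUnion_le' {α β : Type*} [DecidableEq β] (s : Finset α) (t : α → Finset β)
    (f : β → ℝ) (hf : ∀ x, 0 ≤ f x) :
    ∑ x ∈ s.biUnion t, f x ≤ ∑ a ∈ s, ∑ x ∈ t a, f x := by
  classical
  induction s using Finset.induction_on with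
  | empty => simp
  | insert a s ha ih =>
    rw [biUnion_insert, sum_insert ha]
    have h1 : ∑ x ∈ t a ∪ s.biUnion t, f x + ∑ x ∈ t a ∩ s.biUnion t, f x
        = ∑ x ∈ t a, f x + ∑ x ∈ s.biUnion t, f x := sum_union_inter
    have h2 : 0 ≤ ∑ x ∈ t a ∩ s.biUnion t, f x := sum_nonneg (fun x _ => hf x)
    linarith

/-- Number of small dense structures, weighted. -/
theorem obs_sum_le {n k i : ℕ} (Ω : Finset (Cl n)) (hΩ : Ω ⊆ clauses n k) (hk : 2 ≤ k)
    (ρ : ℝ) (hρ : 0 ≤ ρ) :
    ∃ O : Finset (Finset (Cl n)), (∀ T, IsObs i T → T ⊆ Ω → T ∈ O) ∧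
      ∑ T ∈ O, ρ ^ T.card ≤
        ∑ s ∈ range (i + 1), ((n : ℝ) * (s * (2 ^ k * (n - 2).choose (k - 2))) * ρ) ^ s := by
  classical
  let cl : (s : ℕ) → (Fin s → Fin n) → Fin s → Finset (Cl n) := fun s x j =>
    (clauses n k).filter (fun c => x j ∈ c.1 ∧ ∃ j', j' ≠ j ∧ x j' ∈ c.1)
  have hcl : ∀ (s : ℕ) (x : Fin s → Fin n) (j : Fin s), Function.Injective x →
      (cl s x j).card ≤ s * (2 ^ k * (n - 2).choose (k - 2)) := by
    intro s x j hx
    have h1 : cl s x j ⊆ (univ.erase j).biUnion (fun j' =>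
        (clauses n k).filter (fun c => x j ∈ c.1 ∧ x j' ∈ c.1)) := by
      intro c hc
      simp only [cl, mem_filter] at hc
      obtain ⟨h1, h2, j', h3, h4⟩ := hc
      simp only [mem_biUnion, mem_erase, mem_univ, and_true, mem_filter]
      exact ⟨j', h3, h1, h2, h4⟩
    refine le_trans (card_le_card h1) (le_trans card_biUnion_le ?_)
    calc ∑ j' ∈ univ.erase j, ((clauses n k).filter (fun c => x j ∈ c.1 ∧ x j' ∈ c.1)).card
        ≤ ∑ j' ∈ univ.erase j, 2 ^ k * (n - 2).choose (k - 2) := by
          apply sum_le_sum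
          intro j' hj'
          rw [mem_erase] at hj'
          have := card_clauses_var (n := n) (k := k) (fun K => x j ∈ K ∧ x j' ∈ K)
          rw [this]
          exact Nat.mul_le_mul_left _
            (card_sets_mem2 (x j) (x j') (fun h => hj'.1 (hx h).symm) hk)
      _ = (univ.erase j : Finset (Fin s)).card * (2 ^ k * (n - 2).choose (k - 2)) := by simp
      _ ≤ _ := by
          apply Nat.mul_le_mul_right
          refine le_trans (card_erase_le) ?_
          simp
  let O' : ℕ → Finset (Finset (Cl n)) := fun s =>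
    ((univ : Finset (Fin s → Fin n)).filter (fun x => Function.Injective x)).biUnion (fun x =>
      ((Fintype.piFinset (cl s x)).filter (fun c => Function.Injective c)).image
        (fun c => univ.image c))
  refine ⟨(range (i + 1)).biUnion O', ?_, ?_⟩
  · rintro T ⟨s, hs1, hs2, x, c, hx, hc, rfl, hall⟩ hT
    simp only [mem_biUnion, mem_range]
    refine ⟨s, by omega, ?_⟩
    simp only [O', mem_biUnion, mem_filter, mem_univ, true_and, mem_image,
      Fintype.mem_piFinset]
    refine ⟨x, hx, c, ⟨fun j => ?_, hc⟩, rfl⟩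
    simp only [cl, mem_filter]
    exact ⟨hΩ (hT (mem_image_of_mem _ (mem_univ _))), hall j⟩
  · refine le_trans (sum_biUnion_le' _ _ _ (fun T => by positivity)) ?_
    apply sum_le_sum
    intro s _
    have hcard : ((O' s).card : ℝ) ≤ ((n : ℝ) * (s * (2 ^ k * (n - 2).choose (k - 2)))) ^ s := by
      have h1 : (O' s).card ≤ ∑ x ∈ (univ : Finset (Fin s → Fin n)).filter
          (fun x => Function.Injective x), (s * (2 ^ k * (n - 2).choose (k - 2))) ^ s := by
        refine le_trans card_biUnion_le ?_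
        apply sum_le_sum
        intro x hx
        rw [mem_filter] at hx
        refine le_trans card_image_le (le_trans (card_filter_le _ _) ?_)
        rw [Fintype.card_piFinset]
        calc ∏ j, (cl s x j).card ≤ ∏ j : Fin s, (s * (2 ^ k * (n - 2).choose (k - 2))) :=
              prod_le_prod' (fun j _ => hcl s x j hx.2)
          _ = _ := by simp
      have h2 : ∑ x ∈ (univ : Finset (Fin s → Fin n)).filter
          (fun x => Function.Injective x), (s * (2 ^ k * (n - 2).choose (k - 2))) ^ s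
          ≤ n ^ s * (s * (2 ^ k * (n - 2).choose (k - 2))) ^ s := by
        rw [sum_const, smul_eq_mul]
        apply Nat.mul_le_mul_right
        refine le_trans (card_filter_le _ _) ?_
        simp
      have h3 := le_trans h1 h2
      rw [← mul_pow] at h3
      exact_mod_cast h3
    have hT : ∀ T ∈ O' s, T.card = s := by
      intro T hT
      simp only [O', mem_biUnion, mem_filter, mem_univ, true_and, mem_image] at hT
      obtain ⟨x, _, c, ⟨_, hc⟩, rfl⟩ := hT
      rw [card_image_of_injective _ hc]; simp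
    rw [sum_congr rfl (fun T hT' => by rw [hT T hT'])]
    rw [sum_const, nsmul_eq_mul, mul_pow]
    gcongr

open Classical in
theorem card_B2 {n k i : ℕ} (A : Fin n → Bool) (M t0 : ℕ) (hk : 2 ≤ k)
    (hpos : 0 < (2 ^ k - 1) * n.choose k) :
    ((((satClauses n k A).powersetCard M).filter (fun F => B2 F i t0)).card : ℝ)
      ≤ (((2 ^ k - 1) * n.choose k).choose M : ℝ) *
        ((∑ s ∈ range (i + 1), ((n : ℝ) * (s * (2 ^ k * (n - 2).choose (k - 2))) *
          ((M : ℝ) / ((2 ^ k - 1) * n.choose k : ℕ))) ^ s) ^ t0 / t0.factorial) := by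
  set Ω := satClauses n k A with hΩ
  have hΩc : Ω.card = (2 ^ k - 1) * n.choose k := card_satClauses A
  set ρ : ℝ := (M : ℝ) / ((2 ^ k - 1) * n.choose k : ℕ) with hρ
  have hρ0 : 0 ≤ ρ := by rw [hρ]; positivity
  obtain ⟨O, hO1, hO2⟩ := obs_sum_le (i := i) Ω (filter_subset _ _) hk ρ hρ0
  have hsub : (Ω.powersetCard M).filter (fun F => B2 F i t0)
      ⊆ ((powersetCard t0 O).filter
          (fun D : Finset (Finset (Cl n)) => (D : Set (Finset (Cl n))).PairwiseDisjoint id)).biUnion (fun D =>
            (Ω.powersetCard M).filter (fun F => D.biUnion id ⊆ F)) := by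
    intro F hF
    simp only [mem_filter, mem_powersetCard] at hF
    obtain ⟨⟨hF1, hF2⟩, D, hD1, hD2, hD3⟩ := hF
    simp only [mem_biUnion, mem_filter, mem_powersetCard]
    refine ⟨D, ⟨⟨?_, hD1⟩, hD3⟩, ⟨hF1, hF2⟩, ?_⟩
    · intro T hT
      exact hO1 T (hD2 T hT).1 ((hD2 T hT).2.trans hF1)
    · intro c hc
      rw [mem_biUnion] at hc
      obtain ⟨T, hT, hcT⟩ := hc
      exact (hD2 T hT).2 hcT
  calc ((((satClauses n k A).powersetCard M).filter (fun F => B2 F i t0)).card : ℝ)
      ≤ ((((powersetCard t0 O).filter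
          (fun D : Finset (Finset (Cl n)) => (D : Set (Finset (Cl n))).PairwiseDisjoint id)).biUnion (fun D =>
            (Ω.powersetCard M).filter (fun F => D.biUnion id ⊆ F))).card : ℝ) := by
        exact_mod_cast card_le_card hsub
    _ ≤ ∑ D ∈ (powersetCard t0 O).filter
          (fun D : Finset (Finset (Cl n)) => (D : Set (Finset (Cl n))).PairwiseDisjoint id),
            (((Ω.powersetCard M).filter (fun F => D.biUnion id ⊆ F)).card : ℝ) := by
        exact_mod_cast card_biUnion_le
    _ ≤ ∑ D ∈ (powersetCard t0 O).filter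
          (fun D : Finset (Finset (Cl n)) => (D : Set (Finset (Cl n))).PairwiseDisjoint id),
            (Ω.card.choose M : ℝ) * ∏ T ∈ D, ρ ^ T.card := by
        apply sum_le_sum
        intro D hD
        rw [mem_filter] at hD
        have h1 := card_superset_le Ω (D.biUnion id) M (by rw [hΩc]; exact hpos)
        refine le_trans h1 ?_
        rw [card_biUnion (fun a ha b hb hab => hD.2 ha hb hab), prod_pow_eq_pow_sum]
        rw [hρ, ← hΩc]
        simp only [id]
        exact le_refl _
    _ ≤ ∑ D ∈ powersetCard t0 O, (Ω.card.choose M : ℝ) * ∏ T ∈ D, ρ ^ T.card := by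
        apply sum_le_sum_of_subset_of_nonneg (filter_subset _ _)
        intros
        have : ∀ T : Finset (Cl n), 0 ≤ ρ ^ T.card := fun T => by positivity
        exact mul_nonneg (by positivity) (prod_nonneg (fun T _ => this T))
    _ = (Ω.card.choose M : ℝ) * ∑ D ∈ powersetCard t0 O, ∏ T ∈ D, ρ ^ T.card := by
        rw [mul_sum]
    _ ≤ (Ω.card.choose M : ℝ) * ((∑ T ∈ O, ρ ^ T.card) ^ t0 / t0.factorial) := by
        gcongr
        exact esymm_le O (fun T => ρ ^ T.card) (fun T _ => by positivity) t0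
    _ ≤ _ := by
        rw [hΩc]
        have h0 : 0 ≤ ∑ T ∈ O, ρ ^ T.card := sum_nonneg (fun T _ => by positivity)
        gcongr

end Pool.Agent.H986R2.KSat
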