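import Pool.Agent.H986R2.KSat.Harmless
import Pool.Agent.H986R2.KSat.Asym

open Finset Filter Topology

namespace Pool.Agent.H986R2.KSat

theorem card_formulas (n k M : ℕ) :
    (formulas n k M).card = (2 ^ k * n.choose k).choose M := by
  rw [formulas, card_powersetCard, card_clauses]

open Classical in
theorem probSat_eq (k n M : ℕ) : probSat k n M
    = (((formulas n k M).filter (fun F => Satisfiable F)).card : ℝ) /
        ((2 ^ k * n.choose k).choose M : ℝ) := by
  unfold probSat
  rw [card_formulas]
  congr 2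
  rw [← Set.ncard_coe_finset]
  congr 1
  ext F
  simp

/-- Deterministic part of the variance bound. -/
theorem few_iso (n k M : ℕ) (hn : 2 ≤ n) (hk1 : 1 ≤ k) (ξ : ℝ) (hξ : 0 < ξ)
    (hC : 0 < (2 ^ k * n.choose k).choose M) (hCx : 0 < (2 ^ k * (n - 1).choose k).choose M) :
    (((formulas n k M).filter (fun F => ((iso F).card : ℝ) <
        (1 - ξ) * (n * (2 ^ k * (n - 1).choose k).choose M / (2 ^ k * n.choose k).choose M))).card : ℝ)
      ≤ (2 ^ k * n.choose k).choose M /
        (ξ ^ 2 * (n * (2 ^ k * (n - 1).choose k).choose M / (2 ^ k * n.choose k).choose M)) := by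
  set N := (2 ^ k * n.choose k).choose M with hN
  set Nx := (2 ^ k * (n - 1).choose k).choose M with hNx
  set m : ℝ := n * Nx / N with hm
  have hNr : (0 : ℝ) < N := by exact_mod_cast hC
  have hNxr : (0 : ℝ) < Nx := by exact_mod_cast hCx
  have hnr : (0 : ℝ) < n := by
    have : 0 < n := by omega
    exact_mod_cast this
  have hmpos : 0 < m := by rw [hm]; positivity
  rw [le_div_iff₀ (by positivity)]
  have hvar : ∑ F ∈ formulas n k M, (((iso F).card : ℝ) - m) ^ 2 ≤ m * N := by
    have e1 : ∑ F ∈ formulas n k M, (((iso F).card : ℝ) - m) ^ 2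
        = ∑ F ∈ formulas n k M, ((iso F).card : ℝ) ^ 2
          - 2 * m * ∑ F ∈ formulas n k M, ((iso F).card : ℝ) + m ^ 2 * N := by
      have : ∀ F ∈ formulas n k M, (((iso F).card : ℝ) - m) ^ 2
          = ((iso F).card : ℝ) ^ 2 - 2 * m * ((iso F).card : ℝ) + m ^ 2 := by
        intro F _; ring
      rw [sum_congr rfl this, sum_add_distrib, sum_sub_distrib, ← mul_sum, sum_const,
        card_formulas, nsmul_eq_mul]
      ring
    have e2 : ∑ F ∈ formulas n k M, ((iso F).card : ℝ) = n * Nx := by
      have := sum_iso n k M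
      exact_mod_cast this
    have e3 : ∑ F ∈ formulas n k M, ((iso F).card : ℝ) ^ 2
        ≤ n * Nx + n * n * (2 ^ k * (n - 2).choose k).choose M := by
      have := sum_iso_sq n k M
      exact_mod_cast this
    have hmono1 : (n - 2).choose k ≤ (n - 1).choose k := Nat.choose_le_choose k (by omega)
    have hmono2 : (n - 1).choose k ≤ n.choose k := Nat.choose_le_choose k (by omega)
    obtain ⟨k', rfl⟩ : ∃ k', k = k' + 1 := ⟨k - 1, by omega⟩
    obtain ⟨n', rfl⟩ : ∃ n', n = n' + 2 := ⟨n - 2, by omega⟩
    have hp1 : (n' + 2).choose (k' + 1) = (n' + 1).choose k' + (n' + 1).choose (k' + 1) :=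
      Nat.choose_succ_succ _ _
    have hp2 : (n' + 1).choose (k' + 1) = n'.choose k' + n'.choose (k' + 1) :=
      Nat.choose_succ_succ _ _
    have e4 : (2 ^ (k' + 1) * (n' + 2 - 2).choose (k' + 1)).choose M *
          (2 ^ (k' + 1) * (n' + 2).choose (k' + 1)).choose M
        ≤ (2 ^ (k' + 1) * (n' + 2 - 1).choose (k' + 1)).choose M *
          (2 ^ (k' + 1) * (n' + 2 - 1).choose (k' + 1)).choose M := by
      apply choose_mul_choose_le
      · exact Nat.mul_le_mul_left _ hmono1
      · exact Nat.mul_le_mul_left _ hmono2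
      · have hlc : n'.choose (k' + 1) * (n' + 2).choose (k' + 1)
            ≤ (n' + 1).choose (k' + 1) * (n' + 1).choose (k' + 1) := by
          have r1 := Nat.choose_mul_succ_eq n' (k' + 1)
          have r2 := Nat.choose_mul_succ_eq (n' + 1) (k' + 1)
          -- n'.choose (k'+1) * (n'+1) = (n'+1).choose (k'+1) * (n'+1-(k'+1))
          -- (n'+1).choose (k'+1) * (n'+2) = (n'+2).choose (k'+1) * (n'+2-(k'+1))
          by_cases hk' : k' + 1 ≤ n'
          · have hpos : 0 < (n' + 1) * (n' + 2 - (k' + 1)) := by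
              apply Nat.mul_pos <;> omega
            apply Nat.le_of_mul_le_mul_right _ hpos
            have r2' : (n' + 1).choose (k' + 1) * (n' + 2)
                = (n' + 2).choose (k' + 1) * (n' + 2 - (k' + 1)) := r2
            calc n'.choose (k' + 1) * (n' + 2).choose (k' + 1) * ((n' + 1) * (n' + 2 - (k' + 1)))
                = (n'.choose (k' + 1) * (n' + 1)) *
                    ((n' + 2).choose (k' + 1) * (n' + 2 - (k' + 1))) := by ring
              _ = ((n' + 1).choose (k' + 1) * (n' + 1 - (k' + 1))) *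
                    ((n' + 1).choose (k' + 1) * (n' + 2)) := by rw [r1, r2']
              _ = ((n' + 1).choose (k' + 1) * (n' + 1).choose (k' + 1)) *
                    ((n' + 1 - (k' + 1)) * (n' + 2)) := by ring
              _ ≤ ((n' + 1).choose (k' + 1) * (n' + 1).choose (k' + 1)) *
                    ((n' + 1) * (n' + 2 - (k' + 1))) := by
                  apply Nat.mul_le_mul_left
                  obtain ⟨j, hj⟩ : ∃ j, n' = k' + 1 + j := ⟨n' - (k' + 1), by omega⟩
                  subst hj
                  have a1 : k' + 1 + j + 1 - (k' + 1) = j + 1 := by omega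
                  have a2 : k' + 1 + j + 2 - (k' + 1) = j + 2 := by omega
                  rw [a1, a2]
                  nlinarith
          · rw [Nat.choose_eq_zero_of_lt (by omega : n' < k' + 1)]; simp
        simp only [Nat.add_sub_cancel]
        have : n' + 2 - 1 = n' + 1 := by omega
        rw [this]
        calc 2 ^ (k' + 1) * n'.choose (k' + 1) * (2 ^ (k' + 1) * (n' + 2).choose (k' + 1))
            = (2 ^ (k' + 1) * 2 ^ (k' + 1)) * (n'.choose (k' + 1) * (n' + 2).choose (k' + 1)) := by
              ring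
          _ ≤ (2 ^ (k' + 1) * 2 ^ (k' + 1)) *
                ((n' + 1).choose (k' + 1) * (n' + 1).choose (k' + 1)) :=
              Nat.mul_le_mul_left _ hlc
          _ = _ := by ring
      · simp only [Nat.add_sub_cancel]
        have : n' + 2 - 1 = n' + 1 := by omega
        rw [this]
        have hmono3 : n'.choose k' ≤ (n' + 1).choose k' := Nat.choose_le_choose k' (by omega)
        have h6 : 2 * (n' + 1).choose (k' + 1) ≤ n'.choose (k' + 1) + (n' + 2).choose (k' + 1) := by
          omega
        calc 2 * (2 ^ (k' + 1) * (n' + 1).choose (k' + 1))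
            = 2 ^ (k' + 1) * (2 * (n' + 1).choose (k' + 1)) := by ring
          _ ≤ 2 ^ (k' + 1) * (n'.choose (k' + 1) + (n' + 2).choose (k' + 1)) :=
              Nat.mul_le_mul_left _ h6
          _ = _ := by ring
    have e5 : (((2 ^ (k' + 1) * (n' + 2 - 2).choose (k' + 1)).choose M : ℕ) : ℝ) ≤ Nx ^ 2 / N := by
      rw [le_div_iff₀ hNr]
      have : ((2 ^ (k' + 1) * (n' + 2 - 2).choose (k' + 1)).choose M) * N ≤ Nx ^ 2 := by
        rw [sq]; exact e4
      exact_mod_cast this
    have e6 : ((n' + 2 : ℕ) : ℝ) * ((n' + 2 : ℕ) : ℝ) *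
        ((2 ^ (k' + 1) * (n' + 2 - 2).choose (k' + 1)).choose M : ℕ) ≤ m ^ 2 * N := by
      have : m ^ 2 * N = ((n' + 2 : ℕ) : ℝ) * ((n' + 2 : ℕ) : ℝ) * (Nx ^ 2 / N) := by
        rw [hm]; field_simp
      rw [this]
      gcongr
    have e7 : ((n' + 2 : ℕ) : ℝ) * Nx = m * N := by rw [hm]; field_simp
    rw [e1, e2]
    rw [e7] at e3 ⊢
    have e8 : 2 * m * (m * N) = 2 * (m ^ 2 * N) := by ring
    rw [e8]
    have e3' : ∑ F ∈ formulas (n' + 2) (k' + 1) M, ((iso F).card : ℝ) ^ 2
        ≤ m * N + m ^ 2 * N := le_trans e3 (by linarith)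
    linarith
  calc (((formulas n k M).filter (fun F => ((iso F).card : ℝ) < (1 - ξ) * m)).card : ℝ) *
        (ξ ^ 2 * m)
      = (∑ F ∈ (formulas n k M).filter (fun F => ((iso F).card : ℝ) < (1 - ξ) * m),
          (ξ * m) ^ 2) / m := by
        rw [sum_const, nsmul_eq_mul]; field_simp
    _ ≤ (∑ F ∈ (formulas n k M).filter (fun F => ((iso F).card : ℝ) < (1 - ξ) * m),
          (((iso F).card : ℝ) - m) ^ 2) / m := by
        apply div_le_div_of_nonneg_right _ hmpos.le
        apply sum_le_sum
        intro F hF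
        rw [mem_filter] at hF
        have h1 : ((iso F).card : ℝ) - m ≤ -(ξ * m) := by linarith [hF.2]
        have h2 : 0 ≤ ξ * m := by positivity
        nlinarith
    _ ≤ (∑ F ∈ formulas n k M, (((iso F).card : ℝ) - m) ^ 2) / m := by
        gcongr
        exact filter_subset _ _
    _ ≤ (m * N) / m := by gcongr
    _ = N := by field_simp

/-- Markov inequality for the number of variables of degree one. -/
theorem many_deg1 (n k M : ℕ) (hk : 1 ≤ k) (hM : 1 ≤ M) (ξ D : ℝ) (hξ : 0 < ξ) (hD : 0 < D)
    (hDle : (n : ℝ) * ((2 ^ k * (n - 1).choose (k - 1)) *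
      (2 ^ k * (n - 1).choose k).choose (M - 1)) ≤ D * (2 ^ k * n.choose k).choose M) :
    (((formulas n k M).filter (fun F => (1 + ξ) * D < ((deg1 F).card : ℝ))).card : ℝ)
      ≤ (2 ^ k * n.choose k).choose M / (1 + ξ) := by
  rw [le_div_iff₀ (by linarith)]
  have h1 : ∑ F ∈ formulas n k M, ((deg1 F).card : ℝ)
      ≤ D * (2 ^ k * n.choose k).choose M := by
    refine le_trans ?_ hDle
    have := sum_deg1 n k M hk hM
    exact_mod_cast this
  have h2 : (((formulas n k M).filter (fun F => (1 + ξ) * D < ((deg1 F).card : ℝ))).card : ℝ) *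
      ((1 + ξ) * D) ≤ D * (2 ^ k * n.choose k).choose M := by
    calc (((formulas n k M).filter (fun F => (1 + ξ) * D < ((deg1 F).card : ℝ))).card : ℝ) *
        ((1 + ξ) * D)
        = ∑ F ∈ (formulas n k M).filter (fun F => (1 + ξ) * D < ((deg1 F).card : ℝ)),
            (1 + ξ) * D := by rw [sum_const, nsmul_eq_mul]
      _ ≤ ∑ F ∈ (formulas n k M).filter (fun F => (1 + ξ) * D < ((deg1 F).card : ℝ)),
            ((deg1 F).card : ℝ) := by
          apply sum_le_sum
          intro F hF
          exact (mem_filter.1 hF).2.le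
      _ ≤ ∑ F ∈ formulas n k M, ((deg1 F).card : ℝ) := by
          apply sum_le_sum_of_subset_of_nonneg (filter_subset _ _)
          intros; positivity
      _ ≤ _ := h1
  have h3 : D * ((((formulas n k M).filter
      (fun F => (1 + ξ) * D < ((deg1 F).card : ℝ))).card : ℝ) * (1 + ξ))
      ≤ D * (2 ^ k * n.choose k).choose M := by
    calc _ = (((formulas n k M).filter (fun F => (1 + ξ) * D < ((deg1 F).card : ℝ))).card : ℝ) *
        ((1 + ξ) * D) := by ring
      _ ≤ _ := h2
  exact le_of_mul_le_mul_left h3 hD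

end Pool.Agent.H986R2.KSat
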