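import Pool.Agent.H986R2.KSat.Planted2
import Pool.Agent.H986R2.KSat.Quad

open Finset Filter Topology

namespace Pool.Agent.H986R2.KSat

theorem exists_lexmax {n : ℕ} (S : Finset (Fin n → Bool)) (h : S.Nonempty) :
    ∃ A ∈ S, ∀ B ∈ S, ¬ LexGT B A := by
  obtain ⟨A, hA, hmax⟩ := S.exists_max_image (fun A => (toLex A : Lex (Fin n → Bool))) h
  refine ⟨A, hA, fun B hB hlt => ?_⟩
  have h1 := hmax B hB
  have h2 : (toLex A : Lex (Fin n → Bool)) < toLex B := by
    obtain ⟨r, hr, h1, h2⟩ := hlt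
    refine ⟨r, fun j hj => (hr j hj).symm, ?_⟩
    change A r < B r
    rw [h1, h2]
    decide
  exact absurd h1 (not_le.2 h2)

open Classical in
theorem X_eq {n : ℕ} (i : ℕ) (F : Finset (Cl n)) :
    X i F = (univ.filter (fun A : Fin n → Bool => IMax i F A)).card := by
  unfold X
  rw [← Set.ncard_coe_finset]
  congr 1
  ext A; simp

theorem diff_ncard {n : ℕ} (A B : Fin n → Bool) :
    {v : Fin n | B v ≠ A v}.ncard = (univ.filter (fun v => B v ≠ A v)).card := by
  rw [← Set.ncard_coe_finset]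
  congr 1
  ext v; simp

theorem exists_supp {n : ℕ} {F : Finset (Cl n)} {A : Fin n → Bool} {W : Finset (Fin n)} {x : Fin n}
    (hx : x ∉ W) (h : 1 ≤ supp F A x W) : ∃ c ∈ F, tl A c = {x} ∧ Disjoint c.1 W := by
  unfold supp at h
  obtain ⟨c, hc⟩ := card_pos.1 h
  rw [mem_filter] at hc
  refine ⟨c, hc.1, hc.2.1, ?_⟩
  have h1 := hc.2.2
  rw [Finset.disjoint_left] at h1 ⊢
  intro a ha haW
  by_cases hax : a = x
  · exact hx (hax ▸ haW)
  · exact h1 (mem_erase.2 ⟨hax, ha⟩) haW

/-- The data extracted from a good pair. -/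
theorem good_W {n k i l : ℕ} {F : Finset (Cl n)} {A : Fin n → Bool} (hk : 1 ≤ k)
    (hF : F ⊆ clauses n k) (hbad : ¬ BadF k i l F A) :
    ∃ W : Finset (Fin n), W.card < zz n k ∧ (∀ x, x ∉ W → 2 ≤ supp F A x W) ∧
      ∀ T, IsObs i T → T ⊆ F → ∃ c ∈ T, c.1 ⊆ W := by
  unfold BadF at hbad
  push Not at hbad
  obtain ⟨h1, h2, h3, h4⟩ := hbad
  obtain ⟨H, hH, hhit⟩ := exists_H (k := k) (fun c hc => (mem_clauses.1 (hF hc)).1) h2
  have hhz : tt n k i * (i * k) ≤ zz n k := by
    have e1 := tt_mul n k i hk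
    have e2 := zz_lower n k hk
    have hk0 : (0 : ℝ) < k := by exact_mod_cast hk
    have e3 : (n : ℝ) / (1000 * k) ≤ n / (10 * k) := by
      apply div_le_div_of_nonneg_left (by positivity) (by positivity)
      nlinarith
    exact_mod_cast le_trans e1 (le_trans e3 e2)
  obtain ⟨W, hHW, hWz, hsupp⟩ := exists_W H hH hhz h1
  refine ⟨W, hWz, hsupp, fun T hT hTF => ?_⟩
  obtain ⟨c, hc, hcH⟩ := hhit T hT hTF
  exact ⟨c, hc, hcH.trans hHW⟩

theorem exists_imax_near {n k i l : ℕ} {F : Finset (Cl n)} {A : Fin n → Bool} (hk : 1 ≤ k)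
    (hF : F ⊆ clauses n k) (hA : SatF A F) (hbad : ¬ BadF k i l F A) :
    ∃ A' : Fin n → Bool, IMax i F A' ∧ (univ.filter (fun v => A v ≠ A' v)).card ≤ zz n k := by
  classical
  obtain ⟨W, hWz, hsupp, hhit⟩ := good_W hk hF hbad
  obtain ⟨A', hA', hmax⟩ := exists_lexmax
    (univ.filter (fun B : Fin n → Bool => SatF B F ∧ ∀ v, v ∉ W → B v = A v))
    ⟨A, by simp [hA]⟩
  rw [mem_filter] at hA'
  obtain ⟨-, hsat, hag⟩ := hA'
  refine ⟨A', ⟨hsat, ?_⟩, ?_⟩
  · intro B hB hcard hlt
    rw [diff_ncard] at hcard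
    have hdiff := diff_subset (i := i) (F := F) (F' := F) (A := A') (B := B) (W := W)
      (Finset.Subset.refl F) hhit ?_ hB hcard
    · refine hmax B ?_ hlt
      rw [mem_filter]
      refine ⟨mem_univ _, hB, fun v hv => ?_⟩
      rw [← hag v hv]
      by_contra hne
      exact hv (hdiff v hne)
    · intro x hx
      obtain ⟨c, hc, htl, hdis⟩ := exists_supp hx (le_trans (by norm_num) (hsupp x hx))
      refine ⟨c, hc, ?_, hdis⟩
      rw [← htl]
      unfold tl
      apply filter_congr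
      intro v hv
      have : v ∉ W := Finset.disjoint_left.1 hdis hv
      rw [hag v this]
  · refine le_trans (card_le_card ?_) hWz.le
    intro v hv
    rw [mem_filter] at hv
    by_contra hvW
    exact hv.2 (hag v hvW).symm

theorem ball_card {n : ℕ} (B : Fin n → Bool) (z : ℕ) :
    (univ.filter (fun A : Fin n → Bool => (univ.filter (fun v => A v ≠ B v)).card ≤ z)).card
      ≤ (univ.filter (fun Z : Finset (Fin n) => Z.card ≤ z)).card := by
  apply card_le_card_of_injOn (fun A => univ.filter (fun v => A v ≠ B v))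
  · intro A hA
    simp only [coe_filter, mem_univ, true_and] at hA ⊢
    exact hA
  · intro A _ A' _ h
    have h' : ∀ v, (A v ≠ B v) ↔ (A' v ≠ B v) := by
      intro v
      have := congrArg (fun S : Finset (Fin n) => v ∈ S) h
      simpa using this
    funext v
    have := h' v
    cases hA : A v <;> cases hA' : A' v <;> cases hB : B v <;> simp_all

open Classical in
theorem fibre_bound {n k i l : ℕ} {F : Finset (Cl n)} (hk : 1 ≤ k) (hF : F ⊆ clauses n k) :
    ((univ.filter (fun A : Fin n → Bool => SatF A F ∧ ¬ BadF k i l F A)).card : ℝ)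
      ≤ X i F * ∑ j ∈ range (zz n k + 1), (n.choose j : ℝ) := by
  have hsub : univ.filter (fun A : Fin n → Bool => SatF A F ∧ ¬ BadF k i l F A)
      ⊆ (univ.filter (fun A : Fin n → Bool => IMax i F A)).biUnion (fun B =>
        univ.filter (fun A : Fin n → Bool => (univ.filter (fun v => A v ≠ B v)).card ≤ zz n k)) := by
    intro A hA
    rw [mem_filter] at hA
    obtain ⟨A', hA', hd⟩ := exists_imax_near hk hF hA.2.1 hA.2.2
    rw [mem_biUnion]
    refine ⟨A', ?_, ?_⟩
    · rw [mem_filter]; exact ⟨mem_univ _, hA'⟩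
    · rw [mem_filter]; exact ⟨mem_univ _, hd⟩
  have h1 := card_le_card hsub
  have h2 := card_biUnion_le_card_mul (univ.filter (fun A : Fin n → Bool => IMax i F A))
    (fun B => univ.filter (fun A : Fin n → Bool =>
      (univ.filter (fun v => A v ≠ B v)).card ≤ zz n k))
    (univ.filter (fun Z : Finset (Fin n) => Z.card ≤ zz n k)).card
    (fun B _ => ball_card B (zz n k))
  rw [← card_small_sets, X_eq]
  exact_mod_cast h1.trans h2

theorem mem_powersetCard_sat {n k M : ℕ} {F : Finset (Cl n)} {A : Fin n → Bool} :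
    F ∈ (satClauses n k A).powersetCard M ↔ F ∈ formulas n k M ∧ SatF A F := by
  rw [mem_powersetCard, mem_formulas]
  constructor
  · rintro ⟨h1, h2⟩
    refine ⟨⟨fun c hc => (mem_satClauses.1 (h1 hc)).1, h2⟩, fun c hc => ?_⟩
    exact sat_iff.2 (mem_satClauses.1 (h1 hc)).2
  · rintro ⟨⟨h1, h2⟩, h3⟩
    exact ⟨fun c hc => mem_satClauses.2 ⟨h1 hc, sat_iff.1 (h3 c hc)⟩, h2⟩

open Classical in
theorem sum_swap (n k M : ℕ) (P : Finset (Cl n) → (Fin n → Bool) → Prop) :
    ∑ F ∈ formulas n k M, (univ.filter (fun A : Fin n → Bool => SatF A F ∧ P F A)).card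
      = ∑ A : Fin n → Bool, (((satClauses n k A).powersetCard M).filter (fun F => P F A)).card := by
  simp_rw [card_filter]
  rw [sum_comm]
  apply sum_congr rfl
  intro A _
  rw [← sum_filter, ← sum_filter]
  apply sum_congr _ (fun _ _ => rfl)
  ext F
  simp only [mem_filter]
  rw [mem_powersetCard_sat]
  tauto

end Pool.Agent.H986R2.KSat
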