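import Pool.Agent.H986R2.KSat.Lex

open Finset Filter Topology

namespace Pool.Agent.H986R2.KSat

theorem exp_neg_div_le {x : ℝ} (_h0 : 0 ≤ x) (h1 : x < 1) : Real.exp (-(x / (1 - x))) ≤ 1 - x := by
  have h2 : 0 < 1 - x := by linarith
  rw [Real.exp_neg, inv_le_comm₀ (Real.exp_pos _) h2]
  have := Real.add_one_le_exp (x / (1 - x))
  refine le_trans ?_ this
  rw [inv_le_iff_one_le_mul₀ h2]
  field_simp
  linarith

theorem two_pow_ge (k : ℕ) (hk : 100 ≤ k) : (10 : ℝ) ^ 6 ≤ 2 ^ k := by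
  calc (10 : ℝ) ^ 6 ≤ 2 ^ 100 := by norm_num
    _ ≤ 2 ^ k := pow_le_pow_right₀ (by norm_num) hk

/-- for large `n`, `M` is tiny compared to the number of clauses. -/
theorem ev_small (k : ℕ) (hk : 3 ≤ k) (K : ℝ) : ∀ᶠ n : ℕ in atTop,
    K * (n : ℝ) ≤ n.choose k := by
  have h1 := big_choose k hk
  have h2 : ∀ᶠ n : ℕ in atTop, |K| * (8 * k.factorial) ≤ (n : ℝ) :=
    tendsto_natCast_atTop_atTop.eventually_ge_atTop _
  have h3 : ∀ᶠ n : ℕ in atTop, (1 : ℝ) ≤ (n : ℝ) :=
    tendsto_natCast_atTop_atTop.eventually_ge_atTop _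
  filter_upwards [h1, h2, h3] with n h1 h2 h3
  refine le_trans ?_ h1
  have hf : (0 : ℝ) < 8 * k.factorial := by positivity
  rw [le_div_iff₀ hf]
  calc K * n * (8 * k.factorial) ≤ |K| * n * (8 * k.factorial) := by
        gcongr
        exact le_abs_self K
    _ = (|K| * (8 * k.factorial)) * n := by ring
    _ ≤ n * n := by gcongr
    _ ≤ n * n * n := by
        have : (0 : ℝ) ≤ n * n := by positivity
        nlinarith
    _ = (n : ℝ) ^ 3 := by ring

/-- lower bound for the ratio of the numbers of satisfied and of all formulas -/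
theorem ratio_lower (k n M : ℕ) (hk : 100 ≤ k) (hC : 0 < n.choose k)
    (hM : (M : ℝ) * (10 ^ 6 * 2 ^ k) ≤ 2 ^ k * n.choose k) :
    Real.exp (-(1.0001 * (M / 2 ^ k))) * ((2 ^ k * n.choose k).choose M : ℝ)
      ≤ (((2 ^ k - 1) * n.choose k).choose M : ℝ) := by
  have hp := two_pow_ge k hk
  have hC' : (0 : ℝ) < n.choose k := by exact_mod_cast hC
  have h2k : (0 : ℝ) < 2 ^ k := by positivity
  have hN : (0 : ℝ) < 2 ^ k * n.choose k := by positivity
  have h1 := Nat.pow_le_choose (α := ℝ) M ((2 ^ k - 1) * n.choose k)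
  have h2 := Nat.choose_le_pow_div (α := ℝ) M (2 ^ k * n.choose k)
  set x : ℝ := 1 / 2 ^ k + M / (2 ^ k * n.choose k) with hx
  have hMN : (M : ℝ) / (2 ^ k * n.choose k) ≤ 1 / (10 ^ 6 * 2 ^ k) := by
    rw [div_le_div_iff₀ hN (by positivity)]
    linarith
  have hinv : (1 : ℝ) / 2 ^ k ≤ 1 / 10 ^ 6 := one_div_le_one_div_of_le (by norm_num) hp
  have hinv0 : (0 : ℝ) < 1 / 2 ^ k := by positivity
  have hx0 : 0 ≤ x := by positivity
  have hxle : x ≤ 1.00001 * (1 / 2 ^ k) := by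
    have e : (1 : ℝ) / (10 ^ 6 * 2 ^ k) = (1 / 10 ^ 6) * (1 / 2 ^ k) := by
      field_simp
    rw [hx]
    rw [e] at hMN
    have : (1 : ℝ) / 10 ^ 6 * (1 / 2 ^ k) ≤ 0.00001 * (1 / 2 ^ k) := by
      apply mul_le_mul_of_nonneg_right _ hinv0.le
      norm_num
    linarith
  have hx1 : x ≤ 0.00001 := by
    calc x ≤ 1.00001 * (1 / 2 ^ k) := hxle
      _ ≤ 1.00001 * (1 / 10 ^ 6) := by gcongr
      _ ≤ _ := by norm_num
  have hbase : (2 ^ k * n.choose k : ℝ) * (1 - x) ≤ (((2 ^ k - 1) * n.choose k + 1 - M : ℕ) : ℝ) := by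
    have e1 : (2 ^ k * n.choose k : ℝ) * (1 - x) = (2 ^ k - 1) * n.choose k - M := by
      rw [hx]; field_simp; ring
    rw [e1]
    have e2 : (((2 ^ k - 1) * n.choose k + 1 : ℕ) : ℝ) = (2 ^ k - 1) * n.choose k + 1 := by
      have : 1 ≤ 2 ^ k := Nat.one_le_two_pow
      push_cast [Nat.cast_sub this]
      ring
    have e3 : (((2 ^ k - 1) * n.choose k + 1 : ℕ) : ℝ) ≤
        (((2 ^ k - 1) * n.choose k + 1 - M : ℕ) : ℝ) + M := by
      exact_mod_cast (by omega : (2 ^ k - 1) * n.choose k + 1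
        ≤ ((2 ^ k - 1) * n.choose k + 1 - M) + M)
    linarith
  have hexp : Real.exp (-(1.0001 * (M / 2 ^ k))) ≤ (1 - x) ^ M := by
    have e1 := exp_neg_div_le hx0 (by linarith)
    have e2 : Real.exp (-(1.0001 * (1 / 2 ^ k))) ≤ Real.exp (-(x / (1 - x))) := by
      apply Real.exp_le_exp.2
      have : x / (1 - x) ≤ 1.0001 * (1 / 2 ^ k) := by
        rw [div_le_iff₀ (by linarith)]
        calc x ≤ 1.00001 * (1 / 2 ^ k) := hxle
          _ ≤ 1.0001 * (1 / 2 ^ k) * 0.99999 := by nlinarith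
          _ ≤ 1.0001 * (1 / 2 ^ k) * (1 - x) := by gcongr; linarith
      linarith
    calc Real.exp (-(1.0001 * (M / 2 ^ k))) = (Real.exp (-(1.0001 * (1 / 2 ^ k)))) ^ M := by
          rw [← Real.exp_nat_mul]; congr 1; ring
      _ ≤ (1 - x) ^ M := by
          gcongr
          exact e2.trans e1
  have hx3 : 0 ≤ 1 - x := by linarith
  calc Real.exp (-(1.0001 * (M / 2 ^ k))) * ((2 ^ k * n.choose k).choose M : ℝ)
      ≤ (1 - x) ^ M * (((2 ^ k * n.choose k : ℕ) : ℝ) ^ M / M.factorial) := by gcongr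
    _ = ((2 ^ k * n.choose k : ℝ) * (1 - x)) ^ M / M.factorial := by
        rw [mul_pow]; push_cast; ring
    _ ≤ (((2 ^ k - 1) * n.choose k + 1 - M : ℕ) : ℝ) ^ M / M.factorial := by gcongr
    _ ≤ _ := h1

theorem half_good (C B : ℝ) (e : ℝ) (he : e ≤ 1 / 2) (hC : 0 ≤ C) (hB : B ≤ e * C) :
    1 / 2 * C ≤ C - B := by
  have : e * C ≤ 1 / 2 * C := by gcongr
  linarith

open Classical in
/-- Lower bound for the sum of `X_i` from the good pairs. -/
theorem sum_X_lower (k i n M : ℕ) (hk : 1 ≤ k) (G : ℝ)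
    (hG : ∀ A : Fin n → Bool,
      G ≤ (((satClauses n k A).powersetCard M).filter (fun F => ¬ BadF k i 0 F A)).card) :
    2 ^ n * G ≤ (∑ F ∈ formulas n k M, (X i F : ℝ)) *
      ∑ j ∈ range (zz n k + 1), (n.choose j : ℝ) := by
  have h1 : ∑ F ∈ formulas n k M,
      (univ.filter (fun A : Fin n → Bool => SatF A F ∧ ¬ BadF k i 0 F A)).card
      = ∑ A : Fin n → Bool,
        (((satClauses n k A).powersetCard M).filter (fun F => ¬ BadF k i 0 F A)).card := by
    convert sum_swap n k M (fun F A => ¬ BadF k i 0 F A)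
  have h2 : (2 : ℝ) ^ n * G ≤ ∑ A : Fin n → Bool,
      ((((satClauses n k A).powersetCard M).filter (fun F => ¬ BadF k i 0 F A)).card : ℝ) := by
    calc (2 : ℝ) ^ n * G = ∑ _A : Fin n → Bool, G := by
          rw [sum_const, card_univ, Fintype.card_fun, Fintype.card_bool, Fintype.card_fin,
            nsmul_eq_mul]
          push_cast; ring
      _ ≤ _ := sum_le_sum (fun A _ => hG A)
  refine h2.trans ?_
  have h3 : ∑ A : Fin n → Bool,
      ((((satClauses n k A).powersetCard M).filter (fun F => ¬ BadF k i 0 F A)).card : ℝ)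
      = ∑ F ∈ formulas n k M,
        ((univ.filter (fun A : Fin n → Bool => SatF A F ∧ ¬ BadF k i 0 F A)).card : ℝ) := by
    exact_mod_cast h1.symm
  rw [h3, sum_mul]
  apply sum_le_sum
  intro F hF
  exact fibre_bound hk (mem_formulas.1 hF).1

open Classical in
theorem expLarge_A (k i : ℕ) (hk : 100 ≤ k) (hi : 1 ≤ i) : ExpLarge k i (0.68 * 2 ^ k) := by
  refine ⟨0.003, by norm_num, ?_⟩
  have hk1 : 1 ≤ k := by omega
  have h2k : (0 : ℝ) < 2 ^ k := by positivity
  have hp := two_pow_ge k hk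
  have e1 := planted_bad k i hk hi
  have e2 := ev_small k (by omega) (0.68 * 2 ^ k * 10 ^ 6)
  have e3 : ∀ᶠ n : ℕ in atTop, (1000 : ℝ) ≤ n :=
    tendsto_natCast_atTop_atTop.eventually_ge_atTop _
  have e4 : ∀ᶠ n : ℕ in atTop, Real.exp (-(0.02 * n)) ≤ 1 / 2 := by
    have h1 : Tendsto (fun n : ℕ => Real.exp (-(0.02 * n))) atTop (𝓝 0) := by
      apply Real.tendsto_exp_atBot.comp
      apply tendsto_neg_atTop_atBot.comp
      exact Tendsto.const_mul_atTop (by norm_num) tendsto_natCast_atTop_atTop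
    exact h1.eventually (ge_mem_nhds (by norm_num))
  have e5 : ∀ᶠ n : ℕ in atTop, 80 * k * Real.exp (-(0.0005 * (n : ℝ))) ≤ 1 := by
    have h1 : Tendsto (fun n : ℕ => 80 * k * Real.exp (-(0.0005 * (n : ℝ)))) atTop
        (𝓝 (80 * k * 0)) := by
      apply Tendsto.const_mul
      apply Real.tendsto_exp_atBot.comp
      apply tendsto_neg_atTop_atBot.comp
      exact Tendsto.const_mul_atTop (by norm_num) tendsto_natCast_atTop_atTop
    rw [mul_zero] at h1
    exact h1.eventually (ge_mem_nhds (by norm_num))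
  filter_upwards [e1, e2, e3, e4, e5] with n e1 e2 e3 e4 e5
  set M : ℕ := ⌊0.68 * 2 ^ k * (n : ℝ)⌋₊ with hM
  have hn0 : (0 : ℝ) < n := by linarith
  have hM1 : (M : ℝ) ≤ 0.68 * 2 ^ k * n := Nat.floor_le (by positivity)
  have hM2 : 0.68 * 2 ^ k * (n : ℝ) - 1 ≤ M := (Nat.sub_one_lt_floor _).le
  have hpn : (1000 : ℝ) ≤ 2 ^ k * n := by nlinarith
  have hMl : 0.679 * 2 ^ k * (n : ℝ) ≤ M := by nlinarith
  have hMu : (M : ℝ) ≤ 0.7 * 2 ^ k * n := by nlinarith
  have hC : 0 < n.choose k := by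
    have : (0 : ℝ) < n.choose k := lt_of_lt_of_le (by positivity) e2
    exact_mod_cast this
  have hplant := e1 M 0 hMl hMu (by push_cast; positivity)
  have hMsmall : (M : ℝ) * (10 ^ 6 * 2 ^ k) ≤ 2 ^ k * (n.choose k : ℝ) := by
    calc (M : ℝ) * (10 ^ 6 * 2 ^ k) ≤ (0.68 * 2 ^ k * (n : ℝ)) * (10 ^ 6 * 2 ^ k) := by gcongr
      _ = 2 ^ k * (0.68 * 2 ^ k * 10 ^ 6 * (n : ℝ)) := by ring
      _ ≤ 2 ^ k * (n.choose k : ℝ) := by gcongr
  have hratio := ratio_lower k n M hk hC hMsmall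
  set C' : ℝ := (((2 ^ k - 1) * n.choose k).choose M : ℝ) with hC'
  set C : ℝ := ((2 ^ k * n.choose k).choose M : ℝ) with hCdef
  have hC'0 : 0 ≤ C' := by positivity
  have hMle : M ≤ 2 ^ k * n.choose k := by
    have : (M : ℝ) ≤ 2 ^ k * n.choose k := by
      calc (M : ℝ) ≤ 0.68 * 2 ^ k * n := hM1
        _ ≤ 0.68 * 2 ^ k * 10 ^ 6 * n := by nlinarith
        _ ≤ n.choose k := e2
        _ ≤ 2 ^ k * n.choose k := by
            have : (0 : ℝ) ≤ n.choose k := by positivity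
            nlinarith
    exact_mod_cast this
  have hCpos : 0 < C := by
    rw [hCdef]; exact_mod_cast Nat.choose_pos hMle
  have hG : ∀ A : Fin n → Bool, 1 / 2 * C' ≤
      (((satClauses n k A).powersetCard M).filter (fun F => ¬ BadF k i 0 F A)).card := by
    intro A
    have h1 := hplant A
    have h2 := card_filter_add_card_filter_not (s := (satClauses n k A).powersetCard M)
      (fun F => BadF k i 0 F A)
    rw [card_powersetCard, card_satClauses] at h2
    have h3 : ((((satClauses n k A).powersetCard M).filter (fun F => BadF k i 0 F A)).card : ℝ)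
      + (((satClauses n k A).powersetCard M).filter (fun F => ¬ BadF k i 0 F A)).card = C' := by
      rw [hC']; exact_mod_cast h2
    have h4 := half_good C' _ _ e4 hC'0 h1
    linarith
  have hsum := sum_X_lower k i n M hk1 _ hG
  have hball := ball_zz' n k hk (zz n k) (zz_upper n k)
  have hS0 : 0 ≤ ∑ F ∈ formulas n k M, (X i F : ℝ) := sum_nonneg (fun _ _ => by positivity)
  unfold expX
  rw [card_formulas, le_div_iff₀ hCpos]
  -- `2^n ≥ exp(0.6931 n)`
  have h2n : Real.exp (0.6931 * n) ≤ 2 ^ n := by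
    have : (2 : ℝ) ^ n = Real.exp (Real.log 2 * n) := by
      rw [mul_comm, Real.exp_nat_mul, Real.exp_log (by norm_num)]
    rw [this]
    apply Real.exp_le_exp.2
    have := Real.log_two_gt_d9
    nlinarith
  have hexpM : Real.exp (-(0.6801 * n)) ≤ Real.exp (-(1.0001 * (M / 2 ^ k))) := by
    apply Real.exp_le_exp.2
    have : (M : ℝ) / 2 ^ k ≤ 0.68 * n := by
      rw [div_le_iff₀ h2k]; linarith
    linarith
  have hmain : Real.exp (0.6931 * n) * (1 / 2 * (Real.exp (-(0.6801 * n)) * C))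
      ≤ (∑ F ∈ formulas n k M, (X i F : ℝ)) * (Real.exp (0.00932 * n) * (40 * k)) := by
    calc Real.exp (0.6931 * n) * (1 / 2 * (Real.exp (-(0.6801 * n)) * C))
        ≤ 2 ^ n * (1 / 2 * C') := by
          have : Real.exp (-(0.6801 * n)) * C ≤ C' := le_trans (by gcongr) hratio
          gcongr
      _ ≤ _ := hsum
      _ ≤ _ := by gcongr
  have hfin : Real.exp (0.003 * n) * C * (Real.exp (0.00932 * n) * (40 * k))
      ≤ Real.exp (0.6931 * n) * (1 / 2 * (Real.exp (-(0.6801 * n)) * C)) := by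
    have hE : Real.exp (0.6931 * (n : ℝ)) * Real.exp (-(0.6801 * n)) =
        Real.exp (0.003 * n) * Real.exp (0.00932 * n) * Real.exp (0.00068 * n) := by
      rw [← Real.exp_add, ← Real.exp_add, ← Real.exp_add]; congr 1; ring
    have hE2 : 80 * (k : ℝ) ≤ Real.exp (0.00068 * n) := by
      have : 80 * (k : ℝ) ≤ Real.exp (0.0005 * n) := by
        rw [Real.exp_neg, ← div_eq_mul_inv, div_le_one (Real.exp_pos _)] at e5
        exact e5
      refine this.trans (Real.exp_le_exp.2 ?_)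
      linarith
    calc Real.exp (0.003 * n) * C * (Real.exp (0.00932 * n) * (40 * k))
        = (Real.exp (0.003 * n) * Real.exp (0.00932 * n)) * (C / 2) * (80 * k) := by ring
      _ ≤ (Real.exp (0.003 * n) * Real.exp (0.00932 * n)) * (C / 2) * Real.exp (0.00068 * n) := by
          gcongr
      _ = (Real.exp (0.6931 * (n : ℝ)) * Real.exp (-(0.6801 * n))) * (C / 2) := by rw [hE]; ring
      _ = _ := by ring
  have hpos : 0 < Real.exp (0.00932 * n) * (40 * (k : ℝ)) := by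
    have : (0 : ℝ) < k := by exact_mod_cast hk1
    positivity
  exact le_of_mul_le_mul_right (hfin.trans hmain) hpos

end Pool.Agent.H986R2.KSat
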