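import Pool.Agent.H986R2.KSat.Quad

open Finset Filter Topology

namespace Pool.Agent.H986R2.KSat

theorem ev_exp_small (a : ℝ) (ha : 0 < a) (ε : ℝ) (hε : 0 < ε) :
    ∀ᶠ n : ℕ in atTop, Real.exp (-(a * n)) ≤ ε := by
  have h1 : Tendsto (fun n : ℕ => Real.exp (-(a * n))) atTop (𝓝 0) := by
    apply Real.tendsto_exp_atBot.comp
    apply tendsto_neg_atTop_atBot.comp
    exact Tendsto.const_mul_atTop ha tendsto_natCast_atTop_atTop
  exact h1.eventually (ge_mem_nhds hε)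

theorem exp_neg_two_le {x : ℝ} (h0 : 0 ≤ x) (h1 : x ≤ 1 / 2) : Real.exp (-(2 * x)) ≤ 1 - x := by
  rw [Real.exp_neg, inv_le_comm₀ (Real.exp_pos _) (by linarith)]
  have := Real.add_one_le_exp (2 * x)
  refine le_trans ?_ this
  rw [inv_le_iff_one_le_mul₀ (by linarith)]
  nlinarith

theorem choose_add_le (N M q : ℕ) (hM : 1 ≤ M) :
    (N.choose (M + q) : ℝ) ≤ N.choose M * ((N : ℝ) / M) ^ q := by
  induction q with
  | zero => simp
  | succ q ih =>
    have h1 := Nat.choose_succ_right_eq N (M + q)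
    have hM0 : (0 : ℝ) < M := by exact_mod_cast hM
    have h2 : (N.choose (M + (q + 1)) : ℝ) * (M + q + 1) ≤ N.choose (M + q) * N := by
      have : N.choose (M + (q + 1)) * (M + q + 1) ≤ N.choose (M + q) * N := by
        rw [← add_assoc, h1]
        exact Nat.mul_le_mul_left _ (Nat.sub_le _ _)
      exact_mod_cast this
    have h3 : (N.choose (M + (q + 1)) : ℝ) ≤ N.choose (M + q) * ((N : ℝ) / M) := by
      rw [← mul_div_assoc, le_div_iff₀ hM0]
      refine le_trans ?_ h2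
      have : (0 : ℝ) ≤ N.choose (M + (q + 1)) := by positivity
      nlinarith
    calc (N.choose (M + (q + 1)) : ℝ) ≤ N.choose (M + q) * ((N : ℝ) / M) := h3
      _ ≤ (N.choose M * ((N : ℝ) / M) ^ q) * ((N : ℝ) / M) := by gcongr
      _ = _ := by ring

theorem Nx_eq (k n : ℕ) (hkn : k ≤ n) (hn : 1 ≤ n) :
    ((2 ^ k * (n - 1).choose k : ℕ) : ℝ) = ((2 ^ k * n.choose k : ℕ) : ℝ) * (1 - k / n) := by
  have hn0 : (0 : ℝ) < n := by exact_mod_cast hn
  have h := Nat.choose_mul_succ_eq (n - 1) k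
  have hn1 : n - 1 + 1 = n := by omega
  rw [hn1] at h
  have h' : ((n - 1).choose k : ℝ) * n = (n.choose k : ℝ) * (n - k) := by
    have : ((n - k : ℕ) : ℝ) = (n : ℝ) - k := by rw [Nat.cast_sub (by omega)]
    rw [← this]; exact_mod_cast h
  push_cast
  field_simp
  linarith

/-- Probability that a variable is isolated. -/
theorem iso_prob (k n M : ℕ) (hn : 4 * k ≤ n) (hn1 : 1 ≤ n) (d : ℝ)
    (hMd : (M : ℝ) ≤ d * n) (hMN : (M : ℝ) * n ≤ k * (2 ^ k * n.choose k)) :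
    Real.exp (-(4 * k * d)) * ((2 ^ k * n.choose k).choose M : ℝ)
      ≤ ((2 ^ k * (n - 1).choose k).choose M : ℝ) := by
  have hn0 : (0 : ℝ) < n := by exact_mod_cast hn1
  have h1 := Nat.pow_le_choose (α := ℝ) M (2 ^ k * (n - 1).choose k)
  have h2 := Nat.choose_le_pow_div (α := ℝ) M (2 ^ k * n.choose k)
  have hNx := Nx_eq k n (by omega) hn1
  set N : ℝ := ((2 ^ k * n.choose k : ℕ) : ℝ) with hN
  have hMN' : (M : ℝ) ≤ N * (k / n) := by
    rw [← mul_div_assoc, le_div_iff₀ hn0]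
    rw [hN]; push_cast; linarith
  have hkn : (k : ℝ) / n ≤ 1 / 4 := by
    rw [div_le_div_iff₀ hn0 (by norm_num)]
    have : (4 * k : ℝ) ≤ n := by exact_mod_cast hn
    linarith
  have hN0 : 0 ≤ N := by rw [hN]; positivity
  have hsub : N * (1 - 2 * k / n) ≤ ((2 ^ k * (n - 1).choose k + 1 - M : ℕ) : ℝ) := by
    have h3 : M ≤ 2 ^ k * (n - 1).choose k + 1 := by
      have : (M : ℝ) ≤ ((2 ^ k * (n - 1).choose k : ℕ) : ℝ) := by
        rw [hNx]
        nlinarith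
      have : M ≤ 2 ^ k * (n - 1).choose k := by exact_mod_cast this
      omega
    rw [Nat.cast_sub h3, Nat.cast_add, hNx, Nat.cast_one]
    have : N * (1 - 2 * k / n) = N * (1 - k / n) - N * (k / n) := by ring
    linarith
  have hexp : Real.exp (-(4 * k * d)) ≤ (1 - 2 * k / n) ^ M := by
    have h4 : Real.exp (-(2 * (2 * k / n : ℝ))) ≤ 1 - 2 * k / n := by
      apply exp_neg_two_le
      · positivity
      · have : (2 : ℝ) * k / n = 2 * (k / n) := by ring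
        rw [this]; linarith
    calc Real.exp (-(4 * k * d)) ≤ Real.exp (M * (-(2 * (2 * k / n : ℝ)))) := by
          apply Real.exp_le_exp.2
          have : (M : ℝ) * (-(2 * (2 * k / n : ℝ))) = -(4 * k * (M / n)) := by ring
          rw [this]
          have h5 : (M : ℝ) / n ≤ d := by rw [div_le_iff₀ hn0]; exact hMd
          have h6 : (0 : ℝ) ≤ 4 * k := by positivity
          have := mul_le_mul_of_nonneg_left h5 h6
          linarith
      _ = (Real.exp (-(2 * (2 * k / n : ℝ)))) ^ M := by rw [← Real.exp_nat_mul]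
      _ ≤ _ := by gcongr
  have hnn : 0 ≤ 1 - 2 * (k : ℝ) / n := by
    have : (2 : ℝ) * k / n = 2 * (k / n) := by ring
    rw [this]; linarith
  calc Real.exp (-(4 * k * d)) * ((2 ^ k * n.choose k).choose M : ℝ)
      ≤ (1 - 2 * k / n) ^ M * (N ^ M / M.factorial) := by gcongr
    _ = (N * (1 - 2 * k / n)) ^ M / M.factorial := by rw [mul_pow]; ring
    _ ≤ (((2 ^ k * (n - 1).choose k + 1 - M : ℕ) : ℝ)) ^ M / M.factorial := by
        gcongr
    _ ≤ _ := h1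

/-- Purely algebraic estimate. -/
theorem alg1 {C1 ξ m κ kq I Dn : ℝ} (hξ : 0 < ξ) (hξ8 : ξ ≤ 1 / 8) (hC : C1 * ξ ≤ 1 / 2)
    (hC4 : 4 ≤ C1) (hm : 0 ≤ m) (hκ : 0 ≤ κ) (hkq : 0 ≤ kq) (hI : (1 - ξ) * m ≤ I)
    (hD : Dn ≤ (1 + ξ) * ((1 + ξ) * m * κ)) (hkey : kq * (1 + κ) ≤ m * κ * ((C1 - 4) * ξ)) :
    (1 - C1 * ξ) * (Dn + kq) ≤ (I - kq) * κ := by
  have e2 : (1 - C1 * ξ) * (Dn + kq) ≤ (1 - C1 * ξ) * ((1 + ξ) * ((1 + ξ) * m * κ) + kq) := by
    have : 0 ≤ 1 - C1 * ξ := by linarith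
    gcongr
  have e3 : ((1 - ξ) * m - kq) * κ ≤ (I - kq) * κ := by gcongr
  have h1 : (1 - C1 * ξ) * ((1 + ξ) * (1 + ξ)) ≤ 1 + 3 * ξ - C1 * ξ := by
    have ha : (1 + ξ) * (1 + ξ) ≤ 1 + 3 * ξ := by nlinarith
    have hb : 0 ≤ 1 - C1 * ξ := by linarith
    have hc := mul_le_mul_of_nonneg_left ha hb
    have hd : (1 - C1 * ξ) * (1 + 3 * ξ) = 1 + 3 * ξ - C1 * ξ - 3 * (C1 * ξ ^ 2) := by ring
    have he : 0 ≤ C1 * ξ ^ 2 := by positivity
    linarith
  have h2 : 0 ≤ m * κ := by positivity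
  have h4 : (1 - C1 * ξ) * ((1 + ξ) * ((1 + ξ) * m * κ) + kq)
      = ((1 - C1 * ξ) * ((1 + ξ) * (1 + ξ))) * (m * κ) + (1 - C1 * ξ) * kq := by ring
  have h5 := mul_le_mul_of_nonneg_right h1 h2
  have h6 : (1 - C1 * ξ) * kq ≤ 1 * kq := by
    apply mul_le_mul_of_nonneg_right _ hkq
    nlinarith
  have h7 : m * κ * ((C1 - 4) * ξ) = (C1 - 4) * ξ * (m * κ) := by ring
  rw [h7] at hkey
  have h8 : ((1 - ξ) * m - kq) * κ = (1 - ξ) * (m * κ) - kq * κ := by ring
  have h9 : (1 + 3 * ξ - C1 * ξ) * (m * κ) = (1 - ξ) * (m * κ) - (C1 - 4) * ξ * (m * κ) := by ring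
  have h10 : kq * (1 + κ) = kq + kq * κ := by ring
  linarith

/-- numerical facts about `M` for large `n` -/
theorem M_facts (k n M : ℕ) (hk : 3 ≤ k) (d ξ : ℝ) (hd : 0 < d) (hξ : 0 < ξ) (hξd : ξ ≤ d / 2)
    (hn4k : 4 * k ≤ n) (hn1 : 4 / d ≤ n) (hn2 : 8 * k.factorial * d ≤ n)
    (hbig : (n : ℝ) ^ 3 / (8 * k.factorial) ≤ (n.choose k : ℝ))
    (hM : M = ⌊(d - ξ) * n⌋₊) :
    (M : ℝ) ≤ (d - ξ) * n ∧ (d - ξ) * n - 1 ≤ M ∧ (M : ℝ) ≤ d * n ∧ d / 4 * n ≤ M ∧
    (M : ℝ) * n ≤ k * (2 ^ k * n.choose k) ∧ 2 * (d * (n : ℝ)) ≤ n.choose k := by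
  have hkr : (3 : ℝ) ≤ k := by exact_mod_cast hk
  have hnpos : 0 < n := by omega
  have hn0 : (0 : ℝ) < n := by exact_mod_cast hnpos
  have h1 : (M : ℝ) ≤ (d - ξ) * n := by
    rw [hM]
    exact Nat.floor_le (mul_nonneg (by linarith) hn0.le)
  have h2 : (d - ξ) * n - 1 ≤ M := by
    rw [hM]
    exact (Nat.sub_one_lt_floor _).le
  have h3 : (M : ℝ) ≤ d * n := by nlinarith
  have h4 : d / 4 * n ≤ M := by
    have h1 : 1 ≤ d / 4 * n := by
      rw [div_le_iff₀ hd] at hn1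
      linarith
    nlinarith
  have hpow : (1 : ℝ) ≤ 2 ^ k := one_le_pow₀ (by norm_num)
  have hCk : (0 : ℝ) < n.choose k := lt_of_lt_of_le (by positivity) hbig
  refine ⟨h1, h2, h3, h4, ?_, ?_⟩
  · have h5 : d * (n : ℝ) * n ≤ n ^ 3 / (8 * k.factorial) := by
      rw [le_div_iff₀ (by positivity)]
      calc d * (n : ℝ) * n * (8 * k.factorial) = (8 * k.factorial * d) * (n * n) := by ring
        _ ≤ n * (n * n) := by gcongr
        _ = _ := by ring
    calc (M : ℝ) * n ≤ d * n * n := by gcongr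
      _ ≤ n ^ 3 / (8 * k.factorial) := h5
      _ ≤ n.choose k := hbig
      _ = 1 * (1 * n.choose k) := by ring
      _ ≤ k * (2 ^ k * n.choose k) := by gcongr; linarith
  · refine le_trans ?_ hbig
    rw [le_div_iff₀ (by positivity)]
    have h5 : (12 : ℝ) ≤ n := by
      have : 12 ≤ n := by omega
      exact_mod_cast this
    calc 2 * (d * (n : ℝ)) * (8 * k.factorial) = (8 * k.factorial * d) * (2 * n) := by ring
      _ ≤ n * (2 * n) := by gcongr
      _ ≤ n * (n * n) := by gcongr; linarith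
      _ = _ := by ring

open Classical in
/-- Most formulas are good. -/
theorem good_count (k n M : ℕ) (hk : 3 ≤ k) (ξ ι : ℝ) (hξ : 0 < ξ) (hξ8 : ξ ≤ 1 / 8)
    (hι0 : 0 < ι) (hn4k : 4 * k ≤ n) (hn3 : 8 / (ξ ^ 3 * ι) ≤ n) (hn4 : 4 * k / ξ ≤ n)
    (hM1 : 1 ≤ M) (hMN : (M : ℝ) * n ≤ k * (2 ^ k * n.choose k))
    (hCk : 0 < n.choose k)
    (hp1 : ι * ((2 ^ k * n.choose k).choose M : ℝ) ≤ ((2 ^ k * (n - 1).choose k).choose M : ℝ))
    (hsat : 1 - ξ / 8 ≤ probSat k n M) :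
    ∃ m : ℝ, ι * n ≤ m ∧ ((2 ^ k * n.choose k).choose M : ℝ) * (ξ / 4)
      ≤ (goodSat n k M ⌈(1 - ξ) * m⌉₊ ⌊(1 + ξ) * ((1 + ξ) * m * (k * M / n))⌋₊).card := by
  have hk1 : 1 ≤ k := by omega
  have hkr : (3 : ℝ) ≤ k := by exact_mod_cast hk
  have hnpos : 0 < n := by omega
  have hn0 : (0 : ℝ) < n := by exact_mod_cast hnpos
  have hpow : (1 : ℝ) ≤ 2 ^ k := one_le_pow₀ (by norm_num)
  have hCkr : (0 : ℝ) < n.choose k := by exact_mod_cast hCk
  have hM0 : (0 : ℝ) < M := by exact_mod_cast hM1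
  have hNxN := Nx_eq k n (by omega) hnpos
  set N := 2 ^ k * n.choose k with hN
  set Nx := 2 ^ k * (n - 1).choose k with hNx
  have hNr : (N : ℝ) = 2 ^ k * n.choose k := by rw [hN]; push_cast; ring
  have hN0 : (0 : ℝ) < N := by rw [hNr]; positivity
  have hMNdiv : (M : ℝ) ≤ N * (k / n) := by
    rw [← mul_div_assoc, le_div_iff₀ hn0, hNr]; linarith
  have hkn4 : (k : ℝ) / n ≤ ξ / 4 := by
    rw [div_le_div_iff₀ hn0 (by norm_num)]
    rw [div_le_iff₀ hξ] at hn4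
    linarith
  have hMNx : M ≤ Nx := by
    have h1 : (M : ℝ) ≤ Nx := by
      rw [hNxN]
      have h3 : (N : ℝ) * (k / n) ≤ N * (1 - k / n) := by
        gcongr; linarith
      linarith
    exact_mod_cast h1
  have hNxleN : Nx ≤ N := Nat.mul_le_mul_left _ (Nat.choose_le_choose k (by omega))
  have hCN : 0 < N.choose M := Nat.choose_pos (le_trans hMNx hNxleN)
  have hCNr : (0 : ℝ) < N.choose M := by exact_mod_cast hCN
  have hCNx' : 0 < Nx.choose M := Nat.choose_pos hMNx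
  have hCNx : (0 : ℝ) < Nx.choose M := by exact_mod_cast hCNx'
  set m : ℝ := n * (Nx.choose M : ℝ) / N.choose M with hm
  have hmlow : ι * n ≤ m := by
    rw [hm, le_div_iff₀ hCNr]
    calc ι * n * (N.choose M : ℝ) = n * (ι * N.choose M) := by ring
      _ ≤ n * Nx.choose M := by gcongr
  have hm0 : 0 < m := lt_of_lt_of_le (by positivity) hmlow
  have hfew := few_iso n k M (by omega) hk1 ξ hξ hCN hCNx'
  set κ : ℝ := k * M / n with hκ
  have hκ0 : 0 < κ := by rw [hκ]; positivity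
  set D : ℝ := (1 + ξ) * m * κ with hD
  have hD0 : 0 < D := by rw [hD]; positivity
  have hB : (n : ℝ) * (2 ^ k * (n - 1).choose (k - 1)) = N * k := by
    have := choose_ratio n k hk1 (by omega)
    rw [hNr]
    calc (n : ℝ) * (2 ^ k * (n - 1).choose (k - 1)) = 2 ^ k * (n * (n - 1).choose (k - 1)) := by ring
      _ = _ := by rw [this]; ring
  have hNle : (N : ℝ) ≤ (1 + ξ) * ((Nx : ℝ) - M + 1) := by
    rw [hNxN]
    have h1 : N * (1 - 2 * (k / n : ℝ)) ≤ N * (1 - k / n) - M + 1 := by linarith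
    have h3 : 1 ≤ (1 + ξ) * (1 - 2 * (k / n : ℝ)) := by nlinarith
    have h2 : (N : ℝ) ≤ (1 + ξ) * (N * (1 - 2 * (k / n : ℝ))) := by
      calc (N : ℝ) = N * 1 := by ring
        _ ≤ N * ((1 + ξ) * (1 - 2 * (k / n : ℝ))) := by gcongr
        _ = _ := by ring
    refine le_trans h2 ?_
    gcongr
  have hDle : (n : ℝ) * ((2 ^ k * (n - 1).choose (k - 1)) * Nx.choose (M - 1)) ≤ D * N.choose M := by
    have h1 := Nat.choose_succ_right_eq Nx (M - 1)
    rw [Nat.sub_add_cancel hM1] at h1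
    have h2 : (Nx.choose M : ℝ) * M = Nx.choose (M - 1) * ((Nx : ℝ) - M + 1) := by
      have h3 : ((Nx - (M - 1) : ℕ) : ℝ) = (Nx : ℝ) - M + 1 := by
        rw [Nat.cast_sub (by omega), Nat.cast_sub (by omega)]; push_cast; ring
      rw [← h3]; exact_mod_cast h1
    have h4 : D * N.choose M = (1 + ξ) * k * (Nx.choose M * M) := by
      rw [hD, hm, hκ]; field_simp
    rw [h4, h2]
    calc (n : ℝ) * ((2 ^ k * (n - 1).choose (k - 1)) * Nx.choose (M - 1))
        = (n * (2 ^ k * (n - 1).choose (k - 1))) * Nx.choose (M - 1) := by ring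
      _ = k * (Nx.choose (M - 1) * N) := by rw [hB]; ring
      _ ≤ k * (Nx.choose (M - 1) * ((1 + ξ) * ((Nx : ℝ) - M + 1))) := by gcongr
      _ = _ := by ring
  have hmany := many_deg1 n k M hk1 hM1 ξ D hξ hD0 hDle
  refine ⟨m, hmlow, ?_⟩
  have hS : (1 - ξ / 8) * N.choose M
      ≤ (((formulas n k M).filter (fun F => Satisfiable F)).card : ℝ) := by
    rw [probSat_eq, le_div_iff₀ hCNr] at hsat
    exact hsat
  have hsub : (formulas n k M).filter (fun F => Satisfiable F) ⊆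
      goodSat n k M ⌈(1 - ξ) * m⌉₊ ⌊(1 + ξ) * D⌋₊ ∪
        ((formulas n k M).filter (fun F => ((iso F).card : ℝ) < (1 - ξ) * m) ∪
         (formulas n k M).filter (fun F => (1 + ξ) * D < ((deg1 F).card : ℝ))) := by
    intro F hF
    simp only [mem_filter, mem_union, goodSat] at hF ⊢
    by_cases h1 : ((iso F).card : ℝ) < (1 - ξ) * m
    · exact Or.inr (Or.inl ⟨hF.1, h1⟩)
    by_cases h2 : (1 + ξ) * D < ((deg1 F).card : ℝ)
    · exact Or.inr (Or.inr ⟨hF.1, h2⟩)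
    left
    push Not at h1 h2
    exact ⟨hF.1, hF.2, Nat.ceil_le.2 h1, Nat.le_floor h2⟩
  have hc4 : (((formulas n k M).filter (fun F => Satisfiable F)).card : ℝ) ≤
      (goodSat n k M ⌈(1 - ξ) * m⌉₊ ⌊(1 + ξ) * D⌋₊).card +
      (((formulas n k M).filter (fun F => ((iso F).card : ℝ) < (1 - ξ) * m)).card +
       ((formulas n k M).filter (fun F => (1 + ξ) * D < ((deg1 F).card : ℝ))).card) := by
    have hc := card_le_card hsub
    have hc2 := card_union_le (goodSat n k M ⌈(1 - ξ) * m⌉₊ ⌊(1 + ξ) * D⌋₊)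
      ((formulas n k M).filter (fun F => ((iso F).card : ℝ) < (1 - ξ) * m) ∪
           (formulas n k M).filter (fun F => (1 + ξ) * D < ((deg1 F).card : ℝ)))
    have hc3 := card_union_le ((formulas n k M).filter (fun F => ((iso F).card : ℝ) < (1 - ξ) * m))
           ((formulas n k M).filter (fun F => (1 + ξ) * D < ((deg1 F).card : ℝ)))
    have : ((formulas n k M).filter (fun F => Satisfiable F)).card ≤
      (goodSat n k M ⌈(1 - ξ) * m⌉₊ ⌊(1 + ξ) * D⌋₊).card +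
      (((formulas n k M).filter (fun F => ((iso F).card : ℝ) < (1 - ξ) * m)).card +
       ((formulas n k M).filter (fun F => (1 + ξ) * D < ((deg1 F).card : ℝ))).card) := by
      omega
    exact_mod_cast this
  have hfew' : (((formulas n k M).filter (fun F => ((iso F).card : ℝ) < (1 - ξ) * m)).card : ℝ)
      ≤ N.choose M * (ξ / 8) := by
    refine le_trans hfew ?_
    rw [div_eq_mul_inv]
    apply mul_le_mul_of_nonneg_left _ hCNr.le
    rw [← hNx, ← hN, ← hm]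
    rw [inv_le_comm₀ (by positivity) (by positivity)]
    have h5 : (ξ / 8)⁻¹ = 8 / ξ := by rw [inv_div]
    rw [h5, div_le_iff₀ hξ]
    rw [div_le_iff₀ (by positivity)] at hn3
    have h6 : ξ ^ 2 * (ι * n) ≤ ξ ^ 2 * m := by gcongr
    calc (8 : ℝ) ≤ n * (ξ ^ 3 * ι) := hn3
      _ = (ξ ^ 2 * (ι * n)) * ξ := by ring
      _ ≤ _ := by gcongr
  have hmany' : (N.choose M : ℝ) / (1 + ξ) ≤ N.choose M * (1 - ξ / 2) := by
    rw [div_le_iff₀ (by linarith)]
    have h7 : 1 ≤ (1 - ξ / 2) * (1 + ξ) := by nlinarith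
    calc (N.choose M : ℝ) = N.choose M * 1 := by ring
      _ ≤ N.choose M * ((1 - ξ / 2) * (1 + ξ)) := by gcongr
      _ = _ := by ring
  have h1 : (N.choose M : ℝ) * (ξ / 4)
      = (1 - ξ / 8) * N.choose M - (N.choose M * (ξ / 8) + N.choose M * (1 - ξ / 2)) := by ring
  rw [h1]
  have hmany'' : (((formulas n k M).filter (fun F => (1 + ξ) * D < ((deg1 F).card : ℝ))).card : ℝ)
      ≤ N.choose M * (1 - ξ / 2) := le_trans hmany hmany'
  linarith

/-- The bound for a fixed large `n`. -/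
theorem quad_fixed (k n M q : ℕ) (hk : 3 ≤ k) (d ξ ι C1 : ℝ) (hd : 0 < d) (hι0 : 0 < ι)
    (hC1 : C1 = 4 + 3 * k / ι + 12 / (ι * d)) (hξ : 0 < ξ) (hξd : ξ ≤ d / 2)
    (hC1ξ : C1 * ξ ≤ 1 / 2) (hn4k : 4 * k ≤ n) (hn1 : 4 / d ≤ n)
    (hn2 : 8 * k.factorial * d ≤ n) (hn3 : 8 / (ξ ^ 3 * ι) ≤ n) (hn4 : 4 * k / ξ ≤ n)
    (hn5 : 1 / ξ ≤ n) (hn6 : 4 / (ι * d) ≤ n)
    (hbig : (n : ℝ) ^ 3 / (8 * k.factorial) ≤ (n.choose k : ℝ))
    (hM : M = ⌊(d - ξ) * n⌋₊) (hsat : 1 - ξ / 8 ≤ probSat k n M)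
    (hp1 : ι * ((2 ^ k * n.choose k).choose M : ℝ) ≤ ((2 ^ k * (n - 1).choose k).choose M : ℝ))
    (hM' : ((M + q : ℕ) : ℝ) ≤ (d + ξ) * n) :
    (ξ / 4) * (1 - C1 * ξ) ^ q ≤ probSat k n (M + q) ∧ (q : ℝ) ≤ 3 * ξ * n := by
  classical
  have hk1 : 1 ≤ k := by omega
  have hkr : (3 : ℝ) ≤ k := by exact_mod_cast hk
  have hC1pos : 4 ≤ C1 := by
    have : 0 ≤ 3 * k / ι + 12 / (ι * d) := by positivity
    rw [hC1]; linarith
  have hC1k : 3 * k / ι ≤ C1 := by
    have : 0 ≤ 12 / (ι * d) := by positivity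
    rw [hC1]; linarith
  have hξ8 : ξ ≤ 1 / 8 := by nlinarith
  obtain ⟨hMup, hMlow, hMup', hMlow', hMN, h2dn⟩ :=
    M_facts k n M hk d ξ hd hξ hξd hn4k hn1 hn2 hbig hM
  have hnpos : 0 < n := by omega
  have hn0 : (0 : ℝ) < n := by exact_mod_cast hnpos
  have hMpos : (0 : ℝ) < M := lt_of_lt_of_le (by positivity) hMlow'
  have hM1 : 1 ≤ M := by exact_mod_cast hMpos
  have hpow : (1 : ℝ) ≤ 2 ^ k := one_le_pow₀ (by norm_num)
  have hCkr : (0 : ℝ) < n.choose k := lt_of_lt_of_le (by positivity) hbig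
  have hCk : 0 < n.choose k := by exact_mod_cast hCkr
  obtain ⟨m, hmlow, hgood⟩ := good_count k n M hk ξ ι hξ hξ8 hι0 hn4k hn3 hn4 hM1 hMN hCk hp1 hsat
  have hm0 : 0 < m := lt_of_lt_of_le (by positivity) hmlow
  set κ : ℝ := k * M / n with hκ
  have hκ0 : 0 < κ := by rw [hκ]; positivity
  have hκlow : k * (d / 4) ≤ κ := by
    rw [hκ, le_div_iff₀ hn0]
    calc k * (d / 4) * n = k * (d / 4 * n) := by ring
      _ ≤ k * M := by gcongr
  set I := ⌈(1 - ξ) * m⌉₊ with hI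
  set Dn := ⌊(1 + ξ) * ((1 + ξ) * m * κ)⌋₊ with hDn
  have hqle : (q : ℝ) ≤ 3 * ξ * n := by
    push_cast at hM'
    rw [div_le_iff₀ hξ] at hn5
    nlinarith
  refine ⟨?_, hqle⟩
  have hIlow : (1 - ξ) * m ≤ I := Nat.le_ceil _
  have hDup : (Dn : ℝ) ≤ (1 + ξ) * ((1 + ξ) * m * κ) := Nat.floor_le (by positivity)
  have hkι : 3 * k * ξ ≤ ι / 2 := by
    have h1 : 3 * k / ι * ξ ≤ 1 / 2 := le_trans (by gcongr) hC1ξ
    rw [div_mul_eq_mul_div, div_le_iff₀ hι0] at h1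
    linarith
  have hkq : (k : ℝ) * q ≤ 3 * k * ξ * n := by
    calc (k : ℝ) * q ≤ k * (3 * ξ * n) := by gcongr
      _ = _ := by ring
  have hDn1 : 1 ≤ Dn := by
    have h4 : 1 ≤ ι * n * (d / 4) := by
      rw [div_le_iff₀ (by positivity)] at hn6
      linarith
    have h5 : 1 ≤ m * κ := by
      calc (1 : ℝ) ≤ ι * n * (d / 4) := h4
        _ ≤ m * κ := by
            have : d / 4 ≤ κ := by
              refine le_trans ?_ hκlow
              have : 0 < d / 4 := by positivity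
              nlinarith
            gcongr
    have h6 : 1 ≤ (1 + ξ) * ((1 + ξ)) := by nlinarith
    apply Nat.le_floor
    calc ((1 : ℕ) : ℝ) = 1 * 1 := by norm_num
      _ ≤ ((1 + ξ) * (1 + ξ)) * (m * κ) := by gcongr
      _ = _ := by ring
  have hDpos : (0 : ℝ) < (Dn : ℝ) + k * q := by
    have h3 : (1 : ℝ) ≤ Dn := by exact_mod_cast hDn1
    have h4 : (0 : ℝ) ≤ k * q := by positivity
    linarith
  rcases many_steps n k M I Dn q hk1 with hstep | hbad | hbad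
  · set a : ℝ := ((I : ℝ) - k * q) * (2 ^ k * (n - 1).choose (k - 1)) / (Dn + k * q) with ha
    set N : ℕ := 2 ^ k * n.choose k with hN
    have hNr : (N : ℝ) = 2 ^ k * n.choose k := by rw [hN]; push_cast; ring
    have hN0 : (0 : ℝ) < N := by rw [hNr]; positivity
    have hratio : 1 - C1 * ξ ≤ a * (M / N) := by
      have e1 : a * (M / N) = ((I : ℝ) - k * q) * κ / (Dn + k * q) := by
        rw [ha, hκ]
        have : (2 : ℝ) ^ k * (n - 1).choose (k - 1) = N * k / n := by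
          rw [eq_div_iff hn0.ne', hNr]
          have := choose_ratio n k hk1 (by omega)
          calc (2 : ℝ) ^ k * (n - 1).choose (k - 1) * n
              = 2 ^ k * (n * (n - 1).choose (k - 1)) := by ring
            _ = _ := by rw [this]; ring
        rw [this]
        field_simp
      rw [e1, le_div_iff₀ hDpos]
      apply alg1 hξ hξ8 hC1ξ hC1pos hm0.le hκ0.le (by positivity) hIlow hDup
      have h1 : 3 * k * (1 + κ) ≤ ι * κ * (C1 - 4) := by
        have h2 : ι * κ * (C1 - 4) = 3 * k * κ + 12 * κ / d := by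
          rw [hC1]; field_simp; ring
        have h3 : 3 * k ≤ 12 * κ / d := by
          rw [le_div_iff₀ hd]
          linarith
        rw [h2]; linarith
      calc k * q * (1 + κ) ≤ (3 * k * ξ * n) * (1 + κ) := by gcongr
        _ = (3 * k * (1 + κ)) * (ξ * n) := by ring
        _ ≤ (ι * κ * (C1 - 4)) * (ξ * n) := by gcongr
        _ = (ι * n) * (κ * ((C1 - 4) * ξ)) := by ring
        _ ≤ m * (κ * ((C1 - 4) * ξ)) := by
            have : 0 ≤ κ * ((C1 - 4) * ξ) := by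
              apply mul_nonneg hκ0.le
              apply mul_nonneg _ hξ.le
              linarith
            gcongr
        _ = _ := by ring
    rw [probSat_eq]
    have hC' : (0 : ℝ) < (N.choose (M + q) : ℝ) := by
      have h1 : M + q ≤ N := by
        have h2 : ((M + q : ℕ) : ℝ) ≤ (N : ℝ) := by
          have h3 : ((M + q : ℕ) : ℝ) ≤ 2 * (d * n) := by
            refine le_trans hM' ?_
            have : d + ξ ≤ 2 * d := by linarith
            calc (d + ξ) * n ≤ 2 * d * n := by gcongr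
              _ = _ := by ring
          rw [hNr]
          calc ((M + q : ℕ) : ℝ) ≤ 2 * (d * n) := h3
            _ ≤ 1 * n.choose k := by linarith
            _ ≤ _ := by gcongr
        exact_mod_cast h2
      exact_mod_cast Nat.choose_pos h1
    rw [le_div_iff₀ hC']
    have h1 : ((goodSat n k (M + q) (I - k * q) (Dn + k * q)).card : ℝ)
        ≤ ((formulas n k (M + q)).filter (fun F => Satisfiable F)).card := by
      have : (goodSat n k (M + q) (I - k * q) (Dn + k * q)).card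
        ≤ ((formulas n k (M + q)).filter (fun F => Satisfiable F)).card := by
        apply card_le_card
        intro F hF
        simp only [goodSat, mem_filter] at hF ⊢
        exact ⟨hF.1, hF.2.1⟩
      exact_mod_cast this
    refine le_trans ?_ (le_trans hstep h1)
    have h2 := choose_add_le N M q hM1
    have h0 : 0 ≤ 1 - C1 * ξ := by linarith
    have ha0 : 0 ≤ a := by
      have h3 : 0 ≤ a * (M / N) := le_trans h0 hratio
      by_contra hneg
      push Not at hneg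
      have : a * (M / N) < 0 := mul_neg_of_neg_of_pos hneg (by positivity)
      linarith
    calc ξ / 4 * (1 - C1 * ξ) ^ q * (N.choose (M + q) : ℝ)
        ≤ ξ / 4 * (a * (M / N)) ^ q * (N.choose M * ((N : ℝ) / M) ^ q) := by gcongr
      _ = (N.choose M * (ξ / 4)) * (a * (M / N) * (N / M)) ^ q := by
          rw [mul_pow (a * (M / N))]; ring
      _ = (N.choose M * (ξ / 4)) * a ^ q := by
          congr 2; field_simp
      _ ≤ (goodSat n k M I Dn).card * a ^ q := by gcongr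
  · exfalso
    have h1 : (I : ℝ) < ι / 2 * n := by
      calc (I : ℝ) < k * q := hbad
        _ ≤ 3 * k * ξ * n := hkq
        _ ≤ ι / 2 * n := by gcongr
    have h2 : (1 - ξ) * m ≤ ι / 2 * n := by linarith
    have h3 : (1 - ξ) * (ι * n) ≤ (1 - ξ) * m := by
      have : 0 ≤ 1 - ξ := by linarith
      gcongr
    have h4 : 7 / 8 * (ι * n) ≤ (1 - ξ) * (ι * n) := by
      gcongr
      linarith
    have h5 : 0 < ι * n := by positivity
    linarith
  · exfalso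
    omega

theorem quad_bound (k : ℕ) (hk : 3 ≤ k) (d : ℝ) (hd : 0 < d) :
    ∃ C : ℝ, 0 < C ∧ ∃ ξ0 : ℝ, 0 < ξ0 ∧ ξ0 ≤ d / 2 ∧ ∀ ξ : ℝ, 0 < ξ → ξ ≤ ξ0 →
      Tendsto (fun n : ℕ => probSat k n ⌊(d - ξ) * n⌋₊) atTop (𝓝 1) →
      ∀ᶠ n : ℕ in atTop, ∀ M' : ℕ, ⌊(d - ξ) * n⌋₊ ≤ M' → (M' : ℝ) ≤ (d + ξ) * n →
        Real.exp (-(C * ξ ^ 2 * n)) ≤ probSat k n M' := by
  set ι : ℝ := Real.exp (-(4 * k * d)) with hι
  have hι0 : 0 < ι := Real.exp_pos _
  set C1 : ℝ := 4 + 3 * k / ι + 12 / (ι * d) with hC1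
  have hC1pos : 4 ≤ C1 := by
    have : 0 ≤ 3 * k / ι + 12 / (ι * d) := by positivity
    rw [hC1]; linarith
  refine ⟨7 * C1, by linarith, min (d / 2) (1 / (2 * C1)), by positivity, min_le_left _ _, ?_⟩
  intro ξ hξ hξ0 hsat
  have hξd : ξ ≤ d / 2 := le_trans hξ0 (min_le_left _ _)
  have hξC : ξ ≤ 1 / (2 * C1) := le_trans hξ0 (min_le_right _ _)
  have hC1ξ : C1 * ξ ≤ 1 / 2 := by
    calc C1 * ξ ≤ C1 * (1 / (2 * C1)) := by gcongr
      _ = 1 / 2 := by field_simp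
  have ev1 : ∀ᶠ n : ℕ in atTop, 1 - ξ / 8 ≤ probSat k n ⌊(d - ξ) * n⌋₊ :=
    hsat.eventually (le_mem_nhds (by linarith))
  have ev2 := ev_exp_small (C1 * ξ ^ 2) (by positivity) (ξ / 4) (by positivity)
  have evn : ∀ B : ℝ, ∀ᶠ n : ℕ in atTop, B ≤ n := fun B =>
    tendsto_natCast_atTop_atTop.eventually_ge_atTop B
  filter_upwards [ev1, ev2, big_choose k hk, eventually_ge_atTop (4 * k),
    evn (4 / d), evn (8 * k.factorial * d), evn (8 / (ξ ^ 3 * ι)), evn (4 * k / ξ), evn (1 / ξ),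
    evn (4 / (ι * d))]
    with n hsatn hexpn hbig hn4k hn1 hn2 hn3 hn4 hn5 hn6
  intro M' hMM' hM'
  obtain ⟨q, rfl⟩ : ∃ q, M' = ⌊(d - ξ) * n⌋₊ + q := ⟨M' - ⌊(d - ξ) * n⌋₊, by omega⟩
  obtain ⟨_, _, hMup', _, hMN, _⟩ :=
    M_facts k n _ hk d ξ hd hξ hξd hn4k hn1 hn2 hbig rfl
  have hp1 := iso_prob k n _ hn4k (by omega) d hMup' hMN
  rw [← hι] at hp1
  obtain ⟨h1, h2⟩ := quad_fixed k n _ q hk d ξ ι C1 hd hι0 hC1 hξ hξd hC1ξ hn4k hn1 hn2 hn3 hn4 hn5
    hn6 hbig rfl hsatn hp1 hM'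
  refine le_trans ?_ h1
  have h0 : 0 ≤ 1 - C1 * ξ := by linarith
  have h3 : Real.exp (-(6 * C1 * ξ ^ 2 * n)) ≤ (1 - C1 * ξ) ^ q := by
    have h2' := exp_neg_two_le (x := C1 * ξ) (by positivity) hC1ξ
    calc Real.exp (-(6 * C1 * ξ ^ 2 * n)) ≤ Real.exp (q * (-(2 * (C1 * ξ)))) := by
          apply Real.exp_le_exp.2
          have : (q : ℝ) * (2 * (C1 * ξ)) ≤ (3 * ξ * n) * (2 * (C1 * ξ)) := by gcongr
          have e : (3 * ξ * n) * (2 * (C1 * ξ)) = 6 * C1 * ξ ^ 2 * n := by ring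
          linarith
      _ = (Real.exp (-(2 * (C1 * ξ)))) ^ q := by rw [← Real.exp_nat_mul]
      _ ≤ _ := by gcongr
  calc Real.exp (-(7 * C1 * ξ ^ 2 * n))
      = Real.exp (-(C1 * ξ ^ 2 * n)) * Real.exp (-(6 * C1 * ξ ^ 2 * n)) := by
        rw [← Real.exp_add]; congr 1; ring
    _ ≤ ξ / 4 * (1 - C1 * ξ) ^ q := by gcongr

end Pool.Agent.H986R2.KSat
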