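import Pool.Agent.H986R2.KSat.Removal
import Pool.Agent.H986R2.KSat.PartA
import Pool.Agent.H986R2.KSat.Quad2

open Finset Filter Topology

namespace Pool.Agent.H986R2.KSat

/-- the gain factor -/
theorem gain (u : ℝ) (hu0 : 0 < u) (hu : u ≤ 1 / 10 ^ 6) :
    Real.exp (0.38 * u) * (1 - u) ≤ (1 - u / 10 ^ 6) * (1 - 0.604 * u) := by
  have h1 := exp_le_quad (x := 0.38 * u) (by positivity) (by linarith)
  have h2 : 0 ≤ 1 - u := by linarith
  have h3 : Real.exp (0.38 * u) * (1 - u) ≤ (1 + 0.38 * u + (0.38 * u) ^ 2) * (1 - u) := by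
    gcongr
  refine h3.trans ?_
  have h4 : 0 ≤ u ^ 2 := by positivity
  have h5 : 0 ≤ u ^ 3 := by positivity
  have e1 : (1 + 0.38 * u + (0.38 * u) ^ 2) * (1 - u)
      = 1 - 0.62 * u - 0.2356 * u ^ 2 - 0.1444 * u ^ 3 := by ring
  have e2 : (1 - u / 10 ^ 6) * (1 - 0.604 * u) = 1 - 0.604001 * u + 0.000000604 * u ^ 2 := by ring
  rw [e1, e2]
  linarith

/-- the gain for one removed clause -/
theorem gain2 (k n M l : ℕ) (hk : 100 ≤ k) (hC : 0 < n.choose k) (hn : 1 ≤ n)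
    (hM1 : 0.679 * 2 ^ k * (n : ℝ) ≤ M + l)
    (hsmall : ((M : ℝ) + l) * (10 ^ 6 * 2 ^ k) ≤ 2 ^ k * n.choose k)
    (hl : (l : ℝ) ≤ n / (1000 * k)) :
    Real.exp (0.38 * (1 / 2 ^ k)) * (((2 ^ k - 1) * n.choose k : ℕ) : ℝ)
      ≤ ((((2 ^ k * n.choose k : ℕ) : ℝ) - (M + l)) / (M + l)) * ((M - 2 * (n / 5) : ℕ) : ℝ) := by
  have hp := two_pow_ge k hk
  have h2k : (0 : ℝ) < 2 ^ k := by positivity
  have hC' : (0 : ℝ) < n.choose k := by exact_mod_cast hC
  have hn0 : (1 : ℝ) ≤ n := by exact_mod_cast hn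
  set u : ℝ := 1 / 2 ^ k with hu
  have hu0 : 0 < u := by positivity
  have hu6 : u ≤ 1 / 10 ^ 6 := one_div_le_one_div_of_le (by norm_num) hp
  have hg := gain u hu0 hu6
  have hk0 : (100 : ℝ) ≤ k := by exact_mod_cast hk
  set m : ℝ := (M : ℝ) + l with hm
  have hm0 : 0 < m := by
    have : (0 : ℝ) < 0.679 * 2 ^ k * n := by positivity
    linarith
  have hl2 : (l : ℝ) ≤ 0.01 * n := by
    refine hl.trans ?_
    rw [div_le_iff₀ (by positivity)]
    nlinarith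
  have ha : m - 0.41 * n ≤ ((M - 2 * (n / 5) : ℕ) : ℝ) := by
    have e1 : M ≤ (M - 2 * (n / 5)) + 2 * (n / 5) := by omega
    have e1' : (M : ℝ) ≤ ((M - 2 * (n / 5) : ℕ) : ℝ) + 2 * ((n / 5 : ℕ) : ℝ) := by exact_mod_cast e1
    have e2 : ((n / 5 : ℕ) : ℝ) ≤ n / 5 := Nat.cast_div_le
    linarith
  have ha2 : m * (1 - 0.604 * u) ≤ ((M - 2 * (n / 5) : ℕ) : ℝ) := by
    refine le_trans ?_ ha
    have e3 : 0.679 * n ≤ m * u := by
      rw [hu]
      rw [mul_one_div, le_div_iff₀ h2k]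
      linarith
    have e4 : m * (1 - 0.604 * u) = m - 0.604 * (m * u) := by ring
    rw [e4]
    nlinarith
  have hN : ((2 ^ k * n.choose k : ℕ) : ℝ) = 2 ^ k * n.choose k := by push_cast; ring
  have hN' : (((2 ^ k - 1) * n.choose k : ℕ) : ℝ) = (2 ^ k * n.choose k : ℝ) * (1 - u) := by
    have : 1 ≤ 2 ^ k := Nat.one_le_two_pow
    push_cast [Nat.cast_sub this]
    rw [hu]
    field_simp
  have hNM : (2 ^ k * n.choose k : ℝ) * (1 - u / 10 ^ 6) ≤ (2 ^ k * n.choose k : ℝ) - m := by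
    have e5 : m ≤ (2 ^ k * n.choose k : ℝ) * (u / 10 ^ 6) := by
      rw [hu, ← mul_div_assoc, le_div_iff₀ (by norm_num), mul_one_div, le_div_iff₀ h2k]
      linarith
    have e6 : (2 ^ k * n.choose k : ℝ) * (1 - u / 10 ^ 6)
        = (2 ^ k * n.choose k : ℝ) - (2 ^ k * n.choose k : ℝ) * (u / 10 ^ 6) := by ring
    linarith
  rw [hN, hN', div_mul_eq_mul_div, le_div_iff₀ hm0]
  have hpos1 : 0 ≤ 1 - u / 10 ^ 6 := by
    have : u / 10 ^ 6 ≤ 1 := by
      rw [div_le_one (by norm_num)]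
      linarith
    linarith
  have hpos2 : 0 ≤ 1 - 0.604 * u := by linarith
  calc Real.exp (0.38 * u) * ((2 ^ k * n.choose k : ℝ) * (1 - u)) * m
      = (Real.exp (0.38 * u) * (1 - u)) * ((2 ^ k * n.choose k : ℝ) * m) := by ring
    _ ≤ ((1 - u / 10 ^ 6) * (1 - 0.604 * u)) * ((2 ^ k * n.choose k : ℝ) * m) := by gcongr
    _ = ((2 ^ k * n.choose k : ℝ) * (1 - u / 10 ^ 6)) * (m * (1 - 0.604 * u)) := by ring
    _ ≤ ((2 ^ k * n.choose k : ℝ) - m) * ((M - 2 * (n / 5) : ℕ) : ℝ) := by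
        apply mul_le_mul hNM ha2 (by positivity)
        exact le_trans (by positivity) hNM

open Classical in
theorem partC_fixed (k n M l i : ℕ) (hk : 100 ≤ k) (p : ℝ) (hC : 0 < n.choose k) (hn : 1 ≤ n)
    (hM1 : 0.679 * 2 ^ k * (n : ℝ) ≤ M + l) (hM68 : 0.68 * 2 ^ k * (n : ℝ) - 1 ≤ M + l)
    (hMpos : 1 ≤ M)
    (hsmall : ((M : ℝ) + l) * (10 ^ 6 * 2 ^ k) ≤ 2 ^ k * n.choose k)
    (hl : (l : ℝ) ≤ n / (1000 * k))
    (hplant : ∀ A : Fin n → Bool,
      ((((satClauses n k A).powersetCard (M + l)).filter (fun F => BadF k i l F A)).card : ℝ)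
      ≤ Real.exp (-(0.02 * n)) * (((2 ^ k - 1) * n.choose k).choose (M + l) : ℝ))
    (hp : p ≤ probSat k n (M + l)) (hp2 : 2 * Real.exp (1 - 0.0068 * n) ≤ p) :
    p / 2 * Real.exp (0.38 * (1 / 2 ^ k) * l) ≤ expX k i n M := by
  have hk1 : 1 ≤ k := by omega
  have h2k : (0 : ℝ) < 2 ^ k := by positivity
  have h2k6 := two_pow_ge k hk
  have hC' : (0 : ℝ) < n.choose k := by exact_mod_cast hC
  have hn0 : (1 : ℝ) ≤ n := by exact_mod_cast hn
  have hgain := gain2 k n M l hk hC hn hM1 hsmall hl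
  have hcr := count_removals k n M i l hk1
  have hbc := bad_count k n (M + l) i l _ hplant
  have hfirst := choose_first k n (M + l) hC
  set N : ℕ := 2 ^ k * n.choose k with hN
  set N' : ℕ := (2 ^ k - 1) * n.choose k with hN'
  have hMN : M + l ≤ N := by
    have : ((M : ℝ) + l) ≤ (N : ℝ) := by
      have e : (N : ℝ) = 2 ^ k * n.choose k := by rw [hN]; push_cast; ring
      rw [e]
      refine le_trans ?_ hsmall
      have h0 : (0 : ℝ) ≤ (M : ℝ) + l := by positivity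
      have h1 : (1 : ℝ) ≤ 10 ^ 6 * 2 ^ k := by nlinarith
      nlinarith
    exact_mod_cast this
  have hN'pos : (0 : ℝ) < (N' : ℝ) := by
    have h1 : 1 < 2 ^ k := Nat.one_lt_two_pow (by omega)
    have : 0 < N' := by rw [hN']; exact Nat.mul_pos (by omega) hC
    exact_mod_cast this
  set CN : ℝ := (N.choose (M + l) : ℝ) with hCN
  have hCN0 : 0 < CN := by rw [hCN]; exact_mod_cast Nat.choose_pos hMN
  set g : ℝ := (((formulas n k (M + l)).filter
        (fun F => Satisfiable F ∧ ¬ BadF k i l F (amax F))).card : ℝ) with hg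
  -- the number of bad formulas
  have hbad : (((formulas n k (M + l)).filter
      (fun F => Satisfiable F ∧ BadF k i l F (amax F))).card : ℝ)
      ≤ Real.exp (1 - 0.0068 * n) * CN := by
    refine hbc.trans ?_
    calc (2 : ℝ) ^ n * (Real.exp (-(0.02 * n)) * (N'.choose (M + l) : ℝ))
        ≤ 2 ^ n * (Real.exp (-(0.02 * n)) * (Real.exp (-(((M + l : ℕ) : ℝ) / 2 ^ k)) * CN)) := by
          gcongr
      _ = (Real.exp (Real.log 2 * n) * Real.exp (-(0.02 * n)) *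
            Real.exp (-(((M + l : ℕ) : ℝ) / 2 ^ k))) * CN := by rw [two_pow_eq]; ring
      _ = Real.exp (Real.log 2 * n - 0.02 * n - ((M + l : ℕ) : ℝ) / 2 ^ k) * CN := by
          rw [← Real.exp_add, ← Real.exp_add]; congr 2
      _ ≤ Real.exp (1 - 0.0068 * n) * CN := by
          apply mul_le_mul_of_nonneg_right _ hCN0.le
          apply Real.exp_le_exp.2
          have h1 := Real.log_two_lt_d9
          have h2 : Real.log 2 * n ≤ 0.69315 * n := by
            apply mul_le_mul_of_nonneg_right _ (by positivity)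
            linarith
          have h3 : 0.68 * (n : ℝ) - 1 ≤ ((M + l : ℕ) : ℝ) / 2 ^ k := by
            rw [le_div_iff₀ h2k]
            push_cast
            have : (0.68 * (n : ℝ) - 1) * 2 ^ k ≤ 0.68 * 2 ^ k * n - 1 := by
              have e : (0.68 * (n : ℝ) - 1) * 2 ^ k = 0.68 * 2 ^ k * n - 2 ^ k := by ring
              rw [e]; linarith
            linarith
          linarith
  have hsatcount : p * CN ≤ (((formulas n k (M + l)).filter (fun F => Satisfiable F)).card : ℝ) := by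
    rw [probSat_eq, ← hN, le_div_iff₀ hCN0] at hp
    exact hp
  have hsplit : (((formulas n k (M + l)).filter (fun F => Satisfiable F)).card : ℝ)
      ≤ g + (((formulas n k (M + l)).filter
      (fun F => Satisfiable F ∧ BadF k i l F (amax F))).card : ℝ) := by
    have hsub : (formulas n k (M + l)).filter (fun F => Satisfiable F)
        ⊆ (formulas n k (M + l)).filter (fun F => Satisfiable F ∧ ¬ BadF k i l F (amax F)) ∪
          (formulas n k (M + l)).filter (fun F => Satisfiable F ∧ BadF k i l F (amax F)) := by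
      intro F hF
      rw [mem_filter] at hF
      rw [mem_union, mem_filter, mem_filter]
      by_cases hB : BadF k i l F (amax F)
      · exact Or.inr ⟨hF.1, hF.2, hB⟩
      · exact Or.inl ⟨hF.1, hF.2, hB⟩
    have := (card_le_card hsub).trans (card_union_le _ _)
    rw [hg]
    exact_mod_cast this
  have hgood : p / 2 * CN ≤ g := by
    have : Real.exp (1 - 0.0068 * n) * CN ≤ p / 2 * CN := by
      apply mul_le_mul_of_nonneg_right _ hCN0.le
      linarith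
    linarith
  have hp0 : 0 ≤ p := le_trans (by positivity) hp2
  set S : ℝ := ∑ F ∈ formulas n k M, (X i F : ℝ) with hS
  have hS0 : 0 ≤ S := sum_nonneg (fun _ _ => by positivity)
  set a : ℝ := ((M - 2 * (n / 5) : ℕ) : ℝ) with ha
  have ha0 : 0 ≤ a := by positivity
  have hl0 : (0 : ℝ) < l.factorial := by exact_mod_cast Nat.factorial_pos l
  have h1 : g * a ^ l ≤ S * (N' : ℝ) ^ l := by
    have h2 := Nat.choose_le_pow_div (α := ℝ) l N'
    have h3 : g * (a ^ l / l.factorial) ≤ S * ((N' : ℝ) ^ l / l.factorial) :=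
      hcr.trans (mul_le_mul_of_nonneg_left h2 hS0)
    have h4 : g * a ^ l / l.factorial ≤ S * (N' : ℝ) ^ l / l.factorial := by
      rw [mul_div_assoc, mul_div_assoc]; exact h3
    exact (div_le_div_iff_of_pos_right hl0).1 h4
  have h5 := choose_add_ge N M l hMN hMpos l le_rfl
  set CM : ℝ := (N.choose M : ℝ) with hCM
  have hCM0 : 0 < CM := by rw [hCM]; exact_mod_cast Nat.choose_pos (by omega)
  set r : ℝ := ((N : ℝ) - (M + l)) / (M + l) with hr
  have hr0 : 0 ≤ r := by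
    rw [hr]
    apply div_nonneg _ (by positivity)
    have : ((M : ℝ) + l) ≤ N := by exact_mod_cast hMN
    linarith
  have h6 : (p / 2 * Real.exp (0.38 * (1 / 2 ^ k) * l) * CM) * (N' : ℝ) ^ l ≤ S * (N' : ℝ) ^ l := by
    calc (p / 2 * Real.exp (0.38 * (1 / 2 ^ k) * l) * CM) * (N' : ℝ) ^ l
        = (p / 2 * CM) * (Real.exp (0.38 * (1 / 2 ^ k)) * N') ^ l := by
          have : Real.exp (0.38 * (1 / 2 ^ k) * l) = (Real.exp (0.38 * (1 / 2 ^ k))) ^ l := by
            rw [← Real.exp_nat_mul]; congr 1; ring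
          rw [this, mul_pow]; ring
      _ ≤ (p / 2 * CM) * (r * a) ^ l := by gcongr
      _ = (p / 2 * (CM * r ^ l)) * a ^ l := by rw [mul_pow]; ring
      _ ≤ (p / 2 * CN) * a ^ l := by gcongr
      _ ≤ g * a ^ l := by gcongr
      _ ≤ _ := h1
  have h7 := le_of_mul_le_mul_right h6 (by positivity)
  unfold expX
  rw [card_formulas, ← hN, le_div_iff₀ (by rw [← hCM]; exact hCM0)]
  exact h7

/-- floors -/
theorem floor_gap (a b x : ℝ) (ha : 0 ≤ a) (hab : a ≤ b) (hx : 0 ≤ x) :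
    ⌊a * x⌋₊ ≤ ⌊b * x⌋₊ ∧ (b - a) * x - 1 ≤ ((⌊b * x⌋₊ - ⌊a * x⌋₊ : ℕ) : ℝ) ∧
      ((⌊b * x⌋₊ - ⌊a * x⌋₊ : ℕ) : ℝ) ≤ (b - a) * x + 1 := by
  have h1 : ⌊a * x⌋₊ ≤ ⌊b * x⌋₊ := Nat.floor_le_floor (by gcongr)
  refine ⟨h1, ?_, ?_⟩
  · rw [Nat.cast_sub h1]
    have h2 : b * x - 1 ≤ ⌊b * x⌋₊ := (Nat.sub_one_lt_floor _).le
    have h3 : (⌊a * x⌋₊ : ℝ) ≤ a * x := Nat.floor_le (by positivity)
    linarith
  · rw [Nat.cast_sub h1]
    have h2 : a * x - 1 ≤ ⌊a * x⌋₊ := (Nat.sub_one_lt_floor _).le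
    have h3 : (⌊b * x⌋₊ : ℝ) ≤ b * x := Nat.floor_le (mul_nonneg (ha.trans hab) hx)
    linarith

theorem two_exp_one_le (x : ℝ) (hx : 2 ≤ x) : 2 * Real.exp 1 ≤ Real.exp x := by
  have h1 : (2 : ℝ) ≤ Real.exp 1 := by
    have := Real.add_one_le_exp (1 : ℝ)
    linarith
  calc 2 * Real.exp 1 ≤ Real.exp 1 * Real.exp 1 := by gcongr
    _ = Real.exp 2 := by rw [← Real.exp_add]; norm_num
    _ ≤ Real.exp x := Real.exp_le_exp.2 hx

theorem expLarge_C (k : ℕ) (hk : 100 ≤ k) (hd1 : 0.68 * 2 ^ k ≤ dSat k)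
    (hd2 : dSat k ≤ 0.6932 * 2 ^ k)
    (hS : ∀ ξ, 0 < ξ → ξ < dSat k →
      Tendsto (fun n : ℕ => probSat k n ⌊(dSat k - ξ) * n⌋₊) atTop (𝓝 1)) :
    ∃ δ : ℝ, 0 < δ ∧ ∀ i, 1 ≤ i → ExpLarge k i (dSat k + δ) := by
  have h2k : (0 : ℝ) < 2 ^ k := by positivity
  have h2k6 := two_pow_ge k hk
  have hk0 : (100 : ℝ) ≤ k := by exact_mod_cast hk
  set d : ℝ := dSat k with hd
  have hd0 : 0 < d := lt_of_lt_of_le (by positivity) hd1
  obtain ⟨C, hC, ξ0, hξ0, hξ0d, hquad⟩ := quad_bound k (by omega) d hd0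
  set u : ℝ := 1 / 2 ^ k with hu
  have hu0 : 0 < u := by positivity
  have hu1 : u ≤ 1 / 10 ^ 6 := one_div_le_one_div_of_le (by norm_num) h2k6
  obtain ⟨ξ, hξ, hξa, hξb, hξc⟩ : ∃ ξ : ℝ, 0 < ξ ∧ ξ ≤ ξ0 ∧ ξ ≤ 1 / (1000 * k) ∧
      ξ ≤ 0.06 * u / C := by
    refine ⟨min ξ0 (min (1 / (1000 * k)) (0.06 * u / C)), ?_, min_le_left _ _,
      (min_le_right _ _).trans (min_le_left _ _), (min_le_right _ _).trans (min_le_right _ _)⟩
    have : (0 : ℝ) < 1 / (1000 * k) := by positivity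
    positivity
  have hCξ : C * ξ ^ 2 ≤ 0.06 * u * ξ := by
    rw [le_div_iff₀ hC] at hξc
    have := mul_le_mul_of_nonneg_right hξc hξ.le
    calc C * ξ ^ 2 = ξ * C * ξ := by ring
      _ ≤ _ := this
  have hξ1 : ξ ≤ 1 := by
    refine hξb.trans ?_
    rw [div_le_one (by positivity)]
    linarith
  have hCξ' : C * ξ ^ 2 ≤ 0.005 := by
    refine hCξ.trans ?_
    have : u * ξ ≤ 1 / 10 ^ 6 * 1 := by gcongr
    linarith
  have hξd : ξ < d := by linarith
  refine ⟨ξ / 2, by positivity, fun i hi => ⟨0.1 * u * ξ, by positivity, ?_⟩⟩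
  have e1 := planted_bad k i hk hi
  have e2 := hquad ξ hξ hξa (hS ξ hξ hξd)
  have e3 := ev_small k (by omega) (0.7 * 2 ^ k * 10 ^ 6)
  have e4 : ∀ᶠ n : ℕ in atTop, (2000 : ℝ) ≤ n :=
    tendsto_natCast_atTop_atTop.eventually_ge_atTop _
  have e5 : ∀ᶠ n : ℕ in atTop, 100 / (u * ξ) ≤ (n : ℝ) :=
    tendsto_natCast_atTop_atTop.eventually_ge_atTop _
  filter_upwards [e1, e2, e3, e4, e5] with n e1 e2 e3 e4 e5
  have hn0 : (0 : ℝ) < n := by linarith
  have hn1 : 1 ≤ n := by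
    have : (1 : ℝ) ≤ n := by linarith
    exact_mod_cast this
  have huξn : 100 ≤ u * ξ * n := by
    rw [div_le_iff₀ (by positivity)] at e5
    linarith
  have hξn : 100 ≤ ξ * n := by
    have h1 : u * (ξ * n) ≤ 1 * (ξ * n) := by
      apply mul_le_mul_of_nonneg_right _ (by positivity)
      linarith
    linarith
  obtain ⟨hMM, hlge, hlle⟩ := floor_gap (d + ξ / 2) (d + ξ) n (by positivity) (by linarith)
    hn0.le
  set M : ℕ := ⌊(d + ξ / 2) * (n : ℝ)⌋₊ with hM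
  set M' : ℕ := ⌊(d + ξ) * (n : ℝ)⌋₊ with hM'
  set l : ℕ := M' - M with hl
  have hMl : M + l = M' := by omega
  have hM'1 : (M' : ℝ) ≤ (d + ξ) * n := Nat.floor_le (by positivity)
  have hM'2 : (d + ξ) * n - 1 ≤ (M' : ℝ) := (Nat.sub_one_lt_floor _).le
  have hM1' : (d + ξ / 2) * n - 1 ≤ (M : ℝ) := (Nat.sub_one_lt_floor _).le
  have hdn1 : 0.68 * 2 ^ k * n ≤ d * n := by gcongr
  have hdn2 : d * n ≤ 0.6932 * 2 ^ k * n := by gcongr
  have hpn : (10 : ℝ) ^ 6 * n ≤ 2 ^ k * n := by gcongr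
  have hMlow : 0.68 * 2 ^ k * (n : ℝ) - 1 ≤ M' := by
    have : 0 ≤ ξ * n := by positivity
    linarith
  have hMlow2 : 0.679 * 2 ^ k * (n : ℝ) ≤ M' := by linarith
  have hMup : (M' : ℝ) ≤ 0.7 * 2 ^ k * n := by
    have : ξ * n ≤ 1 * n := by gcongr
    linarith
  have hl2 : (l : ℝ) ≤ n / (1000 * k) := by
    have h1 : ξ * n ≤ 1 / (1000 * k) * n := by gcongr
    have h2 : (d + ξ - (d + ξ / 2)) * n + 1 ≤ ξ * n := by
      have : (d + ξ - (d + ξ / 2)) * n = ξ * n / 2 := by ring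
      rw [this]; linarith
    calc (l : ℝ) ≤ (d + ξ - (d + ξ / 2)) * n + 1 := hlle
      _ ≤ ξ * n := h2
      _ ≤ _ := h1
      _ = _ := by ring
  have hC0 : 0 < n.choose k := by
    have : (0 : ℝ) < n.choose k := lt_of_lt_of_le (by positivity) e3
    exact_mod_cast this
  have hsmall : ((M : ℝ) + l) * (10 ^ 6 * 2 ^ k) ≤ 2 ^ k * (n.choose k : ℝ) := by
    have e : ((M : ℝ) + l) = (M' : ℝ) := by rw [← hMl]; push_cast; ring
    rw [e]
    calc (M' : ℝ) * (10 ^ 6 * 2 ^ k) ≤ (0.7 * 2 ^ k * n) * (10 ^ 6 * 2 ^ k) := by gcongr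
      _ = 2 ^ k * (0.7 * 2 ^ k * 10 ^ 6 * (n : ℝ)) := by ring
      _ ≤ 2 ^ k * (n.choose k : ℝ) := by gcongr
  have hMpos : 1 ≤ M := by
    have h3 : 0 ≤ ξ / 2 * n := by positivity
    have : (1 : ℝ) ≤ M := by linarith
    exact_mod_cast this
  have hplant := e1 M' l hMlow2 hMup hl2
  have hprob := e2 M' (Nat.floor_le_floor (by
    apply mul_le_mul_of_nonneg_right _ hn0.le
    linarith)) hM'1
  have hsum : ((M : ℝ) + l) = (M' : ℝ) := by rw [← hMl]; push_cast; ring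
  have hp2 : 2 * Real.exp (1 - 0.0068 * n) ≤ Real.exp (-(C * ξ ^ 2 * n)) := by
    have h1 : Real.exp (-(0.005 * n)) ≤ Real.exp (-(C * ξ ^ 2 * n)) := by
      apply Real.exp_le_exp.2
      have : C * ξ ^ 2 * n ≤ 0.005 * n := by gcongr
      linarith
    refine le_trans ?_ h1
    have h2 : 2 * Real.exp 1 ≤ Real.exp (0.0018 * n) := two_exp_one_le _ (by linarith)
    calc 2 * Real.exp (1 - 0.0068 * n) = 2 * Real.exp 1 * Real.exp (-(0.0068 * n)) := by
          rw [mul_assoc, ← Real.exp_add]; congr 2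
      _ ≤ Real.exp (0.0018 * n) * Real.exp (-(0.0068 * n)) := by gcongr
      _ = Real.exp (-(0.005 * n)) := by rw [← Real.exp_add]; congr 1; ring
  have hfix := partC_fixed k n M l i hk (Real.exp (-(C * ξ ^ 2 * n))) hC0 hn1
    (by rw [hsum]; exact hMlow2) (by rw [hsum]; exact hMlow) hMpos hsmall hl2
    (by rw [hMl]; exact hplant) (by rw [hMl]; exact hprob) hp2
  refine le_trans ?_ hfix
  -- final comparison of exponents
  have hE1 : Real.exp (-(0.06 * u * ξ * n)) ≤ Real.exp (-(C * ξ ^ 2 * n)) := by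
    apply Real.exp_le_exp.2
    have : C * ξ ^ 2 * n ≤ 0.06 * u * ξ * n := by gcongr
    linarith
  have hE2 : Real.exp (0.19 * (u * ξ * n) - 1) ≤ Real.exp (0.38 * u * l) := by
    apply Real.exp_le_exp.2
    have h1 : ξ * n / 2 - 1 ≤ (l : ℝ) := by
      have : (d + ξ - (d + ξ / 2)) * n = ξ * n / 2 := by ring
      linarith
    have h2 : 0.38 * u * (ξ * n / 2 - 1) ≤ 0.38 * u * l := by gcongr
    have h3 : 0.38 * u * (ξ * n / 2 - 1) = 0.19 * (u * ξ * n) - 0.38 * u := by ring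
    linarith
  have hE3 : 2 * Real.exp 1 ≤ Real.exp (0.03 * (u * ξ * n)) := two_exp_one_le _ (by linarith)
  have hE4 : Real.exp (0.1 * u * ξ * n) * (2 * Real.exp 1)
      ≤ Real.exp (-(0.06 * u * ξ * n)) * Real.exp (0.19 * (u * ξ * n)) := by
    calc Real.exp (0.1 * u * ξ * n) * (2 * Real.exp 1)
        ≤ Real.exp (0.1 * u * ξ * n) * Real.exp (0.03 * (u * ξ * n)) := by gcongr
      _ = Real.exp (-(0.06 * u * ξ * n)) * Real.exp (0.19 * (u * ξ * n)) := by
          rw [← Real.exp_add, ← Real.exp_add]; congr 1; ring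
  have hE5 : Real.exp (0.19 * (u * ξ * n)) = Real.exp (0.19 * (u * ξ * n) - 1) * Real.exp 1 := by
    rw [← Real.exp_add]; congr 1; ring
  rw [hE5] at hE4
  have hE6 : (Real.exp (0.1 * u * ξ * n)) * Real.exp 1
      ≤ (Real.exp (-(0.06 * u * ξ * n)) / 2 * Real.exp (0.19 * (u * ξ * n) - 1)) * Real.exp 1 := by
    linarith
  have hE7 := le_of_mul_le_mul_right hE6 (Real.exp_pos 1)
  refine hE7.trans ?_
  gcongr

end Pool.Agent.H986R2.KSat
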