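import Pool.Agent.H986R2.KSat.Asym

open Finset Filter Topology

namespace Pool.Agent.H986R2.KSat

theorem ev_exp (K a b : ℝ) (h : b < a) :
    ∀ᶠ n : ℕ in atTop, K * Real.exp (-(a * n)) ≤ Real.exp (-(b * n)) / 4 := by
  have h1 : Tendsto (fun n : ℕ => K * Real.exp (-((a - b) * n))) atTop (𝓝 (K * 0)) := by
    apply Tendsto.const_mul
    apply Real.tendsto_exp_atBot.comp
    apply tendsto_neg_atTop_atBot.comp
    exact Tendsto.const_mul_atTop (by linarith) tendsto_natCast_atTop_atTop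
  rw [mul_zero] at h1
  filter_upwards [h1.eventually (gt_mem_nhds (show (0 : ℝ) < 1 / 4 by norm_num))] with n hn
  have e : K * Real.exp (-(a * n)) = (K * Real.exp (-((a - b) * n))) * Real.exp (-(b * n)) := by
    rw [mul_assoc, ← Real.exp_add]; congr 2; ring
  rw [e]
  have : 0 < Real.exp (-(b * n)) := Real.exp_pos _
  nlinarith

theorem tt_tendsto (k i : ℕ) (hk : 1 ≤ k) (hi : 1 ≤ i) :
    Tendsto (fun n => tt n k i) atTop atTop := by
  unfold tt
  exact Nat.tendsto_div_const_atTop (by positivity)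

theorem ev_fact (L : ℝ) (hL : 0 ≤ L) (b : ℝ) (hb : 0 ≤ b) (k i : ℕ) (hk : 1 ≤ k) (hi : 1 ≤ i) :
    ∀ᶠ n : ℕ in atTop, L ^ (tt n k i) / ((tt n k i).factorial : ℝ) ≤ Real.exp (-(b * n)) / 4 := by
  set a : ℕ := 1000 * i * k ^ 2 with ha
  have hapos : 0 < a := by positivity
  have h1 := (FloorSemiring.tendsto_pow_div_factorial_atTop (L * Real.exp (b * a))).comp
    (tt_tendsto k i hk hi)
  have h2 := h1.const_mul (Real.exp (b * a))
  rw [mul_zero] at h2
  filter_upwards [h2.eventually (gt_mem_nhds (show (0 : ℝ) < 1 / 4 by norm_num))] with n hn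
  simp only [Function.comp] at hn
  set t := tt n k i with ht
  have h3 : (n : ℝ) ≤ a * (t + 1) := by
    have : n < (tt n k i) * a + a := by
      unfold tt
      exact Nat.lt_div_mul_add hapos
    have h4 : n ≤ a * (t + 1) := by rw [ht]; nlinarith
    exact_mod_cast h4
  have h5 : Real.exp (b * n) ≤ Real.exp (b * a) * (Real.exp (b * a)) ^ t := by
    rw [← Real.exp_nat_mul, ← Real.exp_add]
    apply Real.exp_le_exp.2
    have : b * n ≤ b * (a * (t + 1)) := by gcongr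
    calc b * n ≤ b * (a * (t + 1)) := this
      _ = _ := by ring
  have h6 : L ^ t / t.factorial * Real.exp (b * n) ≤ 1 / 4 := by
    calc L ^ t / t.factorial * Real.exp (b * n)
        ≤ L ^ t / t.factorial * (Real.exp (b * a) * (Real.exp (b * a)) ^ t) := by gcongr
      _ = Real.exp (b * a) * ((L * Real.exp (b * a)) ^ t / t.factorial) := by
          rw [mul_pow]; ring
      _ ≤ 1 / 4 := hn.le
  rw [Real.exp_neg]
  have hpos : 0 < Real.exp (b * n) := Real.exp_pos _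
  rw [div_eq_mul_inv _ (4 : ℝ), mul_comm, ← div_eq_mul_inv]
  rw [le_div_iff₀ hpos]
  linarith

/-- All the numerical facts which hold for large `n`, for all relevant `M`. -/
theorem numerics (k i : ℕ) (hk : 100 ≤ k) (hi : 1 ≤ i) : ∀ᶠ n : ℕ in atTop, ∀ M l : ℕ,
    0.679 * 2 ^ k * (n : ℝ) ≤ M → (M : ℝ) ≤ 0.7 * 2 ^ k * n → (l : ℝ) ≤ n / (1000 * k) →
    2 * M ^ 2 ≤ (2 ^ k - 1) * n.choose k ∧ 0 < (2 ^ k - 1) * n.choose k ∧
    (0.0604 * n ≤ M * (((zz n k : ℝ) - (tt n k i * (i * k) : ℕ)) * (n - zz n k).choose (k - 1) /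
          ((2 ^ k - 1) * n.choose k : ℕ))) ∧
    (M * ((((n : ℝ) + zz n k) ^ k / k.factorial - n.choose k) /
          ((2 ^ k - 1) * n.choose k : ℕ)) ≤ 0.078 * n) ∧
    (M * (((l : ℝ) * (n - 1).choose (k - 1)) / ((2 ^ k - 1) * n.choose k : ℕ)) ≤ 0.001 * n) ∧
    (∑ s ∈ range (i + 1), ((n : ℝ) * (s * (2 ^ k * (n - 2).choose (k - 2))) *
          ((M : ℝ) / ((2 ^ k - 1) * n.choose k : ℕ))) ^ s
        ≤ (i + 1) * (1 + 4 * i * k ^ 2 * 2 ^ k) ^ i) := by
  have hk1 : 1 ≤ k := by omega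
  have hk2 : (0 : ℝ) < k := by exact_mod_cast hk1
  have hpow : (1 : ℝ) ≤ 2 ^ k := one_le_pow₀ (by norm_num)
  have hpow100 : (2 : ℝ) ^ 100 ≤ 2 ^ k := pow_le_pow_right₀ (by norm_num) hk
  have hpowbig : (1000000 : ℝ) ≤ 2 ^ k := le_trans (by norm_num) hpow100
  filter_upwards [big_choose k (by omega), eventually_ge_atTop (16 * k.factorial * 4 ^ k),
    eventually_ge_atTop (1000 * (2 * k + k ^ 2)), eventually_ge_atTop 2] with n hbig hn1 hn2 hn3
  intro M l hM1 hM2 hl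
  have hn0 : (0 : ℝ) < n := by
    have : 0 < n := by omega
    exact_mod_cast this
  have hCpos : (0 : ℝ) < (n.choose k : ℝ) := lt_of_lt_of_le (by positivity) hbig
  have hN' : (((2 ^ k - 1) * n.choose k : ℕ) : ℝ) = (2 ^ k - 1) * (n.choose k : ℝ) := by
    push_cast [Nat.cast_sub Nat.one_le_two_pow]; ring
  have hN'pos : (0 : ℝ) < (((2 ^ k - 1) * n.choose k : ℕ) : ℝ) := by
    rw [hN']; apply mul_pos _ hCpos; linarith
  have hN'le : (((2 ^ k - 1) * n.choose k : ℕ) : ℝ) ≤ 2 ^ k * (n.choose k : ℝ) := by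
    rw [hN']; gcongr; linarith
  have hN'ge : 0.999 * 2 ^ k * (n.choose k : ℝ) ≤ (((2 ^ k - 1) * n.choose k : ℕ) : ℝ) := by
    rw [hN']; gcongr; linarith
  have hratio := choose_ratio n k hk1 (by omega)
  refine ⟨?_, by exact_mod_cast hN'pos, ?_, ?_, ?_, ?_⟩
  · -- 2 M^2 ≤ N'
    have h1 : (2 : ℝ) * M ^ 2 ≤ (((2 ^ k - 1) * n.choose k : ℕ) : ℝ) := by
      have h2 : (M : ℝ) ≤ 2 ^ k * n := by
        refine le_trans hM2 ?_
        gcongr
        nlinarith
      have h3 : (2 : ℝ) * M ^ 2 ≤ 2 * (2 ^ k * n) ^ 2 := by gcongr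
      have h4 : (16 : ℝ) * k.factorial * 4 ^ k ≤ n := by exact_mod_cast hn1
      have h5 : (2 : ℝ) * (2 ^ k * n) ^ 2 ≤ n ^ 3 / (8 * k.factorial) := by
        rw [le_div_iff₀ (by positivity)]
        have e : (2 : ℝ) * (2 ^ k * n) ^ 2 * (8 * k.factorial)
            = (16 * k.factorial * 4 ^ k) * n ^ 2 := by
          rw [mul_pow, ← pow_mul, mul_comm k 2, pow_mul]; norm_num; ring
        rw [e]
        calc (16 * k.factorial * 4 ^ k) * (n : ℝ) ^ 2 ≤ n * n ^ 2 := by gcongr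
          _ = _ := by ring
      have h6 : (n.choose k : ℝ) ≤ (((2 ^ k - 1) * n.choose k : ℕ) : ℝ) := by
        rw [hN']
        nlinarith
      linarith
    exact_mod_cast h1
  · -- B1 exponent
    have hz := zz_lower n k hk1
    have ht := tt_mul n k i hk1
    have hR1 := choose_R1 n k hk1 (by nlinarith)
    rw [← mul_div_assoc, le_div_iff₀ hN'pos]
    have h1 : 0.099 * (n : ℝ) / k ≤ (zz n k : ℝ) - (tt n k i * (i * k) : ℕ) := by
      have e : (n : ℝ) / (10 * k) - n / (1000 * k) = 0.099 * n / k := by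
        field_simp; norm_num
      linarith
    have h2 : (0.0604 : ℝ) * n * (((2 ^ k - 1) * n.choose k : ℕ) : ℝ)
        ≤ 0.0604 * n * (2 ^ k * (n.choose k : ℝ)) := by gcongr
    refine le_trans h2 ?_
    have h3 : (0.679 * 2 ^ k * (n : ℝ)) * ((0.099 * (n : ℝ) / k) *
        (0.899 * ((n - 1).choose (k - 1) : ℝ)))
        ≤ M * (((zz n k : ℝ) - (tt n k i * (i * k) : ℕ)) * (n - zz n k).choose (k - 1)) := by
      have hnn : 0 ≤ 0.099 * (n : ℝ) / k := by positivity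
      gcongr
      exact le_trans hnn h1
    refine le_trans ?_ h3
    have h4 : (0.679 * 2 ^ k * (n : ℝ)) * ((0.099 * (n : ℝ) / k) *
        (0.899 * ((n - 1).choose (k - 1) : ℝ)))
        = 0.679 * 0.099 * 0.899 * 2 ^ k * n * (((n : ℝ) * ((n - 1).choose (k - 1) : ℝ)) / k) := by
      ring
    rw [h4, hratio, mul_div_cancel_left₀ _ hk2.ne']
    have : (0.0604 : ℝ) ≤ 0.679 * 0.099 * 0.899 := by norm_num
    calc 0.0604 * (n : ℝ) * (2 ^ k * (n.choose k : ℝ))
        ≤ (0.679 * 0.099 * 0.899) * (n : ℝ) * (2 ^ k * (n.choose k : ℝ)) := by gcongr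
      _ = _ := by ring
  · -- B3
    have hR2 := choose_R2 n k hk1 hn2
    rw [← mul_div_assoc, div_le_iff₀ hN'pos]
    have h1 : ((n : ℝ) + zz n k) ^ k / k.factorial - n.choose k ≤ 0.1113 * n.choose k := by
      linarith
    calc (M : ℝ) * (((n : ℝ) + zz n k) ^ k / k.factorial - n.choose k)
        ≤ (M : ℝ) * (0.1113 * n.choose k) := by gcongr
      _ ≤ (0.7 * 2 ^ k * n) * (0.1113 * n.choose k) := by gcongr
      _ ≤ 0.078 * n * (0.999 * 2 ^ k * (n.choose k : ℝ)) := by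
          have : (0 : ℝ) ≤ 2 ^ k * n * n.choose k := by positivity
          nlinarith
      _ ≤ _ := by gcongr
  · -- B4
    rw [← mul_div_assoc, div_le_iff₀ hN'pos]
    calc (M : ℝ) * ((l : ℝ) * (n - 1).choose (k - 1))
        ≤ (0.7 * 2 ^ k * n) * ((n / (1000 * k)) * (n - 1).choose (k - 1)) := by gcongr
      _ = 0.0007 * 2 ^ k * n * (((n : ℝ) * ((n - 1).choose (k - 1) : ℝ)) / k) := by ring
      _ = 0.0007 * 2 ^ k * n * n.choose k := by
          rw [hratio, mul_div_cancel_left₀ _ hk2.ne']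
      _ ≤ 0.001 * n * (0.999 * 2 ^ k * (n.choose k : ℝ)) := by
          have : (0 : ℝ) ≤ 2 ^ k * n * n.choose k := by positivity
          nlinarith
      _ ≤ _ := by gcongr
  · -- B2
    have hr2 : ((n : ℝ) - 1) * ((n - 2).choose (k - 2) : ℝ)
        = (k - 1) * ((n - 1).choose (k - 1) : ℝ) := by
      have := choose_ratio (n - 1) (k - 1) (by omega) (by omega)
      rw [Nat.cast_sub (by omega), Nat.cast_sub (by omega)] at this
      simpa [Nat.sub_sub] using this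
    have hbase : ∀ s ∈ range (i + 1), (n : ℝ) * (s * (2 ^ k * (n - 2).choose (k - 2))) *
          ((M : ℝ) / ((2 ^ k - 1) * n.choose k : ℕ)) ≤ 4 * i * k ^ 2 * 2 ^ k := by
      intro s hs
      have hs' : (s : ℝ) ≤ i := by
        have : s ≤ i := by simpa [Nat.lt_succ_iff] using hs
        exact_mod_cast this
      rw [← mul_div_assoc, div_le_iff₀ hN'pos]
      have hn1' : (n : ℝ) / 2 ≤ n - 1 := by
        have : (2 : ℝ) ≤ n := by exact_mod_cast hn3
        linarith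
      have h1 : (n : ℝ) / 2 * ((n - 2).choose (k - 2) : ℝ) ≤ k * ((n - 1).choose (k - 1) : ℝ) := by
        calc (n : ℝ) / 2 * ((n - 2).choose (k - 2) : ℝ)
            ≤ ((n : ℝ) - 1) * ((n - 2).choose (k - 2) : ℝ) := by gcongr
          _ = (k - 1) * ((n - 1).choose (k - 1) : ℝ) := hr2
          _ ≤ k * ((n - 1).choose (k - 1) : ℝ) := by gcongr; linarith
      have h2 : (n : ℝ) * ((n : ℝ) / 2 * ((n - 2).choose (k - 2) : ℝ))
          ≤ k ^ 2 * (n.choose k : ℝ) := by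
        calc (n : ℝ) * ((n : ℝ) / 2 * ((n - 2).choose (k - 2) : ℝ))
            ≤ (n : ℝ) * (k * ((n - 1).choose (k - 1) : ℝ)) := by gcongr
          _ = k * ((n : ℝ) * ((n - 1).choose (k - 1) : ℝ)) := by ring
          _ = _ := by rw [hratio]; ring
      calc (n : ℝ) * (s * (2 ^ k * (n - 2).choose (k - 2))) * M
          ≤ (n : ℝ) * (i * (2 ^ k * (n - 2).choose (k - 2))) * (0.7 * 2 ^ k * n) := by gcongr
        _ = 1.4 * i * 2 ^ k * 2 ^ k * ((n : ℝ) * ((n : ℝ) / 2 * ((n - 2).choose (k - 2) : ℝ))) := by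
            ring
        _ ≤ 1.4 * i * 2 ^ k * 2 ^ k * (k ^ 2 * (n.choose k : ℝ)) := by gcongr
        _ ≤ 4 * i * k ^ 2 * 2 ^ k * (0.999 * 2 ^ k * (n.choose k : ℝ)) := by
            have : (0 : ℝ) ≤ i * 2 ^ k * 2 ^ k * (k ^ 2 * (n.choose k : ℝ)) := by positivity
            nlinarith
        _ ≤ _ := by gcongr
    have hterm : ∀ s ∈ range (i + 1), ((n : ℝ) * (s * (2 ^ k * (n - 2).choose (k - 2))) *
          ((M : ℝ) / ((2 ^ k - 1) * n.choose k : ℕ))) ^ s ≤ (1 + 4 * i * k ^ 2 * 2 ^ k) ^ i := by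
      intro s hs
      have hs' : s ≤ i := by simpa [Nat.lt_succ_iff] using hs
      have h0 : 0 ≤ (n : ℝ) * (s * (2 ^ k * (n - 2).choose (k - 2))) *
          ((M : ℝ) / ((2 ^ k - 1) * n.choose k : ℕ)) := by positivity
      calc ((n : ℝ) * (s * (2 ^ k * (n - 2).choose (k - 2))) *
          ((M : ℝ) / ((2 ^ k - 1) * n.choose k : ℕ))) ^ s
          ≤ (1 + 4 * i * k ^ 2 * 2 ^ k) ^ s := by
            apply pow_le_pow_left₀ h0
            have := hbase s hs
            linarith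
        _ ≤ (1 + 4 * i * k ^ 2 * 2 ^ k) ^ i := by
            apply pow_le_pow_right₀ _ hs'
            have : (0 : ℝ) ≤ 4 * i * k ^ 2 * 2 ^ k := by positivity
            linarith
    refine le_trans (sum_le_sum hterm) ?_
    rw [sum_const, nsmul_eq_mul]
    simp

end Pool.Agent.H986R2.KSat
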