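import Pool.Agent.H986R2.KSat.Planted

open Finset Filter Topology

namespace Pool.Agent.H986R2.KSat

/-- The exceptional pairs (formula, assignment). -/
def BadF {n : ℕ} (k i l : ℕ) (F : Finset (Cl n)) (A : Fin n → Bool) : Prop :=
  B1 F A (zz n k) (tt n k i * (i * k)) ∨ B2 F i (tt n k i) ∨ B3 F A (zz n k) (n / 5) ∨
    B4 F A l (n / 5)

theorem five_bound (n : ℕ) : Real.exp (0.218 * n - 1.09) ≤ 3 ^ (n / 5) := by
  refine le_trans ?_ (three_pow_ge (n / 5))
  apply Real.exp_le_exp.2
  have h : n < (n / 5) * 5 + 5 := Nat.lt_div_mul_add (by norm_num)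
  have h2 : (n : ℝ) ≤ ((n / 5 : ℕ) : ℝ) * 5 + 5 := by exact_mod_cast h.le
  nlinarith

open Classical in
theorem planted_bad (k i : ℕ) (hk : 100 ≤ k) (hi : 1 ≤ i) : ∀ᶠ n : ℕ in atTop, ∀ M l : ℕ,
    0.679 * 2 ^ k * (n : ℝ) ≤ M → (M : ℝ) ≤ 0.7 * 2 ^ k * n → (l : ℝ) ≤ n / (1000 * k) →
    ∀ A : Fin n → Bool,
    ((((satClauses n k A).powersetCard M).filter (fun F => BadF k i l F A)).card : ℝ)
      ≤ Real.exp (-(0.02 * n)) * (((2 ^ k - 1) * n.choose k).choose M : ℝ) := by
  have hk1 : 1 ≤ k := by omega
  have hk0 : (0 : ℝ) < k := by exact_mod_cast hk1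
  filter_upwards [numerics k i hk hi, ev_exp (80 * k) 0.02088 0.02 (by norm_num),
    ev_fact ((i + 1) * (1 + 4 * i * k ^ 2 * 2 ^ k) ^ i) (by positivity) 0.02 (by norm_num) k i hk1 hi,
    ev_exp (80 * k * Real.exp 1.09) 0.05 0.02 (by norm_num)] with n hnum he1 he2 he3
  intro M l hM1 hM2 hl A
  obtain ⟨h2M, hpos, hx1, hx3, hx4, hx2⟩ := hnum M l hM1 hM2 hl
  set C : ℝ := (((2 ^ k - 1) * n.choose k).choose M : ℝ) with hC
  have hC0 : 0 ≤ C := by rw [hC]; positivity
  have hn0 : (0 : ℝ) ≤ n := by positivity
  have hzu := zz_upper n k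
  have hthz : tt n k i * (i * k) ≤ zz n k := by
    have h1 := zz_lower n k hk1
    have h2 := tt_mul n k i hk1
    have h3 : (n : ℝ) / (1000 * k) ≤ n / (10 * k) := by
      rw [div_le_div_iff₀ (by positivity) (by positivity)]
      have : 0 ≤ (n : ℝ) * k := by positivity
      nlinarith
    have h4 : ((tt n k i * (i * k) : ℕ) : ℝ) ≤ (zz n k : ℝ) := by linarith
    exact_mod_cast h4
  have c1 := card_B1 (k := k) A M (zz n k) (tt n k i * (i * k)) hk1 hthz h2M hpos
  have c2 := card_B2 (k := k) (i := i) A M (tt n k i) (by omega) hpos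
  have c3 := card_B3 (k := k) A M (zz n k) (n / 5) h2M hpos
  have c4 := card_B4 (k := k) A M l (n / 5) hk1 h2M hpos
  have hb1 := ball_zz n k hk (zz n k) hzu
  have hb3 := ball_zz' n k hk (zz n k) hzu
  have hb4 : (∑ j ∈ range (l + 1), (n.choose j : ℝ)) ≤ Real.exp (0.00932 * n) * (40 * k) := by
    apply ball_zz' n k hk l
    have h3 : (n : ℝ) / (1000 * k) ≤ n / (10 * k) := by
      rw [div_le_div_iff₀ (by positivity) (by positivity)]
      have : 0 ≤ (n : ℝ) * k := by positivity
      nlinarith
    linarith
  have h5 := five_bound n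
  have b1 : ((((satClauses n k A).powersetCard M).filter
      (fun F => B1 F A (zz n k) (tt n k i * (i * k)))).card : ℝ)
      ≤ Real.exp (-(0.02 * n)) / 4 * C := by
    refine le_trans c1 ?_
    have hch : (n.choose (zz n k) : ℝ) ≤ ∑ j ∈ range (zz n k + 1), (n.choose j : ℝ) := by
      apply single_le_sum (f := fun j => (n.choose j : ℝ)) (s := range (zz n k + 1))
      · intros; positivity
      · simp
    have hexp : Real.exp (-(1 / 2) * (M * (((zz n k : ℝ) - (tt n k i * (i * k) : ℕ)) *
        (n - zz n k).choose (k - 1) / ((2 ^ k - 1) * n.choose k : ℕ))))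
        ≤ Real.exp (-(0.0302 * n)) := by
      apply Real.exp_le_exp.2
      linarith
    calc (n.choose (zz n k) : ℝ) * 4 ^ (zz n k) * 2 * C *
        Real.exp (-(1 / 2) * (M * (((zz n k : ℝ) - (tt n k i * (i * k) : ℕ)) *
        (n - zz n k).choose (k - 1) / ((2 ^ k - 1) * n.choose k : ℕ))))
        ≤ ((∑ j ∈ range (zz n k + 1), (n.choose j : ℝ)) * 4 ^ (zz n k)) * 2 * C *
          Real.exp (-(0.0302 * n)) := by gcongr
      _ ≤ (Real.exp (0.00932 * n) * (40 * k)) * 2 * C * Real.exp (-(0.0302 * n)) := by gcongr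
      _ = (80 * k * Real.exp (-(0.02088 * n))) * C := by
          have : Real.exp (-(0.02088 * (n : ℝ)))
              = Real.exp (0.00932 * n) * Real.exp (-(0.0302 * n)) := by
            rw [← Real.exp_add]; congr 1; ring
          rw [this]; ring
      _ ≤ _ := by gcongr
  have b2 : ((((satClauses n k A).powersetCard M).filter (fun F => B2 F i (tt n k i))).card : ℝ)
      ≤ Real.exp (-(0.02 * n)) / 4 * C := by
    refine le_trans c2 ?_
    rw [mul_comm]
    apply mul_le_mul_of_nonneg_right _ hC0
    refine le_trans ?_ he2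
    have h0 : 0 ≤ ∑ s ∈ range (i + 1), ((n : ℝ) * (s * (2 ^ k * (n - 2).choose (k - 2))) *
          ((M : ℝ) / ((2 ^ k - 1) * n.choose k : ℕ))) ^ s :=
      sum_nonneg (fun s _ => by positivity)
    gcongr
  have b3 : ((((satClauses n k A).powersetCard M).filter
      (fun F => B3 F A (zz n k) (n / 5))).card : ℝ) ≤ Real.exp (-(0.02 * n)) / 4 * C := by
    refine le_trans c3 ?_
    have hexp : Real.exp (2 * (M * ((((n : ℝ) + zz n k) ^ k / k.factorial - n.choose k) /
          ((2 ^ k - 1) * n.choose k : ℕ)))) ≤ Real.exp (0.156 * n) := by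
      apply Real.exp_le_exp.2
      linarith
    have hR2 : 0 ≤ Real.exp (0.00932 * (n : ℝ)) * (40 * k) := by positivity
    calc (∑ j ∈ range (zz n k + 1), (n.choose j : ℝ)) * (2 * C *
        Real.exp (2 * (M * ((((n : ℝ) + zz n k) ^ k / k.factorial - n.choose k) /
          ((2 ^ k - 1) * n.choose k : ℕ)))) / 3 ^ (n / 5))
        ≤ (Real.exp (0.00932 * n) * (40 * k)) * (2 * C * Real.exp (0.156 * n) /
            Real.exp (0.218 * n - 1.09)) := by gcongr
      _ = (80 * k * Real.exp 1.09 * Real.exp (-(0.05268 * n))) * C := by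
          rw [div_eq_mul_inv, ← Real.exp_neg]
          have : Real.exp (0.00932 * (n : ℝ)) * Real.exp (0.156 * n) *
              Real.exp (-(0.218 * n - 1.09)) = Real.exp 1.09 * Real.exp (-(0.05268 * n)) := by
            rw [← Real.exp_add, ← Real.exp_add, ← Real.exp_add]; congr 1; ring
          calc _ = 80 * k * (Real.exp (0.00932 * (n : ℝ)) * Real.exp (0.156 * n) *
              Real.exp (-(0.218 * n - 1.09))) * C := by ring
            _ = _ := by rw [this]; ring
      _ ≤ (80 * k * Real.exp 1.09 * Real.exp (-(0.05 * n))) * C := by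
          have : Real.exp (-(0.05268 * (n : ℝ))) ≤ Real.exp (-(0.05 * n)) := by
            apply Real.exp_le_exp.2; nlinarith
          gcongr
      _ ≤ _ := by gcongr
  have b4 : ((((satClauses n k A).powersetCard M).filter
      (fun F => B4 F A l (n / 5))).card : ℝ) ≤ Real.exp (-(0.02 * n)) / 4 * C := by
    refine le_trans c4 ?_
    have hexp : Real.exp (2 * (M * (((l : ℝ) * (n - 1).choose (k - 1)) /
          ((2 ^ k - 1) * n.choose k : ℕ)))) ≤ Real.exp (0.156 * n) := by
      apply Real.exp_le_exp.2
      nlinarith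
    calc (∑ j ∈ range (l + 1), (n.choose j : ℝ)) * (2 * C *
        Real.exp (2 * (M * (((l : ℝ) * (n - 1).choose (k - 1)) /
          ((2 ^ k - 1) * n.choose k : ℕ)))) / 3 ^ (n / 5))
        ≤ (Real.exp (0.00932 * n) * (40 * k)) * (2 * C * Real.exp (0.156 * n) /
            Real.exp (0.218 * n - 1.09)) := by gcongr
      _ = (80 * k * Real.exp 1.09 * Real.exp (-(0.05268 * n))) * C := by
          rw [div_eq_mul_inv, ← Real.exp_neg]
          have : Real.exp (0.00932 * (n : ℝ)) * Real.exp (0.156 * n) *
              Real.exp (-(0.218 * n - 1.09)) = Real.exp 1.09 * Real.exp (-(0.05268 * n)) := by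
            rw [← Real.exp_add, ← Real.exp_add, ← Real.exp_add]; congr 1; ring
          calc _ = 80 * k * (Real.exp (0.00932 * (n : ℝ)) * Real.exp (0.156 * n) *
              Real.exp (-(0.218 * n - 1.09))) * C := by ring
            _ = _ := by rw [this]; ring
      _ ≤ (80 * k * Real.exp 1.09 * Real.exp (-(0.05 * n))) * C := by
          have : Real.exp (-(0.05268 * (n : ℝ))) ≤ Real.exp (-(0.05 * n)) := by
            apply Real.exp_le_exp.2; nlinarith
          gcongr
      _ ≤ _ := by gcongr
  have hsub : ((satClauses n k A).powersetCard M).filter (fun F => BadF k i l F A)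
      ⊆ (((satClauses n k A).powersetCard M).filter
            (fun F => B1 F A (zz n k) (tt n k i * (i * k))) ∪
          ((satClauses n k A).powersetCard M).filter (fun F => B2 F i (tt n k i))) ∪
        (((satClauses n k A).powersetCard M).filter (fun F => B3 F A (zz n k) (n / 5)) ∪
          ((satClauses n k A).powersetCard M).filter (fun F => B4 F A l (n / 5))) := by
    intro F hF
    simp only [mem_filter, mem_union, BadF] at hF ⊢
    tauto
  have hcard : (((satClauses n k A).powersetCard M).filter (fun F => BadF k i l F A)).card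
      ≤ ((((satClauses n k A).powersetCard M).filter
            (fun F => B1 F A (zz n k) (tt n k i * (i * k)))).card +
          (((satClauses n k A).powersetCard M).filter (fun F => B2 F i (tt n k i))).card) +
        ((((satClauses n k A).powersetCard M).filter (fun F => B3 F A (zz n k) (n / 5))).card +
          (((satClauses n k A).powersetCard M).filter (fun F => B4 F A l (n / 5))).card) := by
    refine le_trans (card_le_card hsub) (le_trans (card_union_le _ _) ?_)
    exact Nat.add_le_add (card_union_le _ _) (card_union_le _ _)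
  have hcard' : ((((satClauses n k A).powersetCard M).filter (fun F => BadF k i l F A)).card : ℝ)
      ≤ (((((satClauses n k A).powersetCard M).filter
            (fun F => B1 F A (zz n k) (tt n k i * (i * k)))).card : ℝ) +
          (((satClauses n k A).powersetCard M).filter (fun F => B2 F i (tt n k i))).card) +
        ((((satClauses n k A).powersetCard M).filter (fun F => B3 F A (zz n k) (n / 5))).card +
          (((satClauses n k A).powersetCard M).filter (fun F => B4 F A l (n / 5))).card) := by
    exact_mod_cast hcard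
  linarith

end Pool.Agent.H986R2.KSat
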