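import Pool.Agent.H986R2.KSat.Greedy
import Pool.Agent.H986R2.KSat.Basic

open Finset

namespace Pool.Agent.H986R2.KSat

theorem exists_amax {n : ℕ} (F : Finset (Cl n)) :
    ∃ A : Fin n → Bool, Satisfiable F → SatF A F ∧ ∀ B : Fin n → Bool, SatF B F → ¬ LexGT B A := by
  classical
  by_cases h : Satisfiable F
  · obtain ⟨A0, hA0⟩ := h
    obtain ⟨A, hA, hmax⟩ := exists_lexmax (univ.filter (fun A : Fin n → Bool => SatF A F))
      ⟨A0, by rw [mem_filter]; exact ⟨mem_univ _, hA0⟩⟩
    refine ⟨A, fun _ => ⟨(mem_filter.1 hA).2, fun B hB => ?_⟩⟩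
    exact hmax B (by rw [mem_filter]; exact ⟨mem_univ _, hB⟩)
  · exact ⟨fun _ => true, fun h' => absurd h' h⟩

/-- a lexicographically largest satisfying assignment -/
noncomputable def amax {n : ℕ} (F : Finset (Cl n)) : Fin n → Bool := (exists_amax F).choose

theorem amax_spec {n : ℕ} {F : Finset (Cl n)} (h : Satisfiable F) :
    SatF (amax F) F ∧ ∀ B : Fin n → Bool, SatF B F → ¬ LexGT B (amax F) :=
  (exists_amax F).choose_spec h

open Classical in
theorem bad_count (k n M i l : ℕ) (E : ℝ)
    (hE : ∀ A : Fin n → Bool,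
      ((((satClauses n k A).powersetCard M).filter (fun F => BadF k i l F A)).card : ℝ) ≤ E) :
    (((formulas n k M).filter (fun F => Satisfiable F ∧ BadF k i l F (amax F))).card : ℝ)
      ≤ 2 ^ n * E := by
  have h1 : ((formulas n k M).filter (fun F => Satisfiable F ∧ BadF k i l F (amax F))).card
      ≤ ((univ : Finset (Fin n → Bool)).sigma
          (fun A => ((satClauses n k A).powersetCard M).filter (fun F => BadF k i l F A))).card := by
    apply card_le_card_of_injOn (fun F => ⟨amax F, F⟩)
    · intro F hF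
      simp only [coe_sigma, Set.mem_sigma_iff, mem_coe, mem_filter, mem_univ, true_and] at hF ⊢
      exact ⟨mem_powersetCard_sat.2 ⟨hF.1, (amax_spec hF.2.1).1⟩, hF.2.2⟩
    · intro F _ F' _ h
      simp only [Sigma.mk.injEq, heq_eq_eq] at h
      exact h.2
  rw [card_sigma] at h1
  calc (((formulas n k M).filter (fun F => Satisfiable F ∧ BadF k i l F (amax F))).card : ℝ)
      ≤ ∑ A : Fin n → Bool,
        ((((satClauses n k A).powersetCard M).filter (fun F => BadF k i l F A)).card : ℝ) := by
        exact_mod_cast h1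
    _ ≤ ∑ _A : Fin n → Bool, E := sum_le_sum (fun A _ => hE A)
    _ = 2 ^ n * E := by
        rw [sum_const, card_univ, Fintype.card_fun, Fintype.card_bool, Fintype.card_fin,
            nsmul_eq_mul]
        push_cast; ring

open Classical in
theorem count_removals (k n M i l : ℕ) (hk : 1 ≤ k) :
    (((formulas n k (M + l)).filter
        (fun F => Satisfiable F ∧ ¬ BadF k i l F (amax F))).card : ℝ) *
        (((M - 2 * (n / 5) : ℕ) : ℝ) ^ l / l.factorial)
      ≤ (∑ F ∈ formulas n k M, (X i F : ℝ)) * (((2 ^ k - 1) * n.choose k).choose l : ℝ) := by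
  have h1 : (((formulas n k (M + l)).filter
        (fun F => Satisfiable F ∧ ¬ BadF k i l F (amax F))).sigma
        (fun F' => (F'.powersetCard l).filter (fun R => IMax i (F' \ R) (amax F')))).card
      ≤ ((formulas n k M).sigma (fun F => (univ.filter (fun A : Fin n → Bool => IMax i F A)).sigma
          (fun A => (satClauses n k A).powersetCard l))).card := by
    apply card_le_card_of_injOn (fun p => ⟨p.1 \ p.2, ⟨amax p.1, p.2⟩⟩)
    · rintro ⟨F, R⟩ hp
      simp only [coe_sigma, Set.mem_sigma_iff, mem_coe, mem_filter, mem_univ, true_and,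
        mem_powersetCard, mem_formulas, mem_sigma] at hp ⊢
      obtain ⟨⟨⟨hFc, hFM⟩, hsat, hbad⟩, ⟨hRF, hRl⟩, hI⟩ := hp
      refine ⟨⟨sdiff_subset.trans hFc, ?_⟩, hI, ?_, hRl⟩
      · rw [card_sdiff_of_subset hRF, hFM, hRl]; omega
      · intro c hc
        exact mem_satClauses.2 ⟨hFc (hRF hc), sat_iff.1 ((amax_spec hsat).1 c (hRF hc))⟩
    · rintro ⟨F, R⟩ hp ⟨F', R'⟩ hp' heq
      simp only [coe_sigma, Set.mem_sigma_iff, mem_coe, mem_filter, mem_powersetCard] at hp hp'
      simp only [Sigma.mk.injEq, heq_eq_eq] at heq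
      obtain ⟨h1, -, rfl⟩ := heq
      have e1 := sdiff_union_of_subset hp.2.1.1
      have e2 := sdiff_union_of_subset hp'.2.1.1
      have : F = F' := by rw [← e1, ← e2, h1]
      rw [this]
  rw [card_sigma, card_sigma] at h1
  have h2 : ∑ F ∈ formulas n k M, ((univ.filter (fun A : Fin n → Bool => IMax i F A)).sigma
          (fun A => (satClauses n k A).powersetCard l)).card
      = (∑ F ∈ formulas n k M, X i F) * ((2 ^ k - 1) * n.choose k).choose l := by
    rw [sum_mul]
    apply sum_congr rfl
    intro F _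
    rw [card_sigma, sum_congr rfl (fun A _ => by rw [card_powersetCard, card_satClauses]),
      sum_const, smul_eq_mul, X_eq]
  rw [h2] at h1
  have h3 : (((formulas n k (M + l)).filter
        (fun F => Satisfiable F ∧ ¬ BadF k i l F (amax F))).card : ℝ) *
        (((M - 2 * (n / 5) : ℕ) : ℝ) ^ l / l.factorial)
      ≤ ∑ F' ∈ (formulas n k (M + l)).filter
        (fun F => Satisfiable F ∧ ¬ BadF k i l F (amax F)),
        (((F'.powersetCard l).filter (fun R => IMax i (F' \ R) (amax F'))).card : ℝ) := by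
    rw [← nsmul_eq_mul, ← sum_const]
    apply sum_le_sum
    intro F' hF'
    rw [mem_filter, mem_formulas] at hF'
    obtain ⟨⟨hFc, hFM⟩, hsat, hbad⟩ := hF'
    have := many_removals hk hFc (amax_spec hsat).1 (amax_spec hsat).2 hbad
    rw [hFM] at this
    have e : M + l - 2 * (n / 5) - l = M - 2 * (n / 5) := by omega
    rw [e] at this
    convert this
  refine h3.trans ?_
  exact_mod_cast h1

/-- `C(N, M+l) ≥ C(N,M) ((N-M-l)/(M+l))^l`. -/
theorem choose_add_ge (N M l : ℕ) (h : M + l ≤ N) (hM : 1 ≤ M) (j : ℕ) (hj : j ≤ l) :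
    (N.choose M : ℝ) * (((N : ℝ) - (M + l)) / (M + l)) ^ j ≤ N.choose (M + j) := by
  induction j with
  | zero => simp
  | succ j ih =>
    have h1 := ih (by omega)
    have h2 := Nat.choose_succ_right_eq N (M + j)
    have hM0 : (0 : ℝ) < (M : ℝ) + l := by
      have : (1 : ℝ) ≤ M := by exact_mod_cast hM
      positivity
    have hNr : ((M : ℝ) + l) ≤ N := by exact_mod_cast h
    have hjl : (j : ℝ) + 1 ≤ l := by exact_mod_cast hj
    have h2' : (N.choose (M + (j + 1)) : ℝ) * (M + j + 1) = N.choose (M + j) * ((N : ℝ) - (M + j)) := by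
      have e : ((N - (M + j) : ℕ) : ℝ) = (N : ℝ) - (M + j) := by
        rw [Nat.cast_sub (by omega)]; push_cast; ring
      rw [← e, ← add_assoc]
      exact_mod_cast h2
    have hq0 : 0 ≤ ((N : ℝ) - (M + l)) / (M + l) := div_nonneg (by linarith) hM0.le
    have hd : (0 : ℝ) < (M : ℝ) + j + 1 := by positivity
    have h3 : ((N : ℝ) - (M + l)) / (M + l) ≤ ((N : ℝ) - (M + j)) / (M + j + 1) := by
      apply div_le_div₀ _ _ hd _
      · linarith
      · linarith
      · linarith
    have h4 : (N.choose (M + (j + 1)) : ℝ) = N.choose (M + j) * (((N : ℝ) - (M + j)) / (M + j + 1)) := by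
      rw [← mul_div_assoc, eq_div_iff hd.ne']
      exact h2'
    rw [h4, pow_succ, ← mul_assoc]
    apply mul_le_mul h1 h3 hq0 (by positivity)

end Pool.Agent.H986R2.KSat
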