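import Pool.Agent.H986R2.KSat.Thresh

open Finset

namespace Pool.Agent.H986R2.KSat

/-- Hall's condition implies satisfiability. -/
theorem sat_of_hall {n : ℕ} (F : Finset (Cl n))
    (h : ∀ T ⊆ F, T.card ≤ (T.biUnion (fun c => c.1)).card) : Satisfiable F := by
  classical
  have h1 : ∀ s : Finset {c // c ∈ F}, s.card ≤ (s.biUnion (fun c => c.1.1)).card := by
    intro s
    have h2 := h (s.map (Function.Embedding.subtype _)) (by
      intro c hc
      rw [mem_map] at hc
      obtain ⟨x, _, rfl⟩ := hc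
      exact x.2)
    rw [card_map] at h2
    refine h2.trans (card_le_card ?_)
    intro v hv
    rw [mem_biUnion] at hv ⊢
    obtain ⟨c, hc, hvc⟩ := hv
    rw [mem_map] at hc
    obtain ⟨x, hx, rfl⟩ := hc
    exact ⟨x, hx, hvc⟩
  obtain ⟨f, hf, hmem⟩ := (Finset.all_card_le_biUnion_card_iff_exists_injective
    (fun c : {c // c ∈ F} => c.1.1)).1 h1
  refine ⟨fun v => decide (∃ c : {c // c ∈ F}, f c = v ∧ v ∈ c.1.2), fun c hc => ?_⟩
  refine ⟨f ⟨c, hc⟩, hmem ⟨c, hc⟩, ?_⟩
  rw [decide_eq_true_iff]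
  constructor
  · rintro ⟨c', hc', hv⟩
    have := hf hc'
    rw [this] at hv
    exact hv
  · intro hv
    exact ⟨⟨c, hc⟩, rfl, hv⟩

theorem card_inside (n k : ℕ) (S : Finset (Fin n)) :
    ((clauses n k).filter (fun c => c.1 ⊆ S)).card = 2 ^ k * S.card.choose k := by
  rw [card_clauses_var (fun K => K ⊆ S)]
  congr 1
  have : (powersetCard k (univ : Finset (Fin n))).filter (fun K => K ⊆ S) = powersetCard k S := by
    ext K
    rw [mem_filter, mem_powersetCard, mem_powersetCard]
    exact ⟨fun h => ⟨h.2, h.1.2⟩, fun h => ⟨⟨subset_univ _, h.2⟩, h.1⟩⟩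
  rw [this, card_powersetCard]

open Classical in
theorem unsat_count (n k M : ℕ) (hk : 1 ≤ k) (hC : 0 < n.choose k) :
    (((formulas n k M).filter (fun F => ¬ Satisfiable F)).card : ℝ)
      ≤ ∑ s ∈ Ico 1 (n + 1), ((n.choose s : ℝ) * ((2 ^ k * s.choose k).choose s : ℝ)) *
        (((2 ^ k * n.choose k).choose M : ℝ) * ((M : ℝ) / (2 ^ k * n.choose k : ℕ)) ^ s) := by
  have hsub : (formulas n k M).filter (fun F => ¬ Satisfiable F) ⊆
      (Ico 1 (n + 1)).biUnion (fun s => (powersetCard s (univ : Finset (Fin n))).biUnion (fun S =>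
        (powersetCard s ((clauses n k).filter (fun c => c.1 ⊆ S))).biUnion (fun T =>
          ((clauses n k).powersetCard M).filter (fun F => T ⊆ F)))) := by
    intro F hF
    rw [mem_filter] at hF
    obtain ⟨hFM, hun⟩ := hF
    have hex : ∃ T ⊆ F, (T.biUnion (fun c => c.1)).card < T.card := by
      by_contra hcon
      push Not at hcon
      exact hun (sat_of_hall F hcon)
    obtain ⟨T, hTF, hT⟩ := hex
    set S := T.biUnion (fun c => c.1) with hS
    obtain ⟨T', hT'T, hT'c⟩ := exists_subset_card_eq hT.le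
    have hTne : T.Nonempty := card_pos.1 (by omega)
    obtain ⟨c0, hc0⟩ := hTne
    have hSpos : 1 ≤ S.card := by
      have h1 := (mem_clauses.1 ((mem_formulas.1 hFM).1 (hTF hc0))).1
      have h2 : c0.1 ⊆ S := fun v hv => mem_biUnion.2 ⟨c0, hc0, hv⟩
      have := card_le_card h2
      omega
    rw [mem_biUnion]
    refine ⟨S.card, ?_, ?_⟩
    · rw [mem_Ico]
      have := card_le_univ S
      rw [Fintype.card_fin] at this
      omega
    rw [mem_biUnion]
    refine ⟨S, mem_powersetCard.2 ⟨subset_univ _, rfl⟩, ?_⟩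
    rw [mem_biUnion]
    refine ⟨T', ?_, ?_⟩
    · rw [mem_powersetCard]
      refine ⟨fun c hc => ?_, hT'c⟩
      rw [mem_filter]
      exact ⟨(mem_formulas.1 hFM).1 (hTF (hT'T hc)), fun v hv => mem_biUnion.2 ⟨c, hT'T hc, hv⟩⟩
    · rw [mem_filter]
      exact ⟨hFM, hT'T.trans hTF⟩
  have hN : 0 < (clauses n k).card := by
    rw [card_clauses]; positivity
  have hcard : (((Ico 1 (n + 1)).biUnion (fun s => (powersetCard s (univ : Finset (Fin n))).biUnion
      (fun S => (powersetCard s ((clauses n k).filter (fun c => c.1 ⊆ S))).biUnion (fun T =>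
          ((clauses n k).powersetCard M).filter (fun F => T ⊆ F))))).card : ℝ)
      ≤ ∑ s ∈ Ico 1 (n + 1), ∑ S ∈ powersetCard s (univ : Finset (Fin n)),
        ∑ T ∈ powersetCard s ((clauses n k).filter (fun c => c.1 ⊆ S)),
          ((((clauses n k).powersetCard M).filter (fun F => T ⊆ F)).card : ℝ) := by
    have h1 : ((Ico 1 (n + 1)).biUnion (fun s => (powersetCard s (univ : Finset (Fin n))).biUnion
      (fun S => (powersetCard s ((clauses n k).filter (fun c => c.1 ⊆ S))).biUnion (fun T =>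
          ((clauses n k).powersetCard M).filter (fun F => T ⊆ F))))).card
      ≤ ∑ s ∈ Ico 1 (n + 1), ∑ S ∈ powersetCard s (univ : Finset (Fin n)),
        ∑ T ∈ powersetCard s ((clauses n k).filter (fun c => c.1 ⊆ S)),
          (((clauses n k).powersetCard M).filter (fun F => T ⊆ F)).card := by
      refine card_biUnion_le.trans (sum_le_sum fun s _ => ?_)
      refine card_biUnion_le.trans (sum_le_sum fun S _ => ?_)
      exact card_biUnion_le
    exact_mod_cast h1
  refine (Nat.cast_le.2 (card_le_card hsub)).trans (hcard.trans ?_)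
  apply sum_le_sum
  intro s _
  have hT : ∀ S ∈ powersetCard s (univ : Finset (Fin n)),
      ∀ T ∈ powersetCard s ((clauses n k).filter (fun c => c.1 ⊆ S)),
          ((((clauses n k).powersetCard M).filter (fun F => T ⊆ F)).card : ℝ)
          ≤ ((2 ^ k * n.choose k).choose M : ℝ) * ((M : ℝ) / (2 ^ k * n.choose k : ℕ)) ^ s := by
    intro S _ T hT
    rw [mem_powersetCard] at hT
    have := card_superset_le (clauses n k) T M hN
    rw [hT.2, card_clauses] at this
    exact this
  calc ∑ S ∈ powersetCard s (univ : Finset (Fin n)),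
        ∑ T ∈ powersetCard s ((clauses n k).filter (fun c => c.1 ⊆ S)),
          ((((clauses n k).powersetCard M).filter (fun F => T ⊆ F)).card : ℝ)
      ≤ ∑ S ∈ powersetCard s (univ : Finset (Fin n)),
        ∑ T ∈ powersetCard s ((clauses n k).filter (fun c => c.1 ⊆ S)),
          (((2 ^ k * n.choose k).choose M : ℝ) * ((M : ℝ) / (2 ^ k * n.choose k : ℕ)) ^ s) :=
        sum_le_sum (fun S hS => sum_le_sum (fun T hT' => hT S hS T hT'))
    _ = ∑ S ∈ powersetCard s (univ : Finset (Fin n)), (((2 ^ k * s.choose k).choose s : ℝ)) *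
          (((2 ^ k * n.choose k).choose M : ℝ) * ((M : ℝ) / (2 ^ k * n.choose k : ℕ)) ^ s) := by
        apply sum_congr rfl
        intro S hS
        rw [mem_powersetCard] at hS
        rw [sum_const, card_powersetCard, card_inside, hS.2, nsmul_eq_mul]
    _ = _ := by
        rw [sum_const, card_powersetCard, card_univ, Fintype.card_fin, nsmul_eq_mul, mul_assoc]

theorem pow_le_self_of_le_one {x : ℝ} (h0 : 0 ≤ x) (h1 : x ≤ 1) (s : ℕ) (hs : 1 ≤ s) :
    x ^ s ≤ x := pow_le_of_le_one h0 h1 (by omega)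

/-- the term bound -/
theorem term_bound (n k M s : ℕ) (hk : 3 ≤ k) (hC : 0 < n.choose k) (hs : 1 ≤ s) (hsn : s ≤ n)
    (hM : (M : ℝ) ≤ n / 100) :
    ((n.choose s : ℝ) * ((2 ^ k * s.choose k).choose s : ℝ)) *
        ((M : ℝ) / (2 ^ k * n.choose k : ℕ)) ^ s ≤ (1 / n) * (1 / 2) ^ s := by
  have hn0 : (0 : ℝ) < n := by
    have : 0 < n := by omega
    exact_mod_cast this
  have hs0 : (0 : ℝ) < s := by exact_mod_cast hs
  have hsnr : (s : ℝ) ≤ n := by exact_mod_cast hsn
  have hC' : (0 : ℝ) < n.choose k := by exact_mod_cast hC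
  have h2k : (0 : ℝ) < 2 ^ k := by positivity
  have h1 := Nat.choose_le_pow_div (α := ℝ) s n
  have h2 := Nat.choose_le_pow_div (α := ℝ) s (2 ^ k * s.choose k)
  have hf : (0 : ℝ) < s.factorial := by exact_mod_cast Nat.factorial_pos s
  have h3 := choose_ratio_le s n k hsn
  have h4 : (s.choose k : ℝ) / n.choose k ≤ (s / n : ℝ) ^ 3 := by
    have e1 : (s.choose k : ℝ) / n.choose k ≤ (s / n : ℝ) ^ k := by
      rw [div_pow, div_le_div_iff₀ hC' (by positivity)]
      linarith
    refine e1.trans ?_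
    apply pow_le_pow_of_le_one (by positivity) _ hk
    rw [div_le_one hn0]; exact hsnr
  have h5 : (s : ℝ) ^ s / s.factorial ≤ Real.exp s := Real.pow_div_factorial_le_exp s hs0.le s
  have hbase : (n : ℝ) * (((2 ^ k * s.choose k : ℕ) : ℝ)) * ((M : ℝ) / (2 ^ k * n.choose k : ℕ))
      ≤ s ^ 3 / (100 * n) := by
    have e1 : (n : ℝ) * (((2 ^ k * s.choose k : ℕ) : ℝ)) * ((M : ℝ) / (2 ^ k * n.choose k : ℕ))
        = n * M * ((s.choose k : ℝ) / n.choose k) := by
      push_cast
      field_simp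
    rw [e1]
    calc (n : ℝ) * M * ((s.choose k : ℝ) / n.choose k) ≤ n * (n / 100) * (s / n : ℝ) ^ 3 := by
          gcongr
      _ = s ^ 3 / (100 * n) := by field_simp
  have hexp2 : Real.exp 2 ≤ 7.4 := by
    have h6 := Real.exp_one_lt_d9
    have h7 : Real.exp 2 = Real.exp 1 * Real.exp 1 := by rw [← Real.exp_add]; norm_num
    rw [h7]
    have h8 := Real.exp_pos 1
    nlinarith
  calc ((n.choose s : ℝ) * ((2 ^ k * s.choose k).choose s : ℝ)) *
        ((M : ℝ) / (2 ^ k * n.choose k : ℕ)) ^ s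
      ≤ (((n : ℝ) ^ s / s.factorial) * ((((2 ^ k * s.choose k : ℕ) : ℝ)) ^ s / s.factorial)) *
        ((M : ℝ) / (2 ^ k * n.choose k : ℕ)) ^ s := by gcongr
    _ = ((n : ℝ) * (((2 ^ k * s.choose k : ℕ) : ℝ)) * ((M : ℝ) / (2 ^ k * n.choose k : ℕ))) ^ s /
          (s.factorial * s.factorial) := by
        rw [mul_pow, mul_pow]; field_simp
    _ ≤ ((s : ℝ) ^ 3 / (100 * n)) ^ s / (s.factorial * s.factorial) := by
        gcongr
    _ = ((s : ℝ) ^ s / s.factorial) * ((s : ℝ) ^ s / s.factorial) * ((s : ℝ) / (100 * n)) ^ s := by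
        rw [div_pow, div_pow, mul_pow]
        field_simp
        ring
    _ ≤ Real.exp s * Real.exp s * ((s : ℝ) / (100 * n)) ^ s := by gcongr
    _ = (Real.exp 2 / 100 * ((s : ℝ) / n)) ^ s := by
        have : Real.exp s * Real.exp s = (Real.exp 2) ^ s := by
          rw [← Real.exp_add, ← Real.exp_nat_mul]; congr 1; ring
        rw [this, ← mul_pow]; congr 1; field_simp
    _ ≤ (1 / 8 * ((s : ℝ) / n)) ^ s := by
        have h8 : Real.exp 2 / 100 ≤ 1 / 8 := by linarith
        have h9 : (0 : ℝ) ≤ (s : ℝ) / n := by positivity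
        have h10 := mul_le_mul_of_nonneg_right h8 h9
        exact pow_le_pow_left₀ (by positivity) h10 s
    _ = (1 / 8) ^ s * ((s : ℝ) / n) ^ s := by rw [mul_pow]
    _ ≤ (1 / 8) ^ s * ((s : ℝ) / n) := by
        gcongr
        exact pow_le_self_of_le_one (by positivity) (by rw [div_le_one hn0]; exact hsnr) s hs
    _ = (1 / n) * ((1 / 8) ^ s * s) := by ring
    _ ≤ (1 / n) * ((1 / 8) ^ s * 4 ^ s) := by
        have : (s : ℝ) ≤ 4 ^ s := by
          have : s ≤ 4 ^ s := (Nat.lt_pow_self (by norm_num)).le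
          exact_mod_cast this
        gcongr
    _ = (1 / n) * (1 / 2) ^ s := by
        rw [← mul_pow]; norm_num

theorem sum_half_le (n : ℕ) : ∑ s ∈ Ico 1 (n + 1), (1 / 2 : ℝ) ^ s ≤ 1 := by
  have h1 : ∀ n : ℕ, ∑ s ∈ Ico 1 (n + 1), (1 / 2 : ℝ) ^ s = 1 - (1 / 2) ^ n := by
    intro n
    induction n with
    | zero => simp
    | succ n ih =>
      rw [sum_Ico_succ_top (by omega), ih, pow_succ]
      ring
  rw [h1]
  have : (0 : ℝ) ≤ (1 / 2) ^ n := by positivity
  linarith

open Filter Topology in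
/-- At density `1/100` the random formula is a.s. satisfiable. -/
theorem sat_small (k : ℕ) (hk : 3 ≤ k) :
    Tendsto (fun n : ℕ => probSat k n ⌊(1 / 100 : ℝ) * n⌋₊) atTop (𝓝 1) := by
  classical
  have hlow : ∀ᶠ n : ℕ in atTop, 1 - 1 / (n : ℝ) ≤ probSat k n ⌊(1 / 100 : ℝ) * n⌋₊ := by
    filter_upwards [ev_choose_pos k, ev_small k hk 1] with n hC hsm
    set M : ℕ := ⌊(1 / 100 : ℝ) * n⌋₊ with hM
    have hM1 : (M : ℝ) ≤ n / 100 := by
      have := Nat.floor_le (a := (1 / 100 : ℝ) * n) (by positivity)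
      linarith
    have hC' : (0 : ℝ) < n.choose k := by exact_mod_cast hC
    have hMN : M ≤ 2 ^ k * n.choose k := by
      have h2k1 : (1 : ℝ) ≤ 2 ^ k := one_le_pow₀ (by norm_num)
      have h0 : (0 : ℝ) ≤ n := by positivity
      have : (M : ℝ) ≤ 2 ^ k * n.choose k := by nlinarith
      exact_mod_cast this
    have hCN : (0 : ℝ) < ((2 ^ k * n.choose k).choose M : ℝ) := by
      exact_mod_cast Nat.choose_pos hMN
    have h1 := unsat_count n k M (by omega) hC
    have h2 : ∑ s ∈ Ico 1 (n + 1), ((n.choose s : ℝ) * ((2 ^ k * s.choose k).choose s : ℝ)) *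
        (((2 ^ k * n.choose k).choose M : ℝ) * ((M : ℝ) / (2 ^ k * n.choose k : ℕ)) ^ s)
        ≤ ((2 ^ k * n.choose k).choose M : ℝ) * (1 / n) := by
      calc _ ≤ ∑ s ∈ Ico 1 (n + 1), ((2 ^ k * n.choose k).choose M : ℝ) *
            ((1 / n) * (1 / 2 : ℝ) ^ s) := by
            apply sum_le_sum
            intro s hs
            rw [mem_Ico] at hs
            have := term_bound n k M s hk hC hs.1 (by omega) hM1
            calc _ = ((2 ^ k * n.choose k).choose M : ℝ) * (((n.choose s : ℝ) *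
                  ((2 ^ k * s.choose k).choose s : ℝ)) *
                  ((M : ℝ) / (2 ^ k * n.choose k : ℕ)) ^ s) := by ring
              _ ≤ _ := by gcongr
        _ = ((2 ^ k * n.choose k).choose M : ℝ) * (1 / n) *
              ∑ s ∈ Ico 1 (n + 1), (1 / 2 : ℝ) ^ s := by
            rw [mul_sum]
            apply sum_congr rfl
            intro s _
            ring
        _ ≤ ((2 ^ k * n.choose k).choose M : ℝ) * (1 / n) * 1 := by
            gcongr
            exact sum_half_le n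
        _ = _ := by ring
    rw [probSat_eq, le_div_iff₀ hCN]
    have h3 := card_filter_add_card_filter_not (s := formulas n k M) (fun F => Satisfiable F)
    rw [card_formulas] at h3
    have h3' : (((formulas n k M).filter (fun F => Satisfiable F)).card : ℝ)
        + ((formulas n k M).filter (fun F => ¬ Satisfiable F)).card
        = ((2 ^ k * n.choose k).choose M : ℝ) := by exact_mod_cast h3
    have h4 := h1.trans h2
    have h5 : (1 - 1 / (n : ℝ)) * ((2 ^ k * n.choose k).choose M : ℝ)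
        = ((2 ^ k * n.choose k).choose M : ℝ) - ((2 ^ k * n.choose k).choose M : ℝ) * (1 / n) := by
      ring
    rw [h5]
    linarith
  have hlim : Tendsto (fun n : ℕ => 1 - 1 / (n : ℝ)) atTop (𝓝 1) := by
    have := tendsto_one_div_atTop_nhds_zero_nat (𝕜 := ℝ)
    simpa using this.const_sub 1
  exact tendsto_of_tendsto_of_tendsto_of_le_of_le' hlim tendsto_const_nhds hlow
    (Eventually.of_forall (fun n => probSat_le_one _ _ _))

open Filter Topology in
theorem dSat_isLUB (k : ℕ) (hk : 3 ≤ k) :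
    IsLUB {d : ℝ | 0 < d ∧ Tendsto (fun n : ℕ => probSat k n ⌊d * n⌋₊) atTop (𝓝 1)} (dSat k) :=
  isLUB_csSup ⟨1 / 100, by norm_num, sat_small k hk⟩ (bddAbove_sat k)

theorem dCrit_isLUB (k : ℕ) (hk : 100 ≤ k) (i : ℕ) :
    IsLUB {d : ℝ | 0 < d ∧ ExpLarge k i d} (dCrit k i) := by
  obtain ⟨D, hD, hL⟩ := uniform_gap k hk
  exact isLUB_csSup ⟨D, lt_of_le_of_lt (dSat_nonneg k) hD, hL i⟩ (bddAbove_expLarge k i)

end Pool.Agent.H986R2.KSat
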