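import Pool.Agent.H986R2.KSat.PartC

open Finset Filter Topology

namespace Pool.Agent.H986R2.KSat

theorem ev_choose_pos (k : ℕ) : ∀ᶠ n : ℕ in atTop, 0 < n.choose k := by
  filter_upwards [eventually_ge_atTop k] with n hn
  exact Nat.choose_pos hn

/-- If `d` is in the satisfiable range, then `d ≤ 2^k ln 2`, up to a small constant. -/
theorem sat_le (k : ℕ) (d : ℝ) (hd : 0 < d)
    (h : Tendsto (fun n : ℕ => probSat k n ⌊d * n⌋₊) atTop (𝓝 1)) : d ≤ 0.6932 * 2 ^ k := by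
  by_contra hcon
  push Not at hcon
  have h2k : (0 : ℝ) < 2 ^ k := by positivity
  have h2k1 : (1 : ℝ) ≤ 2 ^ k := one_le_pow₀ (by norm_num)
  have e1 : ∀ᶠ n : ℕ in atTop, (1 / 2 : ℝ) < probSat k n ⌊d * n⌋₊ :=
    h.eventually (lt_mem_nhds (by norm_num))
  have e2 : ∀ᶠ n : ℕ in atTop, (200000 : ℝ) ≤ n :=
    tendsto_natCast_atTop_atTop.eventually_ge_atTop _
  obtain ⟨n, h1, h2, h3⟩ := (e1.and (e2.and (ev_choose_pos k))).exists
  have h4 := probSat_le k n ⌊d * n⌋₊ h3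
  have hn0 : (0 : ℝ) < n := by linarith
  have h5 : d * n - 1 ≤ (⌊d * n⌋₊ : ℝ) := (Nat.sub_one_lt_floor _).le
  have h6 : 0.6932 * (n : ℝ) - 1 ≤ (⌊d * n⌋₊ : ℝ) / 2 ^ k := by
    rw [le_div_iff₀ h2k]
    have : 0.6932 * 2 ^ k * (n : ℝ) ≤ d * n := by gcongr
    have e : (0.6932 * (n : ℝ) - 1) * 2 ^ k = 0.6932 * 2 ^ k * n - 2 ^ k := by ring
    rw [e]; linarith
  have h7 := Real.log_two_lt_d9
  have h8 : Real.log 2 * n ≤ 0.69315 * n := by
    apply mul_le_mul_of_nonneg_right _ (by positivity)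
    linarith
  have h9 : Real.exp (Real.log 2 * n - (⌊d * n⌋₊ : ℝ) / 2 ^ k) ≤ Real.exp (-1) :=
    Real.exp_le_exp.2 (by linarith)
  have h10 : Real.exp (-1) < 1 / 2 := by
    rw [Real.exp_neg]
    have := Real.exp_one_gt_d9
    rw [inv_lt_comm₀ (Real.exp_pos _) (by norm_num)]
    linarith
  linarith

/-- If `E[X_i]` is exponentially large at density `d`, then `d ≤ 2^k`. -/
theorem expLarge_le (k i : ℕ) (d : ℝ) (hd : 0 < d) (h : ExpLarge k i d) : d ≤ 2 ^ k := by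
  by_contra hcon
  push Not at hcon
  have h2k : (0 : ℝ) < 2 ^ k := by positivity
  have h2k1 : (1 : ℝ) ≤ 2 ^ k := one_le_pow₀ (by norm_num)
  obtain ⟨c, hc, e1⟩ := h
  have e2 : ∀ᶠ n : ℕ in atTop, (20 : ℝ) ≤ n :=
    tendsto_natCast_atTop_atTop.eventually_ge_atTop _
  obtain ⟨n, h1, h2, h3⟩ := (e1.and (e2.and (ev_choose_pos k))).exists
  have h4 := expX_le k i n ⌊d * n⌋₊ h3
  have hn0 : (0 : ℝ) < n := by linarith
  have h5 : d * n - 1 ≤ (⌊d * n⌋₊ : ℝ) := (Nat.sub_one_lt_floor _).le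
  have h6 : (n : ℝ) - 1 ≤ (⌊d * n⌋₊ : ℝ) / 2 ^ k := by
    rw [le_div_iff₀ h2k]
    have : 2 ^ k * (n : ℝ) ≤ d * n := by gcongr
    have e : ((n : ℝ) - 1) * 2 ^ k = 2 ^ k * n - 2 ^ k := by ring
    rw [e]; linarith
  have h7 := Real.log_two_lt_d9
  have h8 : Real.log 2 * n ≤ 0.69315 * n := by
    apply mul_le_mul_of_nonneg_right _ (by positivity)
    linarith
  have h9 : Real.exp (Real.log 2 * n - (⌊d * n⌋₊ : ℝ) / 2 ^ k) < Real.exp 0 :=
    Real.exp_lt_exp.2 (by linarith)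
  have h10 : Real.exp 0 ≤ Real.exp (c * n) := Real.exp_le_exp.2 (by positivity)
  linarith

theorem expLarge_expSmall (k i : ℕ) (d : ℝ) (h : ExpLarge k i d) (h' : ExpSmall k i d) : False := by
  obtain ⟨c, hc, e1⟩ := h
  obtain ⟨c', hc', e2⟩ := h'
  obtain ⟨n, h1, h2, h3⟩ := (e1.and (e2.and (eventually_gt_atTop 0))).exists
  have hn : (0 : ℝ) < n := by exact_mod_cast h3
  have h4 : Real.exp (c * n) ≤ Real.exp (-(c' * n)) := h1.trans h2
  rw [Real.exp_le_exp] at h4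
  have : 0 < c * n := by positivity
  have : 0 < c' * n := by positivity
  linarith

theorem expLarge_anti (k : ℕ) {i j : ℕ} (hij : i ≤ j) (d : ℝ) (h : ExpLarge k j d) :
    ExpLarge k i d := by
  obtain ⟨c, hc, e1⟩ := h
  refine ⟨c, hc, ?_⟩
  filter_upwards [e1] with n h1
  exact h1.trans (expX_anti k n _ hij)

theorem bddAbove_expLarge (k i : ℕ) : BddAbove {d : ℝ | 0 < d ∧ ExpLarge k i d} :=
  ⟨2 ^ k, fun d hd => expLarge_le k i d hd.1 hd.2⟩

theorem bddAbove_sat (k : ℕ) :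
    BddAbove {d : ℝ | 0 < d ∧ Tendsto (fun n : ℕ => probSat k n ⌊d * n⌋₊) atTop (𝓝 1)} :=
  ⟨0.6932 * 2 ^ k, fun d hd => sat_le k d hd.1 hd.2⟩

theorem dSat_le (k : ℕ) : dSat k ≤ 0.6932 * 2 ^ k := by
  unfold dSat
  apply Real.sSup_le _ (by positivity)
  intro d hd
  exact sat_le k d hd.1 hd.2

/-- Below the threshold, the random formula is a.s. satisfiable. -/
theorem tendsto_of_lt (k : ℕ) (t : ℝ) (ht0 : 0 < t) (ht : t < dSat k) :
    Tendsto (fun n : ℕ => probSat k n ⌊t * n⌋₊) atTop (𝓝 1) := by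
  have hne : {d : ℝ | 0 < d ∧ Tendsto (fun n : ℕ => probSat k n ⌊d * n⌋₊) atTop (𝓝 1)}.Nonempty := by
    by_contra hcon
    rw [Set.not_nonempty_iff_eq_empty] at hcon
    unfold dSat at ht
    rw [hcon, Real.sSup_empty] at ht
    linarith
  obtain ⟨d, hd, htd⟩ := exists_lt_of_lt_csSup hne ht
  refine tendsto_of_tendsto_of_tendsto_of_le_of_le hd.2 tendsto_const_nhds ?_ ?_
  · intro n
    apply probSat_anti k n
    exact Nat.floor_le_floor (by gcongr)
  · intro n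
    exact probSat_le_one _ _ _

/-- The uniform gap. -/
theorem uniform_gap (k : ℕ) (hk : 100 ≤ k) :
    ∃ D : ℝ, dSat k < D ∧ ∀ i : ℕ, ExpLarge k i D := by
  have key : ∃ D : ℝ, dSat k < D ∧ ∀ i : ℕ, 1 ≤ i → ExpLarge k i D := by
    by_cases h : dSat k < 0.68 * 2 ^ k
    · exact ⟨0.68 * 2 ^ k, h, fun i hi => expLarge_A k i hk hi⟩
    · push Not at h
      have hpos : 0 < dSat k := lt_of_lt_of_le (by positivity) h
      obtain ⟨δ, hδ, hL⟩ := expLarge_C k hk h (dSat_le k) (fun ξ hξ hξd => by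
        exact tendsto_of_lt k (dSat k - ξ) (by linarith) (by linarith))
      exact ⟨dSat k + δ, by linarith, hL⟩
  obtain ⟨D, hD, hL⟩ := key
  refine ⟨D, hD, fun i => ?_⟩
  rcases Nat.eq_zero_or_pos i with rfl | hi
  · exact expLarge_anti k (by norm_num) D (hL 1 le_rfl)
  · exact hL i hi

theorem dSat_nonneg (k : ℕ) : 0 ≤ dSat k := by
  unfold dSat
  apply Real.sSup_nonneg
  intro d hd
  exact hd.1.le

theorem crit_unique (k i : ℕ) (t : ℝ) (h : IsCriticalDensity k i t) : t = dCrit k i := by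
  obtain ⟨ht, h1, h2⟩ := h
  unfold dCrit
  apply le_antisymm
  · apply le_of_forall_lt
    intro s hs
    have hm : max s (t / 2) < t := max_lt hs (by linarith)
    obtain ⟨r, hr1, hr2⟩ := exists_between hm
    have hr0 : 0 < r := lt_of_lt_of_le (by linarith) ((le_max_right s (t / 2)).trans hr1.le)
    exact lt_of_lt_of_le ((le_max_left _ _).trans_lt hr1)
      (le_csSup (bddAbove_expLarge k i) ⟨hr0, h1 r hr0 hr2⟩)
  · apply Real.sSup_le _ ht.le
    intro d hd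
    by_contra hcon
    push Not at hcon
    exact expLarge_expSmall k i d hd.2 (h2 d hcon)

theorem dCrit_anti (k : ℕ) (hk : 100 ≤ k) : Antitone (fun i : ℕ => dCrit k i) := by
  obtain ⟨D, hD, hL⟩ := uniform_gap k hk
  intro i j hij
  unfold dCrit
  apply csSup_le_csSup (bddAbove_expLarge k i)
  · exact ⟨D, lt_of_le_of_lt (dSat_nonneg k) hD, hL j⟩
  · intro d hd
    exact ⟨hd.1, expLarge_anti k hij d hd.2⟩

theorem main (k : ℕ) (hk : 100 ≤ k) :
    ∃ D L : ℝ, dSat k < D ∧ D ≤ L ∧ (∀ i : ℕ, ExpLarge k i D) ∧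
      Tendsto (fun i : ℕ => dCrit k i) atTop (𝓝 L) ∧
      (∀ (i : ℕ) (t : ℝ), IsCriticalDensity k i t → t = dCrit k i) := by
  obtain ⟨D, hD, hL⟩ := uniform_gap k hk
  have hlow : ∀ i : ℕ, D ≤ dCrit k i := fun i =>
    le_csSup (bddAbove_expLarge k i) ⟨lt_of_le_of_lt (dSat_nonneg k) hD, hL i⟩
  have hbdd : BddBelow (Set.range (fun i : ℕ => dCrit k i)) := by
    refine ⟨D, ?_⟩
    rintro _ ⟨i, rfl⟩
    exact hlow i
  refine ⟨D, ⨅ i : ℕ, dCrit k i, hD, le_ciInf hlow, hL,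
    tendsto_atTop_ciInf (dCrit_anti k hk) hbdd, crit_unique k⟩

end Pool.Agent.H986R2.KSat
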